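import Pool.Agent.H.MP_62c2ba_co.Defs

/-! # Augmentation of a maximum matching -/

set_option autoImplicit false

open Finset

namespace Pool.MP_62c2ba

variable {V : Type} [Fintype V] [DecidableEq V]

/-- `M` is a maximum matching of the 3-graph `H`. -/
structure MaxM (H M : Finset (Finset V)) : Prop where
  h3 : ∀ e ∈ H, e.card = 3
  sub : M ⊆ H
  dj : ∀ e ∈ M, ∀ f ∈ M, e ≠ f → Disjoint e f
  mx : ∀ M' ⊆ H, (∀ e ∈ M', ∀ f ∈ M', e ≠ f → Disjoint e f) → M'.card ≤ M.card

/-- The vertices not covered by `M`. -/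
def out (M : Finset (Finset V)) : Finset V := (M.biUnion id)ᶜ

/-- The list of the vertices of a list of triples. -/
def fl (l : List (V × V × V)) : List V := l.flatMap fun t => [t.1, t.2.1, t.2.2]

/-- `x` is the centre of a rich edge. -/
def Rx (H M : Finset (Finset V)) (x : V) : Prop := ∀ T : Finset V, T.card ≤ 4 →
  ∃ u ∈ out M, ∃ w ∈ out M, u ∉ T ∧ w ∉ T ∧ u ≠ w ∧ ({x, u, w} : Finset V) ∈ H

theorem mem_out {M : Finset (Finset V)} {x : V} : x ∈ out M ↔ ∀ E ∈ M, x ∉ E := by
  unfold out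
  simp

omit [Fintype V] [DecidableEq V] in
theorem mem_fl {l : List (V × V × V)} {x : V} :
    x ∈ fl l ↔ ∃ t ∈ l, x = t.1 ∨ x = t.2.1 ∨ x = t.2.2 := by
  unfold fl
  simp

omit [Fintype V] [DecidableEq V] in
theorem fl_cons (t : V × V × V) (l : List (V × V × V)) :
    fl (t :: l) = t.1 :: t.2.1 :: t.2.2 :: fl l := by
  unfold fl
  simp

theorem aug {H M : Finset (Finset V)} (h : MaxM H M) (l : List (V × V × V))
    (hl : ∀ t ∈ l, ({t.1, t.2.1, t.2.2} : Finset V) ∈ H) (nd : (fl l).Nodup)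
    (E : Finset (Finset V)) (hE : E ⊆ M) (cov : ∀ x ∈ fl l, x ∈ out M ∨ ∃ e ∈ E, x ∈ e) :
    l.length ≤ E.card := by
  obtain ⟨tri, htri⟩ : ∃ tri : V × V × V → Finset V, tri = fun t => {t.1, t.2.1, t.2.2} := ⟨_, rfl⟩
  have mtri : ∀ t x, x ∈ tri t ↔ x = t.1 ∨ x = t.2.1 ∨ x = t.2.2 := by
    intro t x
    rw [htri]
    simp
  have hpd : ∀ t ∈ l, ∀ t' ∈ l, t ≠ t' → Disjoint (tri t) (tri t') := by
    have h1 := (List.nodup_flatMap.1 nd).2
    have hs : Std.Symm (Function.onFun List.Disjoint fun t : V × V × V => [t.1, t.2.1, t.2.2]) :=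
      ⟨fun _ _ h x h3 h4 => h h4 h3⟩
    have h2 := h1.forall
    intro t ht t' ht' hne
    rw [Finset.disjoint_left]
    intro x hx hx'
    rw [mtri] at hx hx'
    exact h2 ht ht' hne (by simpa using hx) (by simpa using hx')
  have hinj : ∀ t ∈ l, ∀ t' ∈ l, tri t = tri t' → t = t' := by
    intro t ht t' ht' he
    by_contra hne
    have h1 := hpd t ht t' ht' hne
    rw [← he, Finset.disjoint_self_iff_empty] at h1
    have h2 : t.1 ∈ tri t := (mtri t _).2 (Or.inl rfl)
    rw [h1] at h2
    exact absurd h2 (Finset.notMem_empty _)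
  have hndl : l.Nodup := by
    have h1 : (List.flatMap (fun t : V × V × V => [t.1, t.2.1, t.2.2]) l).Nodup := nd
    rw [List.nodup_iff_sublist]
    intro t ht
    have h2 : (List.flatMap (fun t : V × V × V => [t.1, t.2.1, t.2.2]) [t, t]).Sublist
        (List.flatMap (fun t : V × V × V => [t.1, t.2.1, t.2.2]) l) := List.Sublist.flatMap ht _
    have h3 := h1.sublist h2
    simp at h3
  obtain ⟨N, hN⟩ : ∃ N : Finset (Finset V), N = l.toFinset.image tri := ⟨_, rfl⟩
  have hNc : N.card = l.length := by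
    rw [hN, Finset.card_image_of_injOn, List.toFinset_card_of_nodup hndl]
    intro t ht t' ht' he
    exact hinj t (by simpa using ht) t' (by simpa using ht') he
  have hNm : ∀ f, f ∈ N ↔ ∃ t ∈ l, tri t = f := by
    intro f
    rw [hN]
    simp
  have hcr : ∀ e ∈ M \ E, ∀ f ∈ N, Disjoint e f := by
    intro e he f hf
    rw [Finset.mem_sdiff] at he
    obtain ⟨t, ht, rfl⟩ := (hNm f).1 hf
    rw [Finset.disjoint_right]
    intro x hx hxe
    have h1 : x ∈ fl l := mem_fl.2 ⟨t, ht, (mtri t x).1 hx⟩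
    rcases cov x h1 with h2 | ⟨e', he', h2⟩
    · exact mem_out.1 h2 e he.1 hxe
    · have h3 : e ≠ e' := fun h4 => he.2 (h4 ▸ he')
      exact Finset.disjoint_left.1 (h.dj e he.1 e' (hE he') h3) hxe h2
  have hdis : Disjoint (M \ E) N := by
    rw [Finset.disjoint_left]
    intro e he hf
    have h1 := hcr e he e hf
    rw [Finset.disjoint_self_iff_empty] at h1
    have h2 := h.h3 e (h.sub (Finset.mem_sdiff.1 he).1)
    rw [h1, Finset.card_empty] at h2
    exact absurd h2 (by norm_num)
  have hmx := h.mx ((M \ E) ∪ N) (by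
    intro e he
    rcases Finset.mem_union.1 he with h1 | h1
    · exact h.sub (Finset.mem_sdiff.1 h1).1
    · obtain ⟨t, ht, rfl⟩ := (hNm e).1 h1
      rw [htri]
      exact hl t ht) (by
    intro e he f hf hne
    rcases Finset.mem_union.1 he with h1 | h1 <;> rcases Finset.mem_union.1 hf with h2 | h2
    · exact h.dj e (Finset.mem_sdiff.1 h1).1 f (Finset.mem_sdiff.1 h2).1 hne
    · exact hcr e h1 f h2
    · exact (hcr f h2 e h1).symm
    · obtain ⟨t, ht, rfl⟩ := (hNm e).1 h1
      obtain ⟨t', ht', rfl⟩ := (hNm f).1 h2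
      exact hpd t ht t' ht' fun h3 => hne (by rw [h3]))
  rw [Finset.card_union_of_disjoint hdis, hNc, Finset.card_sdiff_of_subset hE] at hmx
  have h1 := Finset.card_le_card hE
  omega

theorem augR {H M : Finset (Finset V)} (h : MaxM H M) (ctr : Finset V → V)
    (R : Finset (Finset V)) : ∀ (l : List (V × V × V)) (E : Finset (Finset V)),
    (∀ t ∈ l, ({t.1, t.2.1, t.2.2} : Finset V) ∈ H) → (fl l).Nodup → E ⊆ M → R ⊆ M →
    Disjoint E R → (∀ F ∈ R, ctr F ∈ F ∧ Rx H M (ctr F)) →
    (∀ x ∈ fl l, x ∈ out M ∨ (∃ e ∈ E, x ∈ e) ∨ ∃ F ∈ R, x ∈ F ∧ x ≠ ctr F) →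
    (R = ∅ ∨ ((fl l).filter (fun x => x ∈ out M)).length + 2 * R.card ≤ 6) →
    l.length ≤ E.card := by
  induction R using Finset.induction_on with
  | empty =>
    intro l E hl nd hE _ _ _ cov _
    refine aug h l hl nd E hE fun x hx => ?_
    rcases cov x hx with h1 | h1 | ⟨F, hF, -⟩
    · exact Or.inl h1
    · exact Or.inr h1
    · exact absurd hF (Finset.notMem_empty F)
  | insert F R1 hF ih =>
    intro l E hl nd hE hR hER hc cov hcnt
    have hcnt' : ((fl l).filter (fun x => x ∈ out M)).length + 2 * (R1.card + 1) ≤ 6 := by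
      rcases hcnt with h1 | h1
      · exact absurd h1 (Finset.insert_ne_empty F R1)
      · rwa [Finset.card_insert_of_notMem hF] at h1
    obtain ⟨hxF, hRx⟩ := hc F (Finset.mem_insert_self F R1)
    have hFM : F ∈ M := hR (Finset.mem_insert_self F R1)
    obtain ⟨u, hu, w, hw, huT, hwT, huw, hH⟩ :=
      hRx ((fl l).filter (fun x => x ∈ out M)).toFinset
        ((List.toFinset_card_le _).trans (by omega))
    have huf : u ∉ fl l := fun h1 => huT (by
      rw [List.mem_toFinset, List.mem_filter]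
      exact ⟨h1, by simpa using hu⟩)
    have hwf : w ∉ fl l := fun h1 => hwT (by
      rw [List.mem_toFinset, List.mem_filter]
      exact ⟨h1, by simpa using hw⟩)
    have hxo : ctr F ∉ out M := fun h1 => mem_out.1 h1 F hFM hxF
    have hFE : F ∉ E := fun h1 =>
      Finset.disjoint_left.1 hER h1 (Finset.mem_insert_self F R1)
    have huniq : ∀ G ∈ M, ctr F ∈ G → G = F := by
      intro G hG h1
      by_contra h2
      exact Finset.disjoint_left.1 (h.dj G hG F hFM h2) h1 hxF
    have hxf : ctr F ∉ fl l := by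
      intro h1
      rcases cov _ h1 with h2 | ⟨e, he, h2⟩ | ⟨G, hG, h2, h3⟩
      · exact hxo h2
      · exact hFE (huniq e (hE he) h2 ▸ he)
      · exact h3 (by rw [huniq G (hR hG) h2])
    have hxu : ctr F ≠ u := fun h1 => hxo (h1 ▸ hu)
    have hxw : ctr F ≠ w := fun h1 => hxo (h1 ▸ hw)
    have key := ih ((ctr F, u, w) :: l) (insert F E) (by
      intro t ht
      rcases List.mem_cons.1 ht with h1 | h1
      · rw [h1]; exact hH
      · exact hl t h1) (by
      rw [fl_cons]
      simp only [List.nodup_cons, List.mem_cons, not_or]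
      exact ⟨⟨hxu, hxw, hxf⟩, ⟨huw, huf⟩, hwf, nd⟩)
      (Finset.insert_subset hFM hE) ((Finset.subset_insert F R1).trans hR) (by
      rw [Finset.disjoint_insert_left]
      exact ⟨hF, hER.mono_right (Finset.subset_insert F R1)⟩)
      (fun G hG => hc G (Finset.mem_insert_of_mem hG)) (by
      intro x hx
      rw [fl_cons] at hx
      simp only [List.mem_cons] at hx
      rcases hx with h1 | h1 | h1 | h1
      · exact Or.inr (Or.inl ⟨F, Finset.mem_insert_self F E, h1 ▸ hxF⟩)
      · exact Or.inl (h1 ▸ hu)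
      · exact Or.inl (h1 ▸ hw)
      · rcases cov x h1 with h2 | ⟨e, he, h2⟩ | ⟨G, hG, h2, h3⟩
        · exact Or.inl h2
        · exact Or.inr (Or.inl ⟨e, Finset.mem_insert_of_mem he, h2⟩)
        · rcases Finset.mem_insert.1 hG with h4 | h4
          · exact Or.inr (Or.inl ⟨F, Finset.mem_insert_self F E, h4 ▸ h2⟩)
          · exact Or.inr (Or.inr ⟨G, h4, h2, h3⟩)) (by
      right
      rw [fl_cons]
      simp only [List.filter_cons]
      rw [if_neg (by simpa using hxo), if_pos (by simpa using hu), if_pos (by simpa using hw)]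
      simp only [List.length_cons]
      omega)
    rw [List.length_cons, Finset.card_insert_of_notMem hFE] at key
    omega

end Pool.MP_62c2ba
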