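import Pool.Agent.H.MP_62c2ba_co.Defs

/-! # An averaging argument -/

set_option autoImplicit false

open Finset

namespace Pool.MP_62c2ba

/-- Counts `c i j ≤ 6` such that `c i l = c j l = 6` implies `c i j ≤ 4` are at most `5` on average, up
to a small error. -/
theorem six {ι : Type} [DecidableEq ι] (P : Finset ι) (c : ι → ι → ℕ) (cs : ∀ i j, c i j = c j i)
    (c6 : ∀ i ∈ P, ∀ j ∈ P, i ≠ j → c i j ≤ 6)
    (c4 : ∀ i ∈ P, ∀ j ∈ P, ∀ l ∈ P, i ≠ j → i ≠ l → j ≠ l → c i l = 6 → c j l = 6 → c i j ≤ 4) :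
    ∑ i ∈ P, ∑ j ∈ P.erase i, c i j ≤ 5 * (P.card * (P.card - 1)) + P.card := by
  classical
  obtain ⟨adj, hadj⟩ : ∃ adj : ι → ι → Prop, adj = fun i j => i ≠ j ∧ c i j = 6 := ⟨_, rfl⟩
  have asym : ∀ i j, adj i j → adj j i := by
    intro i j h
    rw [hadj] at h ⊢
    exact ⟨h.1.symm, by rw [cs]; exact h.2⟩
  obtain ⟨N, hN⟩ : ∃ N : ι → Finset ι, N = fun i => P.filter (fun j => adj i j) := ⟨_, rfl⟩
  obtain ⟨N2, hN2⟩ : ∃ N2 : ι → Finset ι,
      N2 = fun i => P.filter (fun j => ∃ l ∈ P, adj i l ∧ adj j l) := ⟨_, rfl⟩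
  have mN : ∀ i j, j ∈ N i ↔ j ∈ P ∧ adj i j := fun i j => by rw [hN]; simp
  have mN2 : ∀ i j, j ∈ N2 i ↔ j ∈ P ∧ ∃ l ∈ P, adj i l ∧ adj j l := fun i j => by rw [hN2]; simp
  -- pointwise bound
  have h1 : ∀ i ∈ P, ∀ j ∈ P.erase i,
      c i j + (if j ∈ N2 i then 1 else 0) ≤ 5 + (if j ∈ N i then 1 else 0) := by
    intro i hi j hj
    obtain ⟨hji, hj⟩ := Finset.mem_erase.1 hj
    by_cases h2 : j ∈ N2 i
    · rw [if_pos h2]
      obtain ⟨-, l, hl, h3, h4⟩ := (mN2 i j).1 h2
      rw [hadj] at h3 h4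
      have h5 := c4 i hi j hj l hl (Ne.symm hji) h3.1 h4.1 h3.2 h4.2
      omega
    · rw [if_neg h2]
      by_cases h3 : j ∈ N i
      · rw [if_pos h3]
        exact c6 i hi j hj (Ne.symm hji)
      · rw [if_neg h3]
        have h4 := c6 i hi j hj (Ne.symm hji)
        have h5 : c i j ≠ 6 := by
          intro h6
          apply h3
          rw [mN, hadj]
          exact ⟨hj, Ne.symm hji, h6⟩
        omega
  have h2 : ∀ i ∈ P, (∑ j ∈ P.erase i, c i j) + (N2 i).card ≤ 5 * (P.card - 1) + (N i).card + 1 := by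
    intro i hi
    have h3 := Finset.sum_le_sum (h1 i hi)
    rw [Finset.sum_add_distrib, Finset.sum_add_distrib, Finset.sum_const, Finset.sum_boole,
      Finset.sum_boole, Finset.card_erase_of_mem hi, smul_eq_mul] at h3
    simp only [Nat.cast_id] at h3
    have h4 : (Finset.filter (fun j => j ∈ N i) (P.erase i)).card ≤ (N i).card :=
      Finset.card_le_card fun j hj => (Finset.mem_filter.1 hj).2
    have h5 : (N2 i).card ≤ (Finset.filter (fun j => j ∈ N2 i) (P.erase i)).card + 1 := by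
      have h6 : N2 i ⊆ insert i (Finset.filter (fun j => j ∈ N2 i) (P.erase i)) := by
        intro j hj
        rw [Finset.mem_insert, Finset.mem_filter, Finset.mem_erase]
        by_cases h7 : j = i
        · exact Or.inl h7
        · exact Or.inr ⟨⟨h7, ((mN2 i j).1 hj).1⟩, hj⟩
      exact (Finset.card_le_card h6).trans (Finset.card_insert_le _ _)
    rw [mul_comm (P.card - 1) 5] at h3
    omega
  -- the degree sum
  have h3 : ∀ i ∈ P, ∀ j ∈ N i, (N j).card ≤ (N2 i).card := by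
    intro i hi j hj
    refine Finset.card_le_card fun l hl => ?_
    rw [mN] at hj hl
    rw [mN2]
    exact ⟨hl.1, j, hj.1, hj.2, asym _ _ hl.2⟩
  have h4 : ∑ i ∈ P, (N i).card ≤ ∑ i ∈ P, (N2 i).card := by
    obtain ⟨g, hg⟩ : ∃ g : ι → ι → ℝ, g = fun i j =>
        if adj i j then ((N j).card : ℝ) / (N i).card else 0 := ⟨_, rfl⟩
    have hpos : ∀ i ∈ P, ∀ j ∈ P, adj i j → 0 < ((N i).card : ℝ) := by
      intro i _ j hj h
      have h5 : j ∈ N i := (mN i j).2 ⟨hj, h⟩
      exact_mod_cast Finset.card_pos.2 ⟨j, h5⟩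
    have e1 : ∀ i ∈ P, ∑ j ∈ P, g i j ≤ ((N2 i).card : ℝ) := by
      intro i hi
      rcases Finset.eq_empty_or_nonempty (N i) with h5 | h5
      · have h6 : ∀ j ∈ P, g i j = 0 := by
          intro j hj
          rw [hg]
          beta_reduce
          rw [if_neg]
          intro h7
          have h8 : j ∈ N i := (mN i j).2 ⟨hj, h7⟩
          rw [h5] at h8
          exact absurd h8 (Finset.notMem_empty j)
        rw [Finset.sum_eq_zero h6]
        exact Nat.cast_nonneg _
      · have h6 : 0 < ((N i).card : ℝ) := by exact_mod_cast Finset.card_pos.2 h5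
        have h7 : ∑ j ∈ P, g i j = ∑ j ∈ N i, ((N j).card : ℝ) / (N i).card := by
          rw [hg, hN]
          beta_reduce
          rw [Finset.sum_filter]
        rw [h7]
        have h8 : ∑ j ∈ N i, ((N j).card : ℝ) / (N i).card ≤
            ∑ _j ∈ N i, ((N2 i).card : ℝ) / (N i).card := by
          refine Finset.sum_le_sum fun j hj => ?_
          have h9 : ((N j).card : ℝ) ≤ (N2 i).card := by exact_mod_cast h3 i hi j hj
          exact div_le_div_of_nonneg_right h9 h6.le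
        refine h8.trans (le_of_eq ?_)
        rw [Finset.sum_const, nsmul_eq_mul]
        field_simp
    have e2 : ∀ i ∈ P, ∀ j ∈ P, (if adj i j then (2 : ℝ) else 0) ≤ g i j + g j i := by
      intro i hi j hj
      rw [hg]
      beta_reduce
      by_cases h5 : adj i j
      · rw [if_pos h5, if_pos h5, if_pos (asym _ _ h5)]
        have p1 := hpos i hi j hj h5
        have p2 := hpos j hj i hi (asym _ _ h5)
        rw [div_add_div _ _ p1.ne' p2.ne', le_div_iff₀ (mul_pos p1 p2)]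
        nlinarith [sq_nonneg (((N j).card : ℝ) - (N i).card)]
      · rw [if_neg h5, if_neg h5, if_neg (fun h6 => h5 (asym _ _ h6)), add_zero]
    have e3 : ∑ i ∈ P, ∑ j ∈ P, (if adj i j then (2 : ℝ) else 0) ≤
        ∑ i ∈ P, ∑ j ∈ P, (g i j + g j i) :=
      Finset.sum_le_sum fun i hi => Finset.sum_le_sum fun j hj => e2 i hi j hj
    have e4 : ∑ i ∈ P, ∑ j ∈ P, (if adj i j then (2 : ℝ) else 0) = 2 * ∑ i ∈ P, ((N i).card : ℝ) := by
      rw [Finset.mul_sum]
      refine Finset.sum_congr rfl fun i _ => ?_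
      rw [← Finset.sum_filter, Finset.sum_const, nsmul_eq_mul, hN, mul_comm]
    have e5 : ∑ i ∈ P, ∑ j ∈ P, (g i j + g j i) = 2 * ∑ i ∈ P, ∑ j ∈ P, g i j := by
      simp only [Finset.sum_add_distrib]
      rw [Finset.sum_comm (f := fun i j => g j i)]
      ring
    have e6 := Finset.sum_le_sum e1
    rw [e4, e5] at e3
    have e7 : ∑ i ∈ P, ((N i).card : ℝ) ≤ ∑ i ∈ P, ((N2 i).card : ℝ) := by linarith
    exact_mod_cast e7
  have h5 := Finset.sum_le_sum h2
  simp only [Finset.sum_add_distrib, Finset.sum_const, smul_eq_mul, mul_one] at h5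
  have h6 : P.card * (5 * (P.card - 1)) = 5 * (P.card * (P.card - 1)) := by ring
  omega

end Pool.MP_62c2ba
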