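import Pool.Agent.H.MP_62c2ba_co.Trip2
import Pool.Agent.H.MP_62c2ba_co.Six

/-! # Counting edges outside the centres -/

set_option autoImplicit false

open Finset

namespace Pool.MP_62c2ba

variable {V : Type} [Fintype V] [DecidableEq V]

/-- The number of uncovered vertices which form an edge with `w`, `w'`. -/
def dg (H M : Finset (Finset V)) (w w' : V) : ℕ :=
  ((out M).filter (fun v => ({v, w, w'} : Finset V) ∈ H)).card

theorem dg_sum (H M : Finset (Finset V)) (w w' : V) :
    ∑ v ∈ out M, tr H v w w' = dg H M w w' := by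
  unfold tr dg
  rw [Finset.sum_boole, Nat.cast_id]

theorem dg_le (H M : Finset (Finset V)) (w w' : V) : dg H M w w' ≤ (out M).card :=
  Finset.card_filter_le _ _

theorem in_E {H M : Finset (Finset V)} (h : MaxM H M) {E : Finset V} (hE : E ∈ M) :
    ∑ w ∈ E, ∑ w' ∈ E, dg H M w w' ≤ 6 * (out M).card := by
  have h3 := h.h3 E (h.sub hE)
  have h1 : ∀ w ∈ E, ∑ w' ∈ E, dg H M w w' ≤ 2 * (out M).card := by
    intro w hw
    rw [← Finset.add_sum_erase E _ hw]
    have h2 : dg H M w w = 0 := by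
      unfold dg
      rw [Finset.card_eq_zero, Finset.filter_eq_empty_iff]
      intro v _ hv
      exact (ne3 h.h3 hv).2.2 rfl
    rw [h2, zero_add]
    have h4 : (E.erase w).card = 2 := by rw [Finset.card_erase_of_mem hw, h3]
    refine (Finset.sum_le_card_nsmul _ _ _ fun w' _ => dg_le H M w w').trans ?_
    rw [h4, smul_eq_mul]
  refine (Finset.sum_le_card_nsmul _ _ _ h1).trans (le_of_eq ?_)
  rw [h3, smul_eq_mul]
  ring

theorem E_F {H M : Finset (Finset V)} (h : MaxM H M) {E F : Finset V} (hE : E ∈ M)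
    (hF : F ∈ M) : ∑ w ∈ E, ∑ w' ∈ F, dg H M w w' ≤ cP H M E F * (out M).card + 27 := by
  have h1 : ∀ w w', dg H M w w' ≤ (if pop H M w w' then 1 else 0) * (out M).card + 3 := by
    intro w w'
    by_cases hp : pop H M w w'
    · rw [if_pos hp, one_mul]
      exact (dg_le H M w w').trans (Nat.le_add_right _ _)
    · rw [if_neg hp, zero_mul, zero_add]
      unfold pop at hp
      unfold dg
      omega
  refine (Finset.sum_le_sum fun w _ => Finset.sum_le_sum fun w' _ => h1 w w').trans ?_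
  unfold cP
  simp only [Finset.sum_add_distrib, Finset.sum_const, Finset.sum_mul, smul_eq_mul,
    h.h3 E (h.sub hE), h.h3 F (h.sub hF)]
  omega

theorem E_B {H M R : Finset (Finset V)} {ctr : Finset V → V} (h : Cfg H M R ctr)
    {E : Finset V} (hE : E ∈ M \ R) :
    ∑ w ∈ E, ∑ b ∈ R.biUnion (fun F => F.erase (ctr F)), dg H M w b ≤
      (2 * R.card + 1) * (out M).card + 6 * R.card := by
  obtain ⟨B, hB⟩ : ∃ B, B = R.biUnion (fun F => F.erase (ctr F)) := ⟨_, rfl⟩
  rw [← hB]
  have hE3 := h.mm.h3 E (h.mm.sub (Finset.mem_sdiff.1 hE).1)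
  have hBc : B.card ≤ 2 * R.card := by
    rw [hB]
    refine Finset.card_biUnion_le.trans ?_
    refine (Finset.sum_le_card_nsmul _ _ 2 fun F hF => ?_).trans (le_of_eq ?_)
    · rw [Finset.card_erase_of_mem (h.rc F hF).1, h.mm.h3 F (h.mm.sub (h.rs hF))]
    · rw [smul_eq_mul, mul_comm]
  have hBm : ∀ b ∈ B, ∃ F ∈ R, b ∈ F ∧ b ≠ ctr F := by
    intro b hb
    rw [hB, Finset.mem_biUnion] at hb
    obtain ⟨F, hF, hb⟩ := hb
    rw [Finset.mem_erase] at hb
    exact ⟨F, hF, hb.2, hb.1⟩
  rcases Finset.eq_empty_or_nonempty R with hR | hR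
  · have hB0 : B = ∅ := by
      rw [hB, hR, Finset.biUnion_empty]
    rw [hB0]
    simp
  · have hr : 1 ≤ R.card := Finset.card_pos.2 hR
    have hst := star (X := E) (Y := B) (fun a b => 2 ≤ dg H M a b) (by
      intro a ha a' ha' b hb b' hb' haa hbb h1 h2
      obtain ⟨F, hF, hbF, hbc⟩ := hBm b hb
      obtain ⟨F', hF', hbF', hbc'⟩ := hBm b' hb'
      obtain ⟨v, hv⟩ : ((out M).filter (fun v => ({v, a, b} : Finset V) ∈ H)).Nonempty :=
        Finset.card_pos.1 (lt_of_lt_of_le (by norm_num) h1)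
      have h3 : ({v} : Finset V).card <
          ((out M).filter (fun v => ({v, a', b'} : Finset V) ∈ H)).card := by
        rw [Finset.card_singleton]
        exact lt_of_lt_of_le (by norm_num) h2
      obtain ⟨v', hv', hne⟩ := Finset.exists_mem_notMem_of_card_lt_card h3
      rw [Finset.mem_filter] at hv hv'
      exact no_two h hE ha ha' haa hF hF' hbF hbF' hbc hbc' hbb hv.1 hv'.1
        (fun h4 => hne (by rw [h4]; exact Finset.mem_singleton_self _)) hv.2 hv'.2)
    rw [hE3] at hst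
    have hst' : ∑ a ∈ E, ∑ b ∈ B, (if 2 ≤ dg H M a b then 1 else 0) ≤ 2 * R.card + 1 := by
      refine hst.trans ?_
      rw [max_le_iff]
      constructor <;> omega
    have h1 : ∀ w b, dg H M w b ≤ (if 2 ≤ dg H M w b then 1 else 0) * (out M).card + 1 := by
      intro w b
      by_cases hp : 2 ≤ dg H M w b
      · rw [if_pos hp, one_mul]
        exact (dg_le H M w b).trans (Nat.le_add_right _ _)
      · rw [if_neg hp, zero_mul, zero_add]
        omega
    refine (Finset.sum_le_sum fun w _ => Finset.sum_le_sum fun b _ => h1 w b).trans ?_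
    simp only [Finset.sum_add_distrib, Finset.sum_const, smul_eq_mul, mul_one, hE3]
    have h4 : ∑ w ∈ E, ∑ b ∈ B, (if 2 ≤ dg H M w b then 1 else 0) * (out M).card =
        (∑ w ∈ E, ∑ b ∈ B, (if 2 ≤ dg H M w b then 1 else 0)) * (out M).card := by
      simp only [Finset.sum_mul]
    rw [h4]
    have h5 := Nat.mul_le_mul_right (out M).card hst'
    omega

theorem cov_sum {H M : Finset (Finset V)} {w : V} {S : Finset V} {q : ℕ} (hS : S.card ≤ q)
    (hc : ∀ v ∈ out M, ∀ u ∈ out M, ({v, w, u} : Finset V) ∈ H → v ∈ S ∨ u ∈ S) :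
    ∑ u ∈ out M, dg H M w u ≤ 2 * q * (out M).card := by
  have h1 : ∀ u ∈ out M, dg H M w u ≤ q + (if u ∈ S then (out M).card else 0) := by
    intro u hu
    by_cases hus : u ∈ S
    · rw [if_pos hus]
      exact (dg_le H M w u).trans (Nat.le_add_left _ _)
    · rw [if_neg hus, add_zero]
      unfold dg
      refine (Finset.card_le_card ?_).trans hS
      intro v hv
      rw [Finset.mem_filter] at hv
      exact (hc v hv.1 u hu hv.2).resolve_right hus
  refine (Finset.sum_le_sum h1).trans ?_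
  rw [Finset.sum_add_distrib, Finset.sum_const, smul_eq_mul, ← Finset.sum_filter,
    Finset.sum_const, smul_eq_mul]
  have h2 : ((out M).filter (fun u => u ∈ S)).card ≤ q := by
    refine (Finset.card_le_card ?_).trans hS
    intro v hv
    exact (Finset.mem_filter.1 hv).2
  have h3 := Nat.mul_le_mul_right (out M).card h2
  nlinarith

theorem E_U {H M R : Finset (Finset V)} {ctr : Finset V → V} (h : Cfg H M R ctr)
    {E : Finset V} (hE : E ∈ M \ R) : ∑ w ∈ E, ∑ u ∈ out M, dg H M w u ≤ 12 * (out M).card := by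
  have hEM := (Finset.mem_sdiff.1 hE).1
  have hE3 := h.mm.h3 E (h.mm.sub hEM)
  obtain ⟨ne, hne⟩ : ∃ ne : V → Prop, ne = fun w => ∃ f ∈ out M, ∃ g ∈ out M,
      ({w, f, g} : Finset V) ∈ H := ⟨_, rfl⟩
  have hperm : ∀ v w u : V, ({v, w, u} : Finset V) = {w, v, u} := fun v w u =>
    Finset.insert_comm v w {u}
  have h0 : ∀ w, ¬ ne w → ∑ u ∈ out M, dg H M w u = 0 := by
    intro w hw
    refine Finset.sum_eq_zero fun u hu => ?_
    unfold dg
    rw [Finset.card_eq_zero, Finset.filter_eq_empty_iff]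
    intro v hv hv'
    apply hw
    rw [hne]
    rw [hperm] at hv'
    exact ⟨v, hv, u, hu, hv'⟩
  by_cases hx : ∃ x ∈ E, ∃ y ∈ E, x ≠ y ∧ ne x ∧ ne y
  · obtain ⟨x, hxE, y, hyE, hxy, hx, hy⟩ := hx
    have h1 : ∀ w ∈ E, ∑ u ∈ out M, dg H M w u ≤ 4 * (out M).card := by
      intro w hw
      obtain ⟨z, hz, hwz, hzn⟩ : ∃ z ∈ E, w ≠ z ∧ ne z := by
        by_cases hwx : w = x
        · exact ⟨y, hyE, by rw [hwx]; exact hxy, hy⟩
        · exact ⟨x, hxE, hwx, hx⟩
      rw [hne] at hzn
      obtain ⟨f, hf, g, hg, hfg⟩ := hzn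
      refine cov_sum (S := {f, g}) (q := 2) Finset.card_le_two fun v hv u hu hvu => ?_
      rw [hperm] at hvu
      have h2 := cross h.mm hEM hw hz hwz hv hu hf hg hvu hfg
      simp only [Finset.mem_insert, Finset.mem_singleton]
      tauto
    refine (Finset.sum_le_card_nsmul _ _ _ h1).trans (le_of_eq ?_)
    rw [hE3, smul_eq_mul]
    ring
  · by_cases hw : ∃ w ∈ E, ne w
    · obtain ⟨w, hwE, hw⟩ := hw
      rw [← Finset.add_sum_erase E _ hwE]
      have h1 : ∑ w' ∈ E.erase w, ∑ u ∈ out M, dg H M w' u = 0 := by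
        refine Finset.sum_eq_zero fun w' hw' => h0 w' fun h2 => ?_
        rw [Finset.mem_erase] at hw'
        exact hx ⟨w', hw'.2, w, hwE, hw'.1, h2, hw⟩
      rw [h1, add_zero]
      obtain ⟨T, hT, hTc⟩ := h.pr E hE w hwE
      have h2 := cov_sum (H := H) (M := M) (w := w) (S := T) (q := 4) hT fun v hv u hu hvu => by
        obtain ⟨-, n2, -⟩ := ne3 h.mm.h3 hvu
        rw [hperm] at hvu
        exact hTc v hv u hu n2 hvu
      omega
    · push Not at hw
      rw [Finset.sum_eq_zero fun w hwE => h0 w (hw w hwE)]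
      exact Nat.zero_le _

end Pool.MP_62c2ba
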