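import Pool.Agent.H.MP_62c2ba_co.Aug
import Pool.Agent.H.MP_62c2ba_co.Cnt

/-! # Augmentation, with a parameter -/

set_option autoImplicit false

open Finset

namespace Pool.MP_62c2ba

variable {V : Type} [Fintype V] [DecidableEq V]

/-- `x` is the centre of a rich edge: its link in the uncovered set is not covered by `q` vertices. -/
def RxQ (q : ℕ) (H M : Finset (Finset V)) (x : V) : Prop := ∀ T : Finset V, T.card ≤ q →
  ∃ u ∈ out M, ∃ w ∈ out M, u ∉ T ∧ w ∉ T ∧ u ≠ w ∧ ({x, u, w} : Finset V) ∈ H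

/-- The rich edges `R` of `M` with their centres; the other edges of `M` are poor. -/
structure CfgQ (q : ℕ) (H M R : Finset (Finset V)) (ctr : Finset V → V) : Prop where
  mm : MaxM H M
  rs : R ⊆ M
  rc : ∀ F ∈ R, ctr F ∈ F ∧ RxQ q H M (ctr F)
  pr : ∀ E ∈ M \ R, ∀ x ∈ E, ∃ T : Finset V, T.card ≤ q ∧
    ∀ u ∈ out M, ∀ w ∈ out M, u ≠ w → ({x, u, w} : Finset V) ∈ H → u ∈ T ∨ w ∈ T

theorem augQ (q : ℕ) {H M : Finset (Finset V)} (h : MaxM H M) (ctr : Finset V → V)
    (R : Finset (Finset V)) : ∀ (l : List (V × V × V)) (E : Finset (Finset V)),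
    (∀ t ∈ l, ({t.1, t.2.1, t.2.2} : Finset V) ∈ H) → (fl l).Nodup → E ⊆ M → R ⊆ M →
    Disjoint E R → (∀ F ∈ R, ctr F ∈ F ∧ RxQ q H M (ctr F)) →
    (∀ x ∈ fl l, x ∈ out M ∨ (∃ e ∈ E, x ∈ e) ∨ ∃ F ∈ R, x ∈ F ∧ x ≠ ctr F) →
    (R = ∅ ∨ ((fl l).filter (fun x => x ∈ out M)).length + 2 * R.card ≤ q + 2) →
    l.length ≤ E.card := by
  induction R using Finset.induction_on with
  | empty =>
    intro l E hl nd hE _ _ _ cov _
    refine aug h l hl nd E hE fun x hx => ?_
    rcases cov x hx with h1 | h1 | ⟨F, hF, -⟩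
    · exact Or.inl h1
    · exact Or.inr h1
    · exact absurd hF (Finset.notMem_empty F)
  | insert F R1 hF ih =>
    intro l E hl nd hE hR hER hc cov hcnt
    have hcnt' : ((fl l).filter (fun x => x ∈ out M)).length + 2 * (R1.card + 1) ≤ q + 2 := by
      rcases hcnt with h1 | h1
      · exact absurd h1 (Finset.insert_ne_empty F R1)
      · rwa [Finset.card_insert_of_notMem hF] at h1
    obtain ⟨hxF, hRx⟩ := hc F (Finset.mem_insert_self F R1)
    have hFM : F ∈ M := hR (Finset.mem_insert_self F R1)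
    obtain ⟨u, hu, w, hw, huT, hwT, huw, hH⟩ :=
      hRx ((fl l).filter (fun x => x ∈ out M)).toFinset
        ((List.toFinset_card_le _).trans (by omega))
    have huf : u ∉ fl l := fun h1 => huT (by
      rw [List.mem_toFinset, List.mem_filter]
      exact ⟨h1, by simpa using hu⟩)
    have hwf : w ∉ fl l := fun h1 => hwT (by
      rw [List.mem_toFinset, List.mem_filter]
      exact ⟨h1, by simpa using hw⟩)
    have hxo : ctr F ∉ out M := fun h1 => mem_out.1 h1 F hFM hxF
    have hFE : F ∉ E := fun h1 =>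
      Finset.disjoint_left.1 hER h1 (Finset.mem_insert_self F R1)
    have huniq : ∀ G ∈ M, ctr F ∈ G → G = F := by
      intro G hG h1
      by_contra h2
      exact Finset.disjoint_left.1 (h.dj G hG F hFM h2) h1 hxF
    have hxf : ctr F ∉ fl l := by
      intro h1
      rcases cov _ h1 with h2 | ⟨e, he, h2⟩ | ⟨G, hG, h2, h3⟩
      · exact hxo h2
      · exact hFE (huniq e (hE he) h2 ▸ he)
      · exact h3 (by rw [huniq G (hR hG) h2])
    have hxu : ctr F ≠ u := fun h1 => hxo (h1 ▸ hu)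
    have hxw : ctr F ≠ w := fun h1 => hxo (h1 ▸ hw)
    have key := ih ((ctr F, u, w) :: l) (insert F E) (by
      intro t ht
      rcases List.mem_cons.1 ht with h1 | h1
      · rw [h1]; exact hH
      · exact hl t h1) (by
      rw [fl_cons]
      simp only [List.nodup_cons, List.mem_cons, not_or]
      exact ⟨⟨hxu, hxw, hxf⟩, ⟨huw, huf⟩, hwf, nd⟩)
      (Finset.insert_subset hFM hE) ((Finset.subset_insert F R1).trans hR) (by
      rw [Finset.disjoint_insert_left]
      exact ⟨hF, hER.mono_right (Finset.subset_insert F R1)⟩)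
      (fun G hG => hc G (Finset.mem_insert_of_mem hG)) (by
      intro x hx
      rw [fl_cons] at hx
      simp only [List.mem_cons] at hx
      rcases hx with h1 | h1 | h1 | h1
      · exact Or.inr (Or.inl ⟨F, Finset.mem_insert_self F E, h1 ▸ hxF⟩)
      · exact Or.inl (h1 ▸ hu)
      · exact Or.inl (h1 ▸ hw)
      · rcases cov x h1 with h2 | ⟨e, he, h2⟩ | ⟨G, hG, h2, h3⟩
        · exact Or.inl h2
        · exact Or.inr (Or.inl ⟨e, Finset.mem_insert_of_mem he, h2⟩)
        · rcases Finset.mem_insert.1 hG with h4 | h4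
          · exact Or.inr (Or.inl ⟨F, Finset.mem_insert_self F E, h4 ▸ h2⟩)
          · exact Or.inr (Or.inr ⟨G, h4, h2, h3⟩)) (by
      right
      rw [fl_cons]
      simp only [List.filter_cons]
      rw [if_neg (by simpa using hxo), if_pos (by simpa using hu), if_pos (by simpa using hw)]
      simp only [List.length_cons]
      omega)
    rw [List.length_cons, Finset.card_insert_of_notMem hFE] at key
    omega


theorem augS {q : ℕ} {H M R : Finset (Finset V)} {ctr : Finset V → V} (h : CfgQ q H M R ctr)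
    (l : List (V × V × V)) (hl : ∀ t ∈ l, ({t.1, t.2.1, t.2.2} : Finset V) ∈ H)
    (nd : (fl l).Nodup) (E : Finset (Finset V)) (hE : E ⊆ M \ R)
    (cov : ∀ x ∈ fl l, x ∈ out M ∨ (∃ e ∈ E, x ∈ e) ∨ ∃ F ∈ R, x ∈ F ∧ x ≠ ctr F)
    (hlen : 6 * l.length ≤ q + 2) : l.length ≤ E.card := by
  classical
  obtain ⟨R', hR'⟩ : ∃ R', R' = R.filter (fun F => ∃ x ∈ fl l, x ∈ F) := ⟨_, rfl⟩
  have mR : ∀ F, F ∈ R' ↔ F ∈ R ∧ ∃ x ∈ fl l, x ∈ F := by
    intro F
    rw [hR', Finset.mem_filter]
  have hfl : (fl l).length = 3 * l.length := by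
    clear cov hl nd hR' mR hlen
    induction l with
    | nil => simp [fl]
    | cons t l ih =>
      rw [fl_cons]
      simp only [List.length_cons]
      omega
  have hsplit : ((fl l).filter (fun x => x ∈ out M)).length +
      ((fl l).filter (fun x => ¬ x ∈ out M)).length = (fl l).length := by
    have := List.length_eq_length_filter_add (l := fl l) (fun x => decide (x ∈ out M))
    rw [this]
    congr 2
    simp
  have hRc : R'.card ≤ ((fl l).filter (fun x => ¬ x ∈ out M)).length := by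
    have h1 : ∀ F ∈ R', ∃ x, x ∈ fl l ∧ x ∈ F := fun F hF => by
      obtain ⟨x, h1, h2⟩ := ((mR F).1 hF).2
      exact ⟨x, h1, h2⟩
    rcases R'.eq_empty_or_nonempty with h0 | ⟨F0, hF0⟩
    · rw [h0, Finset.card_empty]
      exact Nat.zero_le _
    obtain ⟨x0, -, -⟩ := h1 F0 hF0
    have : Nonempty V := ⟨x0⟩
    choose! g g1 g2 using h1
    have h3 : (R'.image g).card = R'.card := by
      refine Finset.card_image_of_injOn fun F hF F' hF' he => ?_
      by_contra hne
      refine Finset.disjoint_left.1 (h.mm.dj F (h.rs ((mR F).1 hF).1) F'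
        (h.rs ((mR F').1 hF').1) hne) (g2 F hF) ?_
      have h4 := g2 F' hF'
      rwa [← he] at h4
    rw [← h3]
    refine (Finset.card_le_card ?_).trans (List.toFinset_card_le _)
    intro x hx
    obtain ⟨F, hF, rfl⟩ := Finset.mem_image.1 hx
    rw [List.mem_toFinset, List.mem_filter]
    refine ⟨g1 F hF, ?_⟩
    simp only [decide_eq_true_eq]
    exact fun h4 => mem_out.1 h4 F (h.rs ((mR F).1 hF).1) (g2 F hF)
  refine augQ q h.mm ctr R' l E hl nd (hE.trans Finset.sdiff_subset) (fun F hF =>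
    h.rs ((mR F).1 hF).1) ?_ (fun F hF => h.rc F ((mR F).1 hF).1) ?_ (Or.inr (by omega))
  · rw [Finset.disjoint_left]
    intro F hF hF'
    exact (Finset.mem_sdiff.1 (hE hF)).2 ((mR F).1 hF').1
  · intro x hx
    rcases cov x hx with h1 | h1 | ⟨F, hF, h1, h2⟩
    · exact Or.inl h1
    · exact Or.inr (Or.inl h1)
    · exact Or.inr (Or.inr ⟨F, (mR F).2 ⟨hF, x, hx, h1⟩, h1, h2⟩)

/-- No edge outside the poor edges. -/
theorem none_outQ {q : ℕ} (hq : 4 ≤ q) {H M R : Finset (Finset V)} {ctr : Finset V → V}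
    (h : CfgQ q H M R ctr) {v w w' : V}
    (hv : v ∈ out M) (hw : w ∈ out M ∨ ∃ F ∈ R, w ∈ F ∧ w ≠ ctr F)
    (hw' : w' ∈ out M ∨ ∃ F ∈ R, w' ∈ F ∧ w' ≠ ctr F) : ({v, w, w'} : Finset V) ∉ H := by
  intro hH
  obtain ⟨n1, n2, n3⟩ := ne3 h.mm.h3 hH
  have hnd : (fl [(v, w, w')]).Nodup := by
    rw [fl_cons]
    simp [fl, n1, n2, n3]
  have h1 := augS h [(v, w, w')] (by simpa using hH) hnd ∅ (Finset.empty_subset _) (by
    intro x hx
    rw [mem_fl] at hx
    simp only [List.mem_singleton, exists_eq_left] at hx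
    rcases hx with rfl | rfl | rfl
    · exact Or.inl hv
    · exact hw.imp_right Or.inr
    · exact hw'.imp_right Or.inr) (by simp only [List.length_singleton]; omega)
  simp at h1

theorem exists_cfgQ (q : ℕ) (H : Finset (Finset V)) (h3 : ∀ e ∈ H, e.card = 3) (x0 : V) :
    ∃ (M R : Finset (Finset V)) (ctr : Finset V → V), CfgQ q H M R ctr := by
  classical
  obtain ⟨M, hM, hmax⟩ := Finset.exists_max_image
    (H.powerset.filter (fun M => ∀ e ∈ M, ∀ f ∈ M, e ≠ f → Disjoint e f)) Finset.card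
    ⟨∅, by simp⟩
  rw [Finset.mem_filter, Finset.mem_powerset] at hM
  have hmm : MaxM H M := by
    refine ⟨h3, hM.1, hM.2, fun M' hM' hd => hmax M' ?_⟩
    rw [Finset.mem_filter, Finset.mem_powerset]
    exact ⟨hM', hd⟩
  refine ⟨M, M.filter (fun E => ∃ x ∈ E, RxQ q H M x),
    fun E => if h : ∃ x ∈ E, RxQ q H M x then h.choose else x0, hmm, Finset.filter_subset _ _,
    ?_, ?_⟩
  · intro F hF
    have h1 := (Finset.mem_filter.1 hF).2
    rw [dif_pos h1]
    exact h1.choose_spec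
  · intro E hE x hx
    rw [Finset.mem_sdiff, Finset.mem_filter, not_and] at hE
    have h1 := hE.2 hE.1
    have h2 : ¬ RxQ q H M x := fun h3 => h1 ⟨x, hx, h3⟩
    unfold RxQ at h2
    push Not at h2
    obtain ⟨T, hT, h4⟩ := h2
    refine ⟨T, hT, fun u hu w hw huw hH => ?_⟩
    by_contra h5
    rw [not_or] at h5
    exact h4 u hu w hw h5.1 h5.2 huw hH

end Pool.MP_62c2ba
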