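import Pool.Agent.H.MP_62c2ba_co.Aug

/-! # Rich and poor edges, popular pairs -/

set_option autoImplicit false

open Finset

namespace Pool.MP_62c2ba

variable {V : Type} [Fintype V] [DecidableEq V]

/-- The rich edges `R` of `M` with their centres; the other edges of `M` are poor. -/
structure Cfg (H M R : Finset (Finset V)) (ctr : Finset V → V) : Prop where
  mm : MaxM H M
  rs : R ⊆ M
  rc : ∀ F ∈ R, ctr F ∈ F ∧ Rx H M (ctr F)
  pr : ∀ E ∈ M \ R, ∀ x ∈ E, ∃ T : Finset V, T.card ≤ 4 ∧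
    ∀ u ∈ out M, ∀ w ∈ out M, u ≠ w → ({x, u, w} : Finset V) ∈ H → u ∈ T ∨ w ∈ T

/-- At least four vertices outside `M` form an edge with `w`, `w'`. -/
def pop (H M : Finset (Finset V)) (w w' : V) : Prop :=
  4 ≤ ((out M).filter (fun v => ({v, w, w'} : Finset V) ∈ H)).card

omit [Fintype V] in
theorem ne3 {H : Finset (Finset V)} (h3 : ∀ e ∈ H, e.card = 3) {a b c : V}
    (h : ({a, b, c} : Finset V) ∈ H) : a ≠ b ∧ a ≠ c ∧ b ≠ c := by
  have h1 := h3 _ h
  refine ⟨?_, ?_, ?_⟩
  · rintro rfl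
    rw [Finset.insert_eq_of_mem (Finset.mem_insert_self _ _)] at h1
    have := Finset.card_le_two (a := a) (b := c)
    omega
  · rintro rfl
    rw [Finset.insert_eq_of_mem (by simp)] at h1
    have := Finset.card_le_two (a := b) (b := a)
    omega
  · rintro rfl
    rw [Finset.pair_eq_singleton] at h1
    have := Finset.card_le_two (a := a) (b := b)
    omega

theorem pop_symm {H M : Finset (Finset V)} {w w' : V} (h : pop H M w w') : pop H M w' w := by
  unfold pop at h ⊢
  have h1 : ∀ v, ({v, w', w} : Finset V) = {v, w, w'} := fun v => by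
    rw [Finset.pair_comm w' w]
  simp only [h1]
  exact h

/-- No edge outside the poor edges. -/
theorem none_out {H M R : Finset (Finset V)} {ctr : Finset V → V} (h : Cfg H M R ctr) {v w w' : V}
    (hv : v ∈ out M) (hw : w ∈ out M ∨ ∃ F ∈ R, w ∈ F ∧ w ≠ ctr F)
    (hw' : w' ∈ out M ∨ ∃ F ∈ R, w' ∈ F ∧ w' ≠ ctr F) : ({v, w, w'} : Finset V) ∉ H := by
  intro hH
  obtain ⟨n1, n2, n3⟩ := ne3 h.mm.h3 hH
  have hnd : (fl [(v, w, w')]).Nodup := by
    rw [fl_cons]
    simp [fl, n1, n2, n3]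
  have key : ∀ R' ⊆ R, (R' = ∅ ∨ ((fl [(v, w, w')]).filter (fun x => x ∈ out M)).length +
      2 * R'.card ≤ 6) → (∀ x ∈ fl [(v, w, w')], x ∈ out M ∨ ∃ F ∈ R', x ∈ F ∧ x ≠ ctr F) →
      False := by
    intro R' hR' hcnt hcov
    have h1 := augR h.mm ctr R' [(v, w, w')] ∅ (by simpa using hH) hnd (Finset.empty_subset _)
      (hR'.trans h.rs) (Finset.disjoint_empty_left _) (fun F hF => h.rc F (hR' hF))
      (fun x hx => (hcov x hx).imp_right Or.inr) hcnt
    simp at h1
  have hlen : ∀ (x : V), x ∉ out M → x ∈ fl [(v, w, w')] →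
      ((fl [(v, w, w')]).filter (fun x => x ∈ out M)).length ≤ 2 := by
    intro x hx hxm
    have h1 : ((fl [(v, w, w')]).filter (fun x => x ∈ out M)).length < (fl [(v, w, w')]).length :=
      List.length_filter_lt_length_iff_exists.2 ⟨x, hxm, by simpa using hx⟩
    have h2 : (fl [(v, w, w')]).length = 3 := by simp [fl]
    omega
  have nout : ∀ F ∈ R, ∀ x ∈ F, x ∉ out M := fun F hF x hx h1 => mem_out.1 h1 F (h.rs hF) hx
  rcases hw with hw | ⟨F, hF, hwF, hwc⟩ <;> rcases hw' with hw' | ⟨F', hF', hwF', hwc'⟩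
  · refine key ∅ (Finset.empty_subset _) (Or.inl rfl) fun x hx => Or.inl ?_
    rw [mem_fl] at hx
    simp only [List.mem_singleton, exists_eq_left] at hx
    rcases hx with rfl | rfl | rfl <;> assumption
  · refine key {F'} (Finset.singleton_subset_iff.2 hF') (Or.inr ?_) fun x hx => ?_
    · have h1 := hlen w' (nout F' hF' w' hwF') (by simp [fl])
      rw [Finset.card_singleton]
      omega
    · rw [mem_fl] at hx
      simp only [List.mem_singleton, exists_eq_left] at hx
      rcases hx with rfl | rfl | rfl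
      · exact Or.inl hv
      · exact Or.inl hw
      · exact Or.inr ⟨F', Finset.mem_singleton_self _, hwF', hwc'⟩
  · refine key {F} (Finset.singleton_subset_iff.2 hF) (Or.inr ?_) fun x hx => ?_
    · have h1 := hlen w (nout F hF w hwF) (by simp [fl])
      rw [Finset.card_singleton]
      omega
    · rw [mem_fl] at hx
      simp only [List.mem_singleton, exists_eq_left] at hx
      rcases hx with rfl | rfl | rfl
      · exact Or.inl hv
      · exact Or.inr ⟨F, Finset.mem_singleton_self _, hwF, hwc⟩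
      · exact Or.inl hw'
  · refine key {F, F'} ?_ (Or.inr ?_) fun x hx => ?_
    · intro G hG
      rcases Finset.mem_insert.1 hG with rfl | hG
      · exact hF
      · rw [Finset.mem_singleton.1 hG]; exact hF'
    · have h1 := hlen w (nout F hF w hwF) (by simp [fl])
      have h2 : ({F, F'} : Finset (Finset V)).card ≤ 2 := Finset.card_le_two
      omega
    · rw [mem_fl] at hx
      simp only [List.mem_singleton, exists_eq_left] at hx
      rcases hx with rfl | rfl | rfl
      · exact Or.inl hv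
      · exact Or.inr ⟨F, Finset.mem_insert_self _ _, hwF, hwc⟩
      · exact Or.inr ⟨F', by simp, hwF', hwc'⟩

/-- Two disjoint pairs between a poor edge and the noncentral vertices of the rich edges. -/
theorem no_two {H M R : Finset (Finset V)} {ctr : Finset V → V} (h : Cfg H M R ctr)
    {E : Finset V} (hE : E ∈ M \ R) {a a' b b' v v' : V} (ha : a ∈ E) (ha' : a' ∈ E) (haa : a ≠ a')
    {F F' : Finset V} (hF : F ∈ R) (hF' : F' ∈ R) (hb : b ∈ F) (hb' : b' ∈ F') (hbc : b ≠ ctr F)
    (hbc' : b' ≠ ctr F') (hbb : b ≠ b') (hv : v ∈ out M) (hv' : v' ∈ out M) (hvv : v ≠ v')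
    (hH : ({v, a, b} : Finset V) ∈ H) (hH' : ({v', a', b'} : Finset V) ∈ H) : False := by
  obtain ⟨hEM, hER⟩ := Finset.mem_sdiff.1 hE
  have out1 : ∀ G ∈ M, ∀ x ∈ G, ∀ u ∈ out M, u ≠ x := fun G hG x hx u hu h1 =>
    mem_out.1 hu G hG (h1 ▸ hx)
  have hEF : ∀ G ∈ R, ∀ x ∈ E, ∀ y ∈ G, x ≠ y := by
    intro G hG x hx y hy h1
    have h2 : E ≠ G := fun h3 => hER (h3 ▸ hG)
    exact Finset.disjoint_left.1 (h.mm.dj E hEM G (h.rs hG) h2) hx (h1 ▸ hy)
  have hFM := h.rs hF
  have hFM' := h.rs hF'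
  have q1 := out1 E hEM a ha v hv
  have q2 := out1 E hEM a' ha' v hv
  have q3 := out1 F hFM b hb v hv
  have q4 := out1 F' hFM' b' hb' v hv
  have q5 := out1 E hEM a ha v' hv'
  have q6 := out1 E hEM a' ha' v' hv'
  have q7 := out1 F hFM b hb v' hv'
  have q8 := out1 F' hFM' b' hb' v' hv'
  have q9 := hEF F hF a ha b hb
  have q10 := hEF F' hF' a ha b' hb'
  have q11 := hEF F hF a' ha' b hb
  have q12 := hEF F' hF' a' ha' b' hb'
  have n1 : a ∉ out M := fun h1 => out1 E hEM a ha a h1 rfl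
  have n2 : a' ∉ out M := fun h1 => out1 E hEM a' ha' a' h1 rfl
  have n3 : b ∉ out M := fun h1 => out1 F hFM b hb b h1 rfl
  have n4 : b' ∉ out M := fun h1 => out1 F' hFM' b' hb' b' h1 rfl
  have h1 := augR h.mm ctr {F, F'} [(v, a, b), (v', a', b')] {E}
    (by simp only [List.mem_cons, List.not_mem_nil, or_false, forall_eq_or_imp, forall_eq]
        exact ⟨hH, hH'⟩)
    (by simp only [fl, List.flatMap_cons, List.flatMap_nil, List.append_nil, List.cons_append,
          List.nil_append, List.nodup_cons, List.mem_cons, List.not_mem_nil, or_false, not_or,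
          not_false_eq_true, List.nodup_nil, and_true]
        exact ⟨⟨q1, q3, hvv, q2, q4⟩, ⟨q9, q5.symm, haa, q10⟩, ⟨q7.symm, q11.symm, hbb⟩, ⟨q6, q8⟩,
          q12⟩)
    (Finset.singleton_subset_iff.2 hEM)
    (by
      intro G hG
      rcases Finset.mem_insert.1 hG with rfl | hG
      · exact hFM
      · rw [Finset.mem_singleton.1 hG]; exact hFM')
    (by
      rw [Finset.disjoint_singleton_left]
      intro hG
      rcases Finset.mem_insert.1 hG with h2 | hG
      · exact hER (h2 ▸ hF)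
      · exact hER (Finset.mem_singleton.1 hG ▸ hF'))
    (by
      intro G hG
      rcases Finset.mem_insert.1 hG with rfl | hG
      · exact h.rc G hF
      · rw [Finset.mem_singleton.1 hG]; exact h.rc F' hF')
    (by
      intro x hx
      rw [mem_fl] at hx
      simp only [List.mem_cons, List.not_mem_nil, or_false, exists_eq_or_imp, exists_eq_left] at hx
      rcases hx with (rfl | rfl | rfl) | (rfl | rfl | rfl)
      · exact Or.inl hv
      · exact Or.inr (Or.inl ⟨E, Finset.mem_singleton_self _, ha⟩)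
      · exact Or.inr (Or.inr ⟨F, Finset.mem_insert_self _ _, hb, hbc⟩)
      · exact Or.inl hv'
      · exact Or.inr (Or.inl ⟨E, Finset.mem_singleton_self _, ha'⟩)
      · exact Or.inr (Or.inr ⟨F', by simp, hb', hbc'⟩))
    (by
      right
      have h2 : ({F, F'} : Finset (Finset V)).card ≤ 2 := Finset.card_le_two
      have h3 : ((fl [(v, a, b), (v', a', b')]).filter (fun x => x ∈ out M)).length = 2 := by
        simp only [fl, List.flatMap_cons, List.flatMap_nil, List.append_nil, List.cons_append,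
          List.nil_append]
        simp [hv, hv', n1, n2, n3, n4]
      omega)
  simp at h1

/-- Links inside the uncovered set of two vertices of a poor edge. -/
theorem cross {H M : Finset (Finset V)} (h : MaxM H M) {E : Finset V} (hE : E ∈ M)
    {x y u w f g : V} (hx : x ∈ E) (hy : y ∈ E) (hxy : x ≠ y) (hu : u ∈ out M) (hw : w ∈ out M)
    (hf : f ∈ out M) (hg : g ∈ out M) (hH : ({x, u, w} : Finset V) ∈ H)
    (hH' : ({y, f, g} : Finset V) ∈ H) : u = f ∨ u = g ∨ w = f ∨ w = g := by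
  by_contra hcon
  rw [not_or, not_or, not_or] at hcon
  obtain ⟨c1, c2, c3, c4⟩ := hcon
  obtain ⟨n1, n2, n3⟩ := ne3 h.h3 hH
  obtain ⟨m1, m2, m3⟩ := ne3 h.h3 hH'
  have out1 : ∀ z ∈ E, ∀ t ∈ out M, z ≠ t := fun z hz t ht h1 => mem_out.1 ht E hE (h1 ▸ hz)
  have h1 := aug h [(x, u, w), (y, f, g)]
    (by simp only [List.mem_cons, List.not_mem_nil, or_false, forall_eq_or_imp, forall_eq]
        exact ⟨hH, hH'⟩)
    (by simp only [fl, List.flatMap_cons, List.flatMap_nil, List.append_nil, List.cons_append,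
          List.nil_append, List.nodup_cons, List.mem_cons, List.not_mem_nil, or_false, not_or,
          not_false_eq_true, List.nodup_nil, and_true]
        exact ⟨⟨n1, n2, hxy, out1 x hx f hf, out1 x hx g hg⟩,
          ⟨n3, (out1 y hy u hu).symm, c1, c2⟩, ⟨(out1 y hy w hw).symm, c3, c4⟩, ⟨m1, m2⟩, m3⟩)
    {E} (Finset.singleton_subset_iff.2 hE)
    (by
      intro z hz
      rw [mem_fl] at hz
      simp only [List.mem_cons, List.not_mem_nil, or_false, exists_eq_or_imp, exists_eq_left] at hz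
      rcases hz with (rfl | rfl | rfl) | (rfl | rfl | rfl)
      · exact Or.inr ⟨E, Finset.mem_singleton_self _, hx⟩
      · exact Or.inl hu
      · exact Or.inl hw
      · exact Or.inr ⟨E, Finset.mem_singleton_self _, hy⟩
      · exact Or.inl hf
      · exact Or.inl hg)
  simp at h1

theorem nodup_fl (M : Finset (Finset V)) : ∀ l : List (V × V × V), (l.map fun t => t.1).Nodup →
    ((l.map fun t => t.2).flatMap fun p => [p.1, p.2]).Nodup → (∀ t ∈ l, t.1 ∈ out M) →
    (∀ t ∈ l, t.2.1 ∉ out M ∧ t.2.2 ∉ out M) → (fl l).Nodup := by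
  intro l
  induction l with
  | nil => intro _ _ _ _; simp [fl]
  | cons t l ih =>
    intro h1 h2 h3 h4
    rw [fl_cons]
    simp only [List.map_cons, List.nodup_cons, List.flatMap_cons, List.cons_append,
      List.nil_append, List.mem_cons, not_or] at h1 h2
    have hl := ih h1.2 h2.2.2 (fun t' ht' => h3 t' (List.mem_cons_of_mem _ ht'))
      (fun t' ht' => h4 t' (List.mem_cons_of_mem _ ht'))
    obtain ⟨g1, g2⟩ := h4 t List.mem_cons_self
    have g0 := h3 t List.mem_cons_self
    have k1 : t.1 ∉ fl l := by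
      intro h5
      obtain ⟨t', ht', h6⟩ := mem_fl.1 h5
      rcases h6 with h6 | h6 | h6
      · exact h1.1 (List.mem_map.2 ⟨t', ht', h6.symm⟩)
      · exact (h4 t' (List.mem_cons_of_mem _ ht')).1 (h6 ▸ g0)
      · exact (h4 t' (List.mem_cons_of_mem _ ht')).2 (h6 ▸ g0)
    have k2 : ∀ z, z ∉ out M → z ∉ ((l.map fun t => t.2).flatMap fun p => [p.1, p.2]) →
        z ∉ fl l := by
      intro z hz hz' h5
      obtain ⟨t', ht', h6⟩ := mem_fl.1 h5
      rcases h6 with h6 | h6 | h6
      · exact hz (h6 ▸ h3 t' (List.mem_cons_of_mem _ ht'))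
      · apply hz'
        rw [List.mem_flatMap]
        exact ⟨t'.2, List.mem_map.2 ⟨t', ht', rfl⟩, by rw [h6]; simp⟩
      · apply hz'
        rw [List.mem_flatMap]
        exact ⟨t'.2, List.mem_map.2 ⟨t', ht', rfl⟩, by rw [h6]; simp⟩
    simp only [List.nodup_cons, List.mem_cons, not_or]
    refine ⟨⟨fun h5 => g1 (h5 ▸ g0), fun h5 => g2 (h5 ▸ g0), k1⟩, ⟨h2.1.1, k2 _ g1 h2.1.2⟩,
      k2 _ g2 h2.2.1, hl⟩

theorem rainbow (H M : Finset (Finset V)) : ∀ pl : List (V × V), pl.length ≤ 4 →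
    (∀ p ∈ pl, pop H M p.1 p.2) → ∃ l : List (V × V × V), (l.map fun t => t.2) = pl ∧
      (l.map fun t => t.1).Nodup ∧ ∀ t ∈ l, t.1 ∈ out M ∧ ({t.1, t.2.1, t.2.2} : Finset V) ∈ H := by
  intro pl
  induction pl with
  | nil => intro _ _; exact ⟨[], by simp⟩
  | cons p pl ih =>
    intro hlen hp
    rw [List.length_cons] at hlen
    obtain ⟨l, h1, h2, h3⟩ := ih (by omega) fun q hq => hp q (List.mem_cons_of_mem _ hq)
    have h4 := hp p List.mem_cons_self
    unfold pop at h4
    have h5 : (l.map fun t => t.1).toFinset.card < 4 := by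
      have h6 := List.toFinset_card_le (l.map fun t => t.1)
      have h7 : l.length = pl.length := by rw [← h1, List.length_map]
      rw [List.length_map] at h6
      omega
    obtain ⟨v, hv, hv'⟩ := Finset.exists_mem_notMem_of_card_lt_card (h5.trans_le h4)
    rw [Finset.mem_filter] at hv
    refine ⟨(v, p.1, p.2) :: l, by simp [h1], ?_, ?_⟩
    · rw [List.map_cons, List.nodup_cons]
      exact ⟨fun h6 => hv' (List.mem_toFinset.2 h6), h2⟩
    · intro t ht
      rcases List.mem_cons.1 ht with rfl | ht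
      · exact hv
      · exact h3 t ht

/-- Disjoint popular pairs. -/
theorem popL {H M : Finset (Finset V)} (h : MaxM H M) (pl : List (V × V)) (hlen : pl.length ≤ 4)
    (hp : ∀ p ∈ pl, pop H M p.1 p.2) (nd : (pl.flatMap fun p => [p.1, p.2]).Nodup)
    (E : Finset (Finset V)) (hE : E ⊆ M)
    (cov : ∀ x ∈ (pl.flatMap fun p => [p.1, p.2]), ∃ e ∈ E, x ∈ e) : pl.length ≤ E.card := by
  obtain ⟨l, h1, h2, h3⟩ := rainbow H M pl hlen hp
  have hmem : ∀ t ∈ l, t.2 ∈ pl := fun t ht => by
    rw [← h1]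
    exact List.mem_map.2 ⟨t, ht, rfl⟩
  have c1 : ∀ t ∈ l, (∃ e ∈ E, t.2.1 ∈ e) ∧ ∃ e ∈ E, t.2.2 ∈ e := fun t ht =>
    ⟨cov _ (List.mem_flatMap.2 ⟨t.2, hmem t ht, by simp⟩),
      cov _ (List.mem_flatMap.2 ⟨t.2, hmem t ht, by simp⟩)⟩
  have c2 : ∀ x, (∃ e ∈ E, x ∈ e) → x ∉ out M := by
    rintro x ⟨e, he, hx⟩ h4
    exact mem_out.1 h4 e (hE he) hx
  have h5 := aug h l (fun t ht => (h3 t ht).2) (nodup_fl M l h2 (by rw [h1]; exact nd)
    (fun t ht => (h3 t ht).1) (fun t ht => ⟨c2 _ (c1 t ht).1, c2 _ (c1 t ht).2⟩)) E hE (by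
      intro x hx
      obtain ⟨t, ht, h6⟩ := mem_fl.1 hx
      rcases h6 with rfl | rfl | rfl
      · exact Or.inl (h3 t ht).1
      · exact Or.inr (c1 t ht).1
      · exact Or.inr (c1 t ht).2)
  rw [← h1, List.length_map]
  exact h5

end Pool.MP_62c2ba
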