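import Mathlib

/-! # Link graphs of 3-graphs: definitions -/

set_option autoImplicit false

namespace Pool.MP_62c2ba

variable {V : Type} [DecidableEq V]

/-- The link graph of the vertex `v` of `H`, a simple graph on the vertices other than `v`: `a` and
`b` are adjacent if `{v, a, b}` is an edge of `H`. -/
def link (H : Finset (Finset V)) (v : V) : SimpleGraph {u : V // u ≠ v} where
  Adj a b := a ≠ b ∧ ({v, a.1, b.1} : Finset V) ∈ H
  symm := ⟨fun a b h => ⟨h.1.symm, by
    have h2 := h.2
    rw [Finset.pair_comm] at h2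
    exact h2⟩⟩
  loopless := ⟨fun _ h => h.1 rfl⟩

instance (H : Finset (Finset V)) (v : V) : DecidableRel (link H v).Adj := fun a b =>
  inferInstanceAs (Decidable (a ≠ b ∧ ({v, a.1, b.1} : Finset V) ∈ H))

/-- The number `f(n, s)`. -/
noncomputable def thr (n s : ℕ) : ℝ :=
  ((s : ℝ) - 1 + Real.sqrt (((s : ℝ) - 1) ^ 2 + 4 * s * ((n : ℝ) - s - 1))) / 2

/-- `1` if `{a, b, c}` is an edge of `H`, otherwise `0`. -/
def tr (H : Finset (Finset V)) (a b c : V) : ℕ := if ({a, b, c} : Finset V) ∈ H then 1 else 0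

end Pool.MP_62c2ba
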