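import Pool.Agent.H.MP_62c2ba_co.TutB

/-! # A consequence of Tutte's theorem, with the number of the vertices that are not isolated -/

set_option autoImplicit false

open Finset

namespace Pool.MP_62c2ba

/-- The elements in classes with at least two elements. -/
theorem cls_big {X C : Type} [Fintype X] [Fintype C] [DecidableEq X] [DecidableEq C] (π : X → C)
    {h : ℕ} (hh : ∑ c, (univ.filter (fun x => π x = c)).card / 2 ≤ h) :
    (univ.filter (fun x => 2 ≤ (univ.filter (fun y => π y = π x)).card)).card ≤ 3 * h := by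
  have h1 : (univ.filter (fun x => 2 ≤ (univ.filter (fun y => π y = π x)).card)).card =
      ∑ c, ((univ.filter (fun x => 2 ≤ (univ.filter (fun y => π y = π x)).card)).filter
        (fun x => π x = c)).card :=
    Finset.card_eq_sum_card_fiberwise (fun x _ => Finset.mem_univ _)
  rw [h1]
  refine le_trans (Finset.sum_le_sum (g := fun c =>
    3 * ((univ.filter (fun x => π x = c)).card / 2)) fun c _ => ?_) ?_
  · by_cases h2 : 2 ≤ (univ.filter (fun x => π x = c)).card
    · have h3 : ((univ.filter (fun x => 2 ≤ (univ.filter (fun y => π y = π x)).card)).filter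
          (fun x => π x = c)).card ≤ (univ.filter (fun x => π x = c)).card :=
        Finset.card_le_card (Finset.filter_subset_filter _ (Finset.subset_univ _))
      omega
    · have h3 : ((univ.filter (fun x => 2 ≤ (univ.filter (fun y => π y = π x)).card)).filter
          (fun x => π x = c)) = ∅ := by
        rw [Finset.filter_eq_empty_iff]
        intro x hx hxc
        rw [Finset.mem_filter, hxc] at hx
        exact h2 hx.2
      rw [h3]
      simp
  · rw [← Finset.mul_sum]
    exact Nat.mul_le_mul_left 3 hh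

theorem bergeP {V : Type} [Fintype V] [DecidableEq V] (G : SimpleGraph V) [DecidableRel G.Adj]
    (k : ℕ) (hw2 : 2 * k + 1 < Fintype.card V)
    (hk : ∀ N f, Mt G N f → N.card ≤ k) : ∃ Z : Finset V, Z.card ≤ k ∧
      ∑ x ∈ Zᶜ, ∑ y ∈ Zᶜ, (if G.Adj x y then 1 else 0) ≤
        2 * (k - Z.card) * (2 * (k - Z.card) + 1) ∧
      (Zᶜ.filter (fun x => ∃ y ∈ Zᶜ, G.Adj x y)).card ≤ 3 * (k - Z.card) := by
  classical
  obtain ⟨w, hw⟩ : ∃ w, w = Fintype.card V := ⟨_, rfl⟩
  rw [← hw] at hw2
  obtain ⟨d, hd⟩ : ∃ d, d + 2 * (k + 1) = w := ⟨w - 2 * (k + 1), by omega⟩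
  have hcW : Fintype.card (V ⊕ Fin d) = w + d := by
    rw [Fintype.card_sum, Fintype.card_fin, hw]
  have heven : Even (Nat.card (V ⊕ Fin d)) := by
    rw [Nat.card_eq_fintype_card, hcW]
    exact ⟨d + (k + 1), by omega⟩
  have hno : ∀ M : (joinG G d).Subgraph, ¬ M.IsPerfectMatching := by
    intro M hM
    obtain ⟨N, f, hN, hc⟩ := mt_of_perfect G (d := d) (k := k + 1) (by omega) M hM
    have := hk N f hN
    omega
  obtain ⟨u, hu⟩ := SimpleGraph.exists_isTutteViolator hno heven
  unfold SimpleGraph.IsTutteViolator at hu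
  obtain ⟨D, hD⟩ : ∃ D, D = (⊤ : (joinG G d).Subgraph).deleteVerts u := ⟨_, rfl⟩
  rw [← hD] at hu
  have hDv : ∀ a, a ∈ D.verts ↔ a ∉ u := by
    intro a
    rw [hD, SimpleGraph.Subgraph.deleteVerts_verts]
    simp
  have hDb : ∀ a b : V ⊕ Fin d, a ∉ u → b ∉ u → (D.Adj a b ↔ (joinG G d).Adj a b) := by
    intro a b ha hb
    rw [hD, SimpleGraph.Subgraph.deleteVerts_adj]
    simp [ha, hb]
  have hDa : ∀ a b : D.verts, D.coe.Adj a b ↔ (joinG G d).Adj a.1 b.1 := by
    intro a b
    rw [SimpleGraph.Subgraph.coe_adj]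
    exact hDb _ _ ((hDv _).1 a.2) ((hDv _).1 b.2)
  obtain ⟨π, hπ⟩ : ∃ π : D.verts → D.coe.ConnectedComponent,
      π = D.coe.connectedComponentMk := ⟨_, rfl⟩
  have hπa : ∀ a b : D.verts, (joinG G d).Adj a.1 b.1 → π a = π b := by
    intro a b hab
    rw [hπ]
    exact SimpleGraph.ConnectedComponent.connectedComponentMk_eq_of_adj ((hDa a b).2 hab)
  have : Fintype D.verts := Fintype.ofFinite _
  have : Fintype D.coe.ConnectedComponent := Fintype.ofFinite _
  have hodd : D.coe.oddComponents.ncard =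
      (univ.filter (fun c => Odd (univ.filter (fun x => π x = c)).card)).card := by
    rw [← Set.ncard_coe_finset]
    congr 1
    ext c
    rw [Finset.coe_filter, Set.mem_ofPred_eq, Set.mem_ofPred_eq]
    have h1 : c.supp = ↑(univ.filter (fun x => π x = c)) := by
      ext x
      rw [Finset.coe_filter, Set.mem_ofPred_eq, hπ]
      simp
    rw [h1, Set.ncard_coe_finset]
    simp
  have hcX : Fintype.card D.verts + u.ncard = w + d := by
    have h1 : Fintype.card D.verts = D.verts.ncard := by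
      rw [← Nat.card_coe_set_eq, Nat.card_eq_fintype_card]
    have h2 : D.verts = uᶜ := by
      ext a
      rw [hDv]
      rfl
    rw [h1, h2, add_comm, Set.ncard_add_ncard_compl, Nat.card_eq_fintype_card, hcW]
  have hcc := cls_card π
  rw [hodd] at hu
  obtain ⟨o, ho⟩ : ∃ o, o = (univ.filter
    (fun c => Odd (univ.filter (fun x => π x = c)).card)).card := ⟨_, rfl⟩
  obtain ⟨h, hh⟩ : ∃ h, h = ∑ c, (univ.filter (fun x => π x = c)).card / 2 := ⟨_, rfl⟩
  rw [← ho] at hu
  rw [← ho, ← hh] at hcc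
  have hall : ∀ j : Fin d, (Sum.inr j : V ⊕ Fin d) ∈ u := by
    intro j
    by_contra hj
    have h1 : ∀ a : D.verts, π a = π ⟨Sum.inr j, (hDv _).2 hj⟩ := by
      intro a
      by_cases h2 : a.1 = Sum.inr j
      · congr 1
        exact Subtype.ext h2
      · refine hπa _ _ ⟨h2, fun x y _ hy => ?_⟩
        exact absurd hy (by simp)
    have h2 : ∀ c : D.coe.ConnectedComponent, c = π ⟨Sum.inr j, (hDv _).2 hj⟩ := by
      intro c
      induction c using SimpleGraph.ConnectedComponent.ind with
      | _ v =>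
        have h3 := h1 v
        rw [hπ] at h3 ⊢
        exact h3
    have h3 : o ≤ 1 := by
      rw [ho]
      refine Finset.card_le_one.2 fun a _ b _ => ?_
      rw [h2 a, h2 b]
    have h4 : o = 1 := by omega
    omega
  obtain ⟨Z, hZ⟩ : ∃ Z : Finset V, Z = univ.filter (fun x => (Sum.inl x : V ⊕ Fin d) ∈ u) :=
    ⟨_, rfl⟩
  have mZ : ∀ x, x ∈ Z ↔ (Sum.inl x : V ⊕ Fin d) ∈ u := by
    intro x
    rw [hZ]
    simp
  have hu2 : Z.card + d ≤ u.ncard := by
    have h1 : (↑(Z.image (Sum.inl : V → V ⊕ Fin d) ∪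
        univ.image (Sum.inr : Fin d → V ⊕ Fin d)) : Set (V ⊕ Fin d)) ⊆ u := by
      intro a ha
      rw [Finset.mem_coe, Finset.mem_union, Finset.mem_image, Finset.mem_image] at ha
      rcases ha with ⟨x, hx, rfl⟩ | ⟨j, -, rfl⟩
      · exact (mZ x).1 hx
      · exact hall j
    have h2 := Set.ncard_le_ncard h1
    rw [Set.ncard_coe_finset, Finset.card_union_of_disjoint, Finset.card_image_of_injective _
      Sum.inl_injective, Finset.card_image_of_injective _ Sum.inr_injective,
      Finset.card_univ, Fintype.card_fin] at h2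
    · exact h2
    · rw [Finset.disjoint_left]
      intro a h3 h4
      obtain ⟨x, -, rfl⟩ := Finset.mem_image.1 h3
      obtain ⟨j, -, h5⟩ := Finset.mem_image.1 h4
      exact absurd h5 (by simp)
  have hzk : Z.card ≤ k := by omega
  have hhk : h ≤ k - Z.card := by omega
  have hcount := cls_count π (h := k - Z.card) (by rw [← hh]; exact hhk)
  have e1 : ∀ F : V → ℕ, ∑ x ∈ Zᶜ, F x = ∑ x : {x : V // (Sum.inl x : V ⊕ Fin d) ∉ u}, F x.1 := by
    intro F
    exact Finset.sum_subtype _ (fun x => by rw [Finset.mem_compl, mZ]) F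
  obtain ⟨i, hi⟩ : ∃ i : {x : V // (Sum.inl x : V ⊕ Fin d) ∉ u} → D.verts,
      i = fun x => ⟨Sum.inl x.1, (hDv _).2 x.2⟩ := ⟨_, rfl⟩
  have iinj : Function.Injective i := by
    intro x y hxy
    rw [hi] at hxy
    have h1 := congrArg Subtype.val hxy
    exact Subtype.ext (Sum.inl.inj h1)
  have hadjπ : ∀ x y : {x : V // (Sum.inl x : V ⊕ Fin d) ∉ u}, G.Adj x.1 y.1 →
      i y ≠ i x ∧ π (i y) = π (i x) := by
    intro x y h1
    have h3 : (joinG G d).Adj (i x).1 (i y).1 := by
      rw [hi]
      refine ⟨fun h4 => h1.ne (Sum.inl.inj h4), fun a b ha hb => ?_⟩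
      rw [← Sum.inl.inj ha, ← Sum.inl.inj hb]
      exact h1
    refine ⟨fun h4 => ?_, (hπa _ _ h3).symm⟩
    rw [h4] at h3
    exact h3.ne rfl
  refine ⟨Z, hzk, ?_, ?_⟩
  · rw [e1]
    refine le_trans ?_ hcount
    calc ∑ x : {x : V // (Sum.inl x : V ⊕ Fin d) ∉ u}, ∑ y ∈ Zᶜ, (if G.Adj x.1 y then 1 else 0)
        ≤ ∑ x : {x : V // (Sum.inl x : V ⊕ Fin d) ∉ u},
          (univ.filter (fun y => y ≠ i x ∧ π y = π (i x))).card := by
          refine Finset.sum_le_sum fun x _ => ?_
          rw [e1, Finset.card_filter]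
          refine le_trans ?_ (sum_inj i iinj _)
          refine Finset.sum_le_sum fun y _ => ?_
          split_ifs with h1 h2 h2
          · exact le_rfl
          · exfalso
            apply h2
            have h3 : (joinG G d).Adj (i x).1 (i y).1 := by
              rw [hi]
              refine ⟨fun h4 => h1.ne (Sum.inl.inj h4), fun a b ha hb => ?_⟩
              rw [← Sum.inl.inj ha, ← Sum.inl.inj hb]
              exact h1
            refine ⟨fun h4 => ?_, (hπa _ _ h3).symm⟩
            rw [h4] at h3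
            exact h3.ne rfl
          · exact Nat.zero_le _
          · exact le_rfl
      _ ≤ ∑ x, (univ.filter (fun y => y ≠ x ∧ π y = π x)).card :=
          sum_inj i iinj (fun x => (univ.filter (fun y => y ≠ x ∧ π y = π x)).card)
  · have hbig := cls_big π (h := k - Z.card) (by rw [← hh]; exact hhk)
    refine le_trans ?_ hbig
    have h5 : ∀ x ∈ Zᶜ.filter (fun x => ∃ y ∈ Zᶜ, G.Adj x y), (Sum.inl x : V ⊕ Fin d) ∉ u := by
      intro x hx
      rw [Finset.mem_filter, Finset.mem_compl, mZ] at hx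
      exact hx.1
    rw [← Finset.card_attach]
    refine Finset.card_le_card_of_injOn (fun x => i ⟨x.1, h5 x.1 x.2⟩) ?_ ?_
    · intro x _
      obtain ⟨hx1, y, hy, hxy⟩ := Finset.mem_filter.1 x.2
      have h7 : (Sum.inl y : V ⊕ Fin d) ∉ u := by
        rw [Finset.mem_compl, mZ] at hy
        exact hy
      rw [Finset.mem_coe, Finset.mem_filter]
      refine ⟨Finset.mem_univ _, ?_⟩
      obtain ⟨h8, h9⟩ := hadjπ ⟨x.1, h5 x.1 x.2⟩ ⟨y, h7⟩ hxy
      have h10 : ({i ⟨x.1, h5 x.1 x.2⟩, i ⟨y, h7⟩} : Finset D.verts) ⊆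
          univ.filter (fun z => π z = π (i ⟨x.1, h5 x.1 x.2⟩)) := by
        intro z hz
        rw [Finset.mem_insert, Finset.mem_singleton] at hz
        rw [Finset.mem_filter]
        rcases hz with rfl | rfl
        · exact ⟨Finset.mem_univ _, rfl⟩
        · exact ⟨Finset.mem_univ _, h9⟩
      have h11 := Finset.card_le_card h10
      rw [Finset.card_pair h8.symm] at h11
      exact h11
    · intro x _ y _ hxy
      have h12 := congrArg Subtype.val (iinj hxy)
      exact Subtype.ext h12

end Pool.MP_62c2ba
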