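import Pool.Agent.H.MP_62c2ba_co.TutA

/-! # Disjoint pairs in many edges extend to disjoint edges -/

set_option autoImplicit false

open Finset

namespace Pool.MP_62c2ba

/-- A pair in more edges than there are forbidden vertices extends to an edge which avoids them. -/
theorem ext_pair {V : Type} [DecidableEq V] (H : Finset (Finset V)) (h3 : ∀ e ∈ H, e.card = 3)
    {a b : V} (hab : a ≠ b) (B : Finset V)
    (hc : B.card < (H.filter (fun f => a ∈ f ∧ b ∈ f)).card) :
    ∃ c, c ∉ B ∧ c ≠ a ∧ c ≠ b ∧ ({a, b, c} : Finset V) ∈ H := by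
  by_contra hno
  push Not at hno
  have h1 : H.filter (fun f => a ∈ f ∧ b ∈ f) ⊆ B.image (fun c => ({a, b, c} : Finset V)) := by
    intro f hf
    obtain ⟨hfH, ha, hb⟩ := Finset.mem_filter.1 hf
    have h2 : (f \ {a, b}).card = 1 := by
      have h4 : ({a, b} : Finset V) ⊆ f := by
        intro x hx
        rw [Finset.mem_insert, Finset.mem_singleton] at hx
        rcases hx with rfl | rfl
        · exact ha
        · exact hb
      rw [Finset.card_sdiff_of_subset h4, h3 f hfH, Finset.card_pair hab]
    obtain ⟨c, hc1⟩ := Finset.card_eq_one.1 h2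
    have hcf : c ∈ f \ {a, b} := by
      rw [hc1]
      exact Finset.mem_singleton_self c
    rw [Finset.mem_sdiff, Finset.mem_insert, Finset.mem_singleton, not_or] at hcf
    have hfe : f = {a, b, c} := by
      ext x
      constructor
      · intro hx
        by_cases h4 : x = a ∨ x = b
        · rcases h4 with rfl | rfl <;> simp
        · have h5 : x ∈ f \ {a, b} := by
            rw [Finset.mem_sdiff, Finset.mem_insert, Finset.mem_singleton]
            exact ⟨hx, h4⟩
          rw [hc1, Finset.mem_singleton] at h5
          rw [h5]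
          simp
      · intro hx
        rw [Finset.mem_insert, Finset.mem_insert, Finset.mem_singleton] at hx
        rcases hx with rfl | rfl | rfl
        · exact ha
        · exact hb
        · exact hcf.1
    rw [Finset.mem_image]
    refine ⟨c, ?_, hfe.symm⟩
    by_contra hcB
    exact hno c hcB hcf.2.1 hcf.2.2 (hfe ▸ hfH)
  have h2 := (Finset.card_le_card h1).trans Finset.card_image_le
  omega

theorem greedy {V : Type} [DecidableEq V] (H : Finset (Finset V)) (h3 : ∀ e ∈ H, e.card = 3)
    (s : ℕ) (G : SimpleGraph V)
    (hG : ∀ a b, G.Adj a b → 3 * s + 1 ≤ (H.filter (fun f => a ∈ f ∧ b ∈ f)).card)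
    (N : Finset V) (f : V → V) (hM : Mt G N f) (hN : N.card = s + 1) :
    ∃ M ⊆ H, M.card = s + 1 ∧ ∀ e ∈ M, ∀ e' ∈ M, e ≠ e' → Disjoint e e' := by
  have key : ∀ S : Finset V, S ⊆ N → ∃ g : V → V, (∀ x ∈ S, g x ∉ N ∧ g x ∉ N.image f ∧
      ({x, f x, g x} : Finset V) ∈ H) ∧ Set.InjOn g S := by
    intro S
    induction S using Finset.induction_on with
    | empty =>
      intro _
      exact ⟨id, by simp, by simp⟩
    | insert x S hx ih =>
      intro hS
      obtain ⟨g, hg, hgi⟩ := ih ((Finset.subset_insert x S).trans hS)
      have hxN : x ∈ N := hS (Finset.mem_insert_self x S)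
      have hSc : S.card ≤ s := by
        have h1 := Finset.card_le_card hS
        rw [Finset.card_insert_of_notMem hx] at h1
        omega
      obtain ⟨B, hB⟩ : ∃ B, B = (N.erase x ∪ (N.image f).erase (f x)) ∪ S.image g := ⟨_, rfl⟩
      have hBc : B.card ≤ 3 * s := by
        have h1 : (N.erase x).card = s := by
          rw [Finset.card_erase_of_mem hxN, hN]
          rfl
        have h2 : ((N.image f).erase (f x)).card ≤ s := by
          rw [Finset.card_erase_of_mem (Finset.mem_image_of_mem f hxN)]
          have h4 : (N.image f).card ≤ N.card := Finset.card_image_le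
          omega
        have h4 : (S.image g).card ≤ S.card := Finset.card_image_le
        have h5 := Finset.card_union_le (N.erase x ∪ (N.image f).erase (f x)) (S.image g)
        have h6 := Finset.card_union_le (N.erase x) ((N.image f).erase (f x))
        rw [hB]
        omega
      obtain ⟨c, hcB, hca, hcb, hcH⟩ := ext_pair H h3 (hM.adj x hxN).ne B
        (lt_of_lt_of_le (by omega) (hG _ _ (hM.adj x hxN)))
      rw [hB, Finset.mem_union, Finset.mem_union, not_or, not_or] at hcB
      obtain ⟨⟨hc1, hc2⟩, hc3⟩ := hcB
      have hcN : c ∉ N := fun h => hc1 (Finset.mem_erase.2 ⟨hca, h⟩)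
      have hcF : c ∉ N.image f := fun h => hc2 (Finset.mem_erase.2 ⟨hcb, h⟩)
      refine ⟨Function.update g x c, ?_, ?_⟩
      · intro y hy
        by_cases hyx : y = x
        · rw [hyx, Function.update_self]
          exact ⟨hcN, hcF, hcH⟩
        · rw [Function.update_of_ne hyx]
          exact hg y (Finset.mem_of_mem_insert_of_ne hy hyx)
      · intro y hy z hz hyz
        rw [Finset.mem_coe] at hy hz
        by_cases hyx : y = x
        · by_cases hzx : z = x
          · rw [hyx, hzx]
          · exfalso
            rw [hyx, Function.update_self, Function.update_of_ne hzx] at hyz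
            exact hc3 (hyz ▸ Finset.mem_image_of_mem g (Finset.mem_of_mem_insert_of_ne hz hzx))
        · by_cases hzx : z = x
          · exfalso
            rw [hzx, Function.update_self, Function.update_of_ne hyx] at hyz
            exact hc3 (hyz ▸ Finset.mem_image_of_mem g (Finset.mem_of_mem_insert_of_ne hy hyx))
          · rw [Function.update_of_ne hyx, Function.update_of_ne hzx] at hyz
            exact hgi (Finset.mem_of_mem_insert_of_ne hy hyx)
              (Finset.mem_of_mem_insert_of_ne hz hzx) hyz
  obtain ⟨g, hg, hgi⟩ := key N (Finset.Subset.refl N)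
  have hdis : ∀ x ∈ N, ∀ y ∈ N, x ≠ y →
      Disjoint ({x, f x, g x} : Finset V) ({y, f y, g y} : Finset V) := by
    intro x hx y hy hxy
    obtain ⟨x1, x2, -⟩ := hg x hx
    obtain ⟨y1, y2, -⟩ := hg y hy
    have e1 : x ≠ f y := fun h => hM.dj y hy (h ▸ hx)
    have e2 : x ≠ g y := fun h => y1 (h ▸ hx)
    have e3 : f x ≠ y := fun h => hM.dj x hx (h ▸ hy)
    have e4 : f x ≠ f y := fun h => hxy (hM.inj hx hy h)
    have e5 : f x ≠ g y := fun h => y2 (h ▸ Finset.mem_image_of_mem f hx)
    have e6 : g x ≠ y := fun h => x1 (h ▸ hy)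
    have e7 : g x ≠ f y := fun h => x2 (h ▸ Finset.mem_image_of_mem f hy)
    have e8 : g x ≠ g y := fun h => hxy (hgi hx hy h)
    rw [Finset.disjoint_left]
    intro z hz hz'
    simp only [Finset.mem_insert, Finset.mem_singleton] at hz hz'
    rcases hz with rfl | rfl | rfl
    · rcases hz' with h | h | h
      · exact hxy h
      · exact e1 h
      · exact e2 h
    · rcases hz' with h | h | h
      · exact e3 h
      · exact e4 h
      · exact e5 h
    · rcases hz' with h | h | h
      · exact e6 h
      · exact e7 h
      · exact e8 h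
  refine ⟨N.image (fun x => ({x, f x, g x} : Finset V)), ?_, ?_, ?_⟩
  · intro e he
    obtain ⟨x, hx, rfl⟩ := Finset.mem_image.1 he
    exact (hg x hx).2.2
  · rw [Finset.card_image_of_injOn, hN]
    intro x hx y hy hxy
    by_contra hne
    have h1 := hdis x hx y hy hne
    have h2 : ({x, f x, g x} : Finset V) = {y, f y, g y} := hxy
    rw [← h2] at h1
    exact (Finset.disjoint_left.1 h1 (Finset.mem_insert_self x _)) (Finset.mem_insert_self x _)
  · intro e he e' he' hne
    obtain ⟨x, hx, rfl⟩ := Finset.mem_image.1 he
    obtain ⟨y, hy, rfl⟩ := Finset.mem_image.1 he'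
    refine hdis x hx y hy fun h => ?_
    subst h
    exact hne rfl

end Pool.MP_62c2ba
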