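import Pool.Agent.H.MP_62c2ba_co.Defs

/-! # An upper bound for the eigenvalues of a link graph -/

set_option autoImplicit false

open Finset

namespace Pool.MP_62c2ba

/-- The inequality for a nonnegative vector `x`. -/
theorem spec_core {V : Type} [Fintype V] [DecidableEq V] (v : V) (A : Finset V) (hv : v ∉ A)
    (a : V → V → ℝ) (a0 : ∀ i j, 0 ≤ a i j) (a1 : ∀ i j, a i j ≤ 1) (ad : ∀ i, a i i = 0)
    (x : V → ℝ) (x0 : ∀ i, 0 ≤ x i) (xv : x v = 0) (xp : 0 < ∑ i, x i)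
    (μ : ℝ) (h0 : 0 ≤ μ) (hx : ∀ i, i ≠ v → μ * x i ≤ ∑ j, a i j * x j) :
    μ * (μ + 1 - A.card) ≤ A.card * ((Fintype.card V : ℝ) - 1 - A.card) +
      ∑ w ∈ Aᶜ.erase v, ∑ w' ∈ Aᶜ.erase v, a w w' := by
  obtain ⟨W, hW⟩ : ∃ W, W = Aᶜ.erase v := ⟨_, rfl⟩
  obtain ⟨S, hS⟩ : ∃ S, S = ∑ i ∈ A, x i := ⟨_, rfl⟩
  obtain ⟨T, hT⟩ : ∃ T, T = ∑ i ∈ W, x i := ⟨_, rfl⟩
  obtain ⟨d, hd⟩ : ∃ d : V → ℝ, d = fun j => ∑ i ∈ W, a i j := ⟨_, rfl⟩
  obtain ⟨D, hD⟩ : ∃ D, D = ∑ i ∈ W, d i * x i := ⟨_, rfl⟩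
  obtain ⟨E, hE⟩ : ∃ E, E = ∑ w ∈ W, ∑ w' ∈ W, a w w' := ⟨_, rfl⟩
  rw [← hW, ← hE]
  have hdE : ∑ i ∈ W, d i = E := by
    rw [hE, hd, Finset.sum_comm]
  have d0 : ∀ i, 0 ≤ d i := by
    intro i
    rw [hd]
    exact Finset.sum_nonneg fun j _ => a0 j i
  have hsplit : ∀ g : V → ℝ, g v = 0 → ∑ i, g i = ∑ i ∈ A, g i + ∑ i ∈ W, g i := by
    intro g hg
    rw [← Finset.sum_add_sum_compl A g]
    congr 1
    rw [hW]
    exact (Finset.sum_erase _ hg).symm
  have hZ : ∑ i, x i = S + T := by rw [hS, hT, hsplit x xv]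
  have hN : (W.card : ℝ) = (Fintype.card V : ℝ) - 1 - A.card := by
    have hvc : v ∈ Aᶜ := Finset.mem_compl.2 hv
    have h1 : W.card + 1 = Fintype.card V - A.card := by
      rw [hW, Finset.card_erase_add_one hvc, Finset.card_compl]
    have h2 : A.card ≤ Fintype.card V := Finset.card_le_univ A
    have h3 : W.card + 1 + A.card = Fintype.card V := by omega
    have h4 : (W.card : ℝ) + 1 + A.card = Fintype.card V := by exact_mod_cast h3
    linarith
  have S0 : 0 ≤ S := by rw [hS]; exact Finset.sum_nonneg fun i _ => x0 i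
  have T0 : 0 ≤ T := by rw [hT]; exact Finset.sum_nonneg fun i _ => x0 i
  -- (1)
  have h1 : μ * S ≤ A.card * (S + T) - S := by
    have h2 : ∀ i ∈ A, μ * x i ≤ (S + T) - x i := by
      intro i hi
      have hiv : i ≠ v := fun h => hv (h ▸ hi)
      refine (hx i hiv).trans ?_
      rw [← hZ, ← Finset.add_sum_erase Finset.univ _ (Finset.mem_univ i),
        ← Finset.add_sum_erase Finset.univ x (Finset.mem_univ i), ad, zero_mul, zero_add,
        add_sub_cancel_left]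
      refine Finset.sum_le_sum fun j _ => ?_
      exact mul_le_of_le_one_left (x0 j) (a1 i j)
    have h3 := Finset.sum_le_sum h2
    rw [← Finset.mul_sum, Finset.sum_sub_distrib, Finset.sum_const, nsmul_eq_mul, ← hS] at h3
    exact h3
  -- (2)
  have h2 : ∀ i ∈ W, μ * x i ≤ S + ∑ j ∈ W, a i j * x j := by
    intro i hi
    have hiv : i ≠ v := by
      rw [hW] at hi
      exact Finset.ne_of_mem_erase hi
    refine (hx i hiv).trans ?_
    rw [hsplit (fun j => a i j * x j) (by simp only [xv, mul_zero]), hS]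
    gcongr with j hj
    exact mul_le_of_le_one_left (x0 j) (a1 i j)
  have h3 : μ * T ≤ W.card * S + D := by
    have h4 := Finset.sum_le_sum h2
    rw [← Finset.mul_sum, ← hT, Finset.sum_add_distrib, Finset.sum_const, nsmul_eq_mul,
      Finset.sum_comm] at h4
    refine h4.trans (le_of_eq ?_)
    congr 1
    rw [hD, hd]
    refine Finset.sum_congr rfl fun j _ => ?_
    rw [Finset.sum_mul]
  -- (3)
  have h4 : μ * D ≤ E * (S + T) - D := by
    have h5 : ∀ i ∈ W, d i * (μ * x i) ≤ d i * (S + ∑ j ∈ W, a i j * x j) := fun i hi =>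
      mul_le_mul_of_nonneg_left (h2 i hi) (d0 i)
    have h6 := Finset.sum_le_sum h5
    have h7 : ∑ i ∈ W, d i * (μ * x i) = μ * D := by
      rw [hD, Finset.mul_sum]
      exact Finset.sum_congr rfl fun i _ => by ring
    have h8 : ∑ i ∈ W, d i * (S + ∑ j ∈ W, a i j * x j) =
        E * S + ∑ j ∈ W, x j * ∑ i ∈ W, a i j * d i := by
      rw [← hdE, Finset.sum_mul]
      simp only [mul_add, Finset.sum_add_distrib, Finset.mul_sum]
      congr 1
      rw [Finset.sum_comm]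
      refine Finset.sum_congr rfl fun j _ => Finset.sum_congr rfl fun i _ => ?_
      ring
    have h9 : ∀ j ∈ W, x j * ∑ i ∈ W, a i j * d i ≤ x j * (E - d j) := by
      intro j hj
      refine mul_le_mul_of_nonneg_left ?_ (x0 j)
      rw [← hdE, ← Finset.add_sum_erase W _ hj, ← Finset.add_sum_erase W d hj, ad, zero_mul,
        zero_add, add_sub_cancel_left]
      exact Finset.sum_le_sum fun i _ => mul_le_of_le_one_left (d0 i) (a1 i j)
    have h10 := Finset.sum_le_sum h9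
    have h11 : ∑ j ∈ W, x j * (E - d j) = E * T - D := by
      rw [hT, hD, Finset.mul_sum, ← Finset.sum_sub_distrib]
      exact Finset.sum_congr rfl fun j _ => by ring
    rw [h7, h8] at h6
    rw [h11] at h10
    calc μ * D ≤ E * S + ∑ j ∈ W, x j * ∑ i ∈ W, a i j * d i := h6
      _ ≤ E * S + (E * T - D) := by gcongr
      _ = E * (S + T) - D := by ring
  rw [hZ] at xp
  rw [← hN]
  -- combination
  have h5 : μ * ((μ + 1) * T) ≤ (A.card * W.card + E) * (S + T) := by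
    have g1 : (μ + 1) * (μ * T) ≤ (μ + 1) * (W.card * S + D) :=
      mul_le_mul_of_nonneg_left h3 (by linarith)
    have g2 : (μ + 1) * S ≤ A.card * (S + T) := by linarith
    have g3 : (μ + 1) * D ≤ E * (S + T) := by linarith
    have g4 : (W.card : ℝ) * ((μ + 1) * S) ≤ W.card * (A.card * (S + T)) :=
      mul_le_mul_of_nonneg_left g2 (Nat.cast_nonneg _)
    nlinarith
  have h6 : (μ + 1 - A.card) * (S + T) ≤ (μ + 1) * T := by linarith
  have h7 : μ * ((μ + 1 - A.card) * (S + T)) ≤ (A.card * W.card + E) * (S + T) :=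
    (mul_le_mul_of_nonneg_left h6 h0).trans h5
  rw [← mul_assoc] at h7
  exact le_of_mul_le_mul_right h7 xp

/-- The eigenvalues of the link graph of `v`. -/
theorem spec {V : Type} [Fintype V] [DecidableEq V] (H : Finset (Finset V)) (v : V)
    (A : Finset V) (hv : v ∉ A) (μ : ℝ) (h0 : 0 ≤ μ)
    (hμ : μ ∈ spectrum ℝ ((link H v).adjMatrix ℝ)) :
    μ * (μ + 1 - A.card) ≤ A.card * ((Fintype.card V : ℝ) - 1 - A.card) +
      ((∑ w ∈ Aᶜ, ∑ w' ∈ Aᶜ, tr H v w w' : ℕ) : ℝ) := by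
  rw [spectrum.mem_iff, Matrix.isUnit_iff_isUnit_det, isUnit_iff_ne_zero, not_not,
    ← Matrix.exists_mulVec_eq_zero_iff] at hμ
  obtain ⟨z, hz0, hz⟩ := hμ
  obtain ⟨a, ha⟩ : ∃ a : V → V → ℝ, a = fun i j =>
      if i ≠ j ∧ ({v, i, j} : Finset V) ∈ H then 1 else 0 := ⟨_, rfl⟩
  have heq : ∀ i, μ * z i = ∑ j, (link H v).adjMatrix ℝ i j * z j := by
    intro i
    have h1 := congrFun hz i
    rw [Matrix.sub_mulVec, Pi.sub_apply, Pi.zero_apply, sub_eq_zero] at h1
    rw [Algebra.algebraMap_eq_smul_one, Matrix.smul_mulVec, Matrix.one_mulVec] at h1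
    exact h1
  have hcore := spec_core v A hv a (fun i j => by rw [ha]; positivity)
    (fun i j => by rw [ha]; dsimp only; split_ifs <;> norm_num)
    (fun i => by rw [ha]; simp)
    (fun u => if h : u ≠ v then |z ⟨u, h⟩| else 0) (fun i => by split_ifs <;> positivity)
    (by simp) ?_ μ h0 ?_
  · refine hcore.trans ?_
    gcongr
    push_cast
    have h1 : ∀ w w', a w w' ≤ (tr H v w w' : ℝ) := by
      intro w w'
      rw [ha]
      unfold tr
      dsimp only
      split_ifs with g1 g2 g2 <;> simp_all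
    have h2 : ∀ w w', 0 ≤ (tr H v w w' : ℝ) := fun w w' => Nat.cast_nonneg _
    calc ∑ w ∈ Aᶜ.erase v, ∑ w' ∈ Aᶜ.erase v, a w w'
        ≤ ∑ w ∈ Aᶜ.erase v, ∑ w' ∈ Aᶜ, (tr H v w w' : ℝ) := by
          refine Finset.sum_le_sum fun w _ => ?_
          refine (Finset.sum_le_sum fun w' _ => h1 w w').trans ?_
          exact Finset.sum_le_sum_of_subset_of_nonneg (Finset.erase_subset _ _)
            fun w' _ _ => h2 w w'
      _ ≤ ∑ w ∈ Aᶜ, ∑ w' ∈ Aᶜ, (tr H v w w' : ℝ) :=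
          Finset.sum_le_sum_of_subset_of_nonneg (Finset.erase_subset _ _)
            fun w _ _ => Finset.sum_nonneg fun w' _ => h2 w w'
  · obtain ⟨i, hi⟩ := Function.ne_iff.1 hz0
    refine Finset.sum_pos' (fun j _ => by split_ifs <;> positivity)
      ⟨i.1, Finset.mem_univ _, ?_⟩
    rw [dif_pos i.2]
    exact abs_pos.2 hi
  · intro i hi
    rw [dif_pos hi]
    have h1 : μ * |z ⟨i, hi⟩| = |μ * z ⟨i, hi⟩| := by rw [abs_mul, abs_of_nonneg h0]
    rw [h1, heq]
    refine (Finset.abs_sum_le_sum_abs _ _).trans ?_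
    have h2 : ∑ j, a i j * (if h : j ≠ v then |z ⟨j, h⟩| else 0) =
        ∑ j : {u : V // u ≠ v}, a i j.1 * |z j| := by
      rw [← Fintype.sum_subtype_add_sum_subtype (fun u => u ≠ v)]
      have h3 : ∑ j : {u : V // ¬ u ≠ v}, a i j.1 *
          (if h : j.1 ≠ v then |z ⟨j.1, h⟩| else 0) = 0 :=
        Finset.sum_eq_zero fun j _ => by rw [dif_neg j.2, mul_zero]
      rw [h3, add_zero]
      exact Finset.sum_congr rfl fun j _ => by rw [dif_pos j.2]
    rw [h2]
    refine le_of_eq (Finset.sum_congr rfl fun j _ => ?_)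
    rw [abs_mul]
    congr 1
    rw [SimpleGraph.adjMatrix_apply, ha]
    have h3 : (link H v).Adj ⟨i, hi⟩ j ↔ (i ≠ j.1 ∧ ({v, i, j.1} : Finset V) ∈ H) := by
      change ((⟨i, hi⟩ : {u : V // u ≠ v}) ≠ j ∧ ({v, i, j.1} : Finset V) ∈ H) ↔ _
      rw [Ne, Subtype.ext_iff]
    beta_reduce
    by_cases h4 : (i ≠ j.1 ∧ ({v, i, j.1} : Finset V) ∈ H)
    · rw [if_pos (h3.2 h4), if_pos h4, abs_one]
    · rw [if_neg (fun h5 => h4 (h3.1 h5)), if_neg h4, abs_zero]

end Pool.MP_62c2ba
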