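import Pool.Agent.H.MP_62c2ba_co.HPb
import Pool.Agent.H.MP_62c2ba_co.HPg
import Pool.Agent.H.MP_62c2ba_co.Spec

/-! # 3-graphs in which every edge contains a pair in many edges -/

set_option autoImplicit false

open Finset

namespace Pool.MP_62c2ba

/-- The graph of the pairs in at least `3 s + 1` edges. -/
def hvG {V : Type} [DecidableEq V] (H : Finset (Finset V)) (s : ℕ) : SimpleGraph V where
  Adj a b := a ≠ b ∧ 3 * s + 1 ≤ (H.filter (fun f => a ∈ f ∧ b ∈ f)).card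
  symm := ⟨fun a b h => ⟨h.1.symm, by
    have h2 := h.2
    simp only [and_comm (a := a ∈ _)] at h2
    exact h2⟩⟩
  loopless := ⟨fun _ h => h.1 rfl⟩

/-- The numerical part. -/
theorem hp_num {n s z μ : ℝ} (hs : 0 ≤ s) (hz : 0 ≤ z) (hzs : z ≤ s) (hn : 3 * s + 3 ≤ n)
    (hμ : (s - 1 + Real.sqrt ((s - 1) ^ 2 + 4 * s * (n - s - 1))) / 2 < μ)
    (h : μ * (μ + 1 - z) ≤ z * (n - 1 - z) + 2 * (s - z) * (2 * (s - z) + 1)) : False := by
  obtain ⟨R, hR⟩ : ∃ R, R = Real.sqrt ((s - 1) ^ 2 + 4 * s * (n - s - 1)) := ⟨_, rfl⟩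
  rw [← hR] at hμ
  have h0 : 0 ≤ s * (n - (3 * s + 3)) := mul_nonneg hs (by linarith)
  have hR2 : R ^ 2 = (s - 1) ^ 2 + 4 * s * (n - s - 1) := by
    rw [hR, Real.sq_sqrt]
    nlinarith
  have hR3 : 3 * s + 1 ≤ R := by
    rw [hR]
    apply Real.le_sqrt_of_sq_le
    nlinarith
  obtain ⟨L, hL⟩ : ∃ L, L = (s - 1 + R) / 2 := ⟨_, rfl⟩
  rw [← hL] at hμ
  have hL1 : 2 * s ≤ L := by rw [hL]; linarith
  have hL2 : L ^ 2 = (s - 1) * L + s * (n - s - 1) := by
    rw [hL]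
    nlinarith
  have g1 : 0 < (μ - L) * (μ + L + 1 - z) := mul_pos (by linarith) (by linarith)
  have g2 : 0 ≤ (s - z) * (L - 2 * s) := mul_nonneg (by linarith) (by linarith)
  have g3 : 0 ≤ (s - z) * (n - (3 * s + 3)) := mul_nonneg (by linarith) (by linarith)
  have g4 : 0 ≤ (s - z) * z := mul_nonneg (by linarith) hz
  nlinarith

/-- No eigenvalue of the link of `v` is large if the link is covered by `A` and few edges. -/
theorem hp_cut {V : Type} [Fintype V] [DecidableEq V] (s : ℕ)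
    (hn : 3 * s + 3 ≤ Fintype.card V) (H : Finset (Finset V)) (v : V) (A : Finset V) (hv : v ∉ A)
    (hA : A.card ≤ s) (hE : ∑ w ∈ Aᶜ, ∑ w' ∈ Aᶜ, tr H v w w' ≤
      2 * (s - A.card) * (2 * (s - A.card) + 1)) (μ : ℝ)
    (hμ : μ ∈ spectrum ℝ ((link H v).adjMatrix ℝ)) : ¬ thr (Fintype.card V) s < μ := by
  intro hlt
  have hthr : 0 ≤ thr (Fintype.card V) s := by
    unfold thr
    have h1 : (1 : ℝ) - s ≤
        Real.sqrt (((s : ℝ) - 1) ^ 2 + 4 * s * ((Fintype.card V : ℝ) - s - 1)) := by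
      apply Real.le_sqrt_of_sq_le
      have h2 : (3 * (s : ℝ) + 3) ≤ (Fintype.card V : ℝ) := by exact_mod_cast hn
      have h4 : (0 : ℝ) ≤ s := Nat.cast_nonneg s
      have h5 : 0 ≤ (s : ℝ) * ((Fintype.card V : ℝ) - s - 1) := mul_nonneg h4 (by linarith)
      nlinarith
    linarith
  have hsp := spec H v A hv μ (hthr.trans hlt.le) hμ
  have hE2 : ((∑ w ∈ Aᶜ, ∑ w' ∈ Aᶜ, tr H v w w' : ℕ) : ℝ) ≤
      2 * ((s : ℝ) - A.card) * (2 * ((s : ℝ) - A.card) + 1) := by
    have h2 : ((∑ w ∈ Aᶜ, ∑ w' ∈ Aᶜ, tr H v w w' : ℕ) : ℝ) ≤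
        ((2 * (s - A.card) * (2 * (s - A.card) + 1) : ℕ) : ℝ) := by exact_mod_cast hE
    refine h2.trans (le_of_eq ?_)
    push_cast [Nat.cast_sub hA]
    ring
  refine hp_num (n := (Fintype.card V : ℝ)) (s := s) (z := A.card) (μ := μ)
    (Nat.cast_nonneg _) (Nat.cast_nonneg _) (by exact_mod_cast hA) (by exact_mod_cast hn) hlt ?_
  linarith

/-- The vertices of an edge through `v`. -/
theorem hp_ne {V : Type} [DecidableEq V] {H : Finset (Finset V)} (h3 : ∀ e ∈ H, e.card = 3)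
    {v w w' : V} (h1 : ({v, w, w'} : Finset V) ∈ H) : v ≠ w ∧ v ≠ w' ∧ w ≠ w' := by
  have hc := h3 _ h1
  refine ⟨?_, ?_, ?_⟩
  · rintro rfl
    have h2 := Finset.card_le_two (a := v) (b := w')
    rw [Finset.insert_eq_of_mem (Finset.mem_insert_self v _)] at hc
    omega
  · rintro rfl
    have h2 := Finset.card_le_two (a := w) (b := v)
    rw [Finset.insert_eq_of_mem (by simp)] at hc
    omega
  · rintro rfl
    have h2 := Finset.card_le_two (a := v) (b := w)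
    rw [Finset.pair_eq_singleton] at hc
    omega

/-- A sum over fewer vertices. -/
theorem hp_sub {V : Type} [Fintype V] [DecidableEq V] (H : Finset (Finset V))
    (h3 : ∀ e ∈ H, e.card = 3) (v : V) (G : SimpleGraph V) [DecidableRel G.Adj] (Z : Finset V)
    (hG : ∀ w ∉ Z, ∀ w' ∉ Z, ({v, w, w'} : Finset V) ∈ H → G.Adj w w') :
    ∑ w ∈ (Z.erase v)ᶜ, ∑ w' ∈ (Z.erase v)ᶜ, tr H v w w' ≤
      ∑ x ∈ Zᶜ, ∑ y ∈ Zᶜ, (if G.Adj x y then 1 else 0) := by
  have e1 : ∀ F : V → ℕ, F v = 0 → ∑ w ∈ (Z.erase v)ᶜ, F w ≤ ∑ w ∈ Zᶜ, F w := by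
    intro F hF
    by_cases hv : v ∈ Z
    · have h1 : (Z.erase v)ᶜ = insert v Zᶜ := by
        ext x
        simp only [Finset.mem_compl, Finset.mem_erase, Finset.mem_insert, not_and_or, not_not]
      rw [h1, Finset.sum_insert (by rw [Finset.mem_compl, not_not]; exact hv), hF, zero_add]
    · rw [Finset.erase_eq_of_notMem hv]
  have t1 : ∀ w, tr H v v w = 0 := by
    intro w
    unfold tr
    rw [if_neg]
    intro h
    exact (hp_ne h3 h).1 rfl
  have t2 : ∀ w, tr H v w v = 0 := by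
    intro w
    unfold tr
    rw [if_neg]
    intro h
    exact (hp_ne h3 h).2.1 rfl
  refine (e1 _ ?_).trans ?_
  · exact Finset.sum_eq_zero fun w _ => t1 w
  · refine Finset.sum_le_sum fun w hw => (e1 _ (t2 w)).trans (Finset.sum_le_sum fun w' hw' => ?_)
    unfold tr
    by_cases h1 : ({v, w, w'} : Finset V) ∈ H
    · rw [if_pos h1, if_pos (hG w (Finset.mem_compl.1 hw) w' (Finset.mem_compl.1 hw') h1)]
    · rw [if_neg h1]
      exact Nat.zero_le _

theorem hp_main {V : Type} [Fintype V] [DecidableEq V] (s : ℕ)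
    (hn : 3 * s + 3 ≤ Fintype.card V) (H : Finset (Finset V)) (h3 : ∀ e ∈ H, e.card = 3)
    (W : Finset V)
    (hρ : ∀ v ∈ W, ∃ μ ∈ spectrum ℝ ((link H v).adjMatrix ℝ), thr (Fintype.card V) s < μ)
    (hH : (3 * s + 1 ≤ W.card ∧ ∀ e ∈ H, (∃ v ∈ W, v ∈ e) → ∃ a ∈ e, ∃ b ∈ e, a ≠ b ∧
        3 * s + 1 ≤ (H.filter (fun f => a ∈ f ∧ b ∈ f)).card) ∨
      ∃ v ∈ W, ∀ e ∈ H, v ∈ e → ∀ a ∈ e, ∀ b ∈ e, a ≠ v → b ≠ v → a ≠ b →
        3 * s + 1 ≤ (H.filter (fun f => a ∈ f ∧ b ∈ f)).card) :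
    ∃ M ⊆ H, M.card = s + 1 ∧ ∀ e ∈ M, ∀ f ∈ M, e ≠ f → Disjoint e f := by
  classical
  by_cases hk : ∀ N f, Mt (hvG H s) N f → N.card ≤ s
  · exfalso
    obtain ⟨Z, hZ, hE, hI⟩ := bergeP (hvG H s) s (by omega) hk
    rcases hH with ⟨hW, hH⟩ | ⟨v, hvW, hH⟩
    · obtain ⟨v, hvW, hv, hvA⟩ : ∃ v ∈ W, v ∉ Z ∧ ∀ y, y ∉ Z → ¬ (hvG H s).Adj v y := by
        by_contra hno
        push Not at hno
        have h1 : W ⊆ Z ∪ Zᶜ.filter (fun x => ∃ y ∈ Zᶜ, (hvG H s).Adj x y) := by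
          intro x hx
          rw [Finset.mem_union]
          by_cases hxZ : x ∈ Z
          · exact Or.inl hxZ
          · obtain ⟨y, hy, hxy⟩ := hno x hx hxZ
            exact Or.inr (Finset.mem_filter.2 ⟨Finset.mem_compl.2 hxZ, y,
              Finset.mem_compl.2 hy, hxy⟩)
        have h2 := (Finset.card_le_card h1).trans (Finset.card_union_le _ _)
        omega
      obtain ⟨μ, hμ, hlt⟩ := hρ v hvW
      have hsum := hp_sub H h3 v (hvG H s) Z ?_
      · rw [Finset.erase_eq_of_notMem hv] at hsum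
        exact hp_cut s hn H v Z hv hZ (hsum.trans hE) μ hμ hlt
      · intro w hw w' hw' h1
        obtain ⟨a, ha, b, hb, hab, hco⟩ := hH _ h1 ⟨v, hvW, Finset.mem_insert_self v _⟩
        have hadj : (hvG H s).Adj a b := ⟨hab, hco⟩
        rw [Finset.mem_insert, Finset.mem_insert, Finset.mem_singleton] at ha hb
        rcases ha with rfl | rfl | rfl <;> rcases hb with rfl | rfl | rfl
        · exact absurd rfl hab
        · exact absurd hadj (hvA _ hw)
        · exact absurd hadj (hvA _ hw')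
        · exact absurd hadj.symm (hvA _ hw)
        · exact absurd rfl hab
        · exact hadj
        · exact absurd hadj.symm (hvA _ hw')
        · exact hadj.symm
        · exact absurd rfl hab
    · obtain ⟨μ, hμ, hlt⟩ := hρ v hvW
      have hsum := hp_sub H h3 v (hvG H s) Z ?_
      · have hc : (Z.erase v).card ≤ Z.card := Finset.card_le_card (Finset.erase_subset _ _)
        refine hp_cut s hn H v (Z.erase v) (Finset.notMem_erase v Z) (hc.trans hZ) ?_ μ hμ hlt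
        refine (hsum.trans hE).trans ?_
        have h4 : s - Z.card ≤ s - (Z.erase v).card := by omega
        exact Nat.mul_le_mul (by omega) (by omega)
      · intro w hw w' hw' h1
        obtain ⟨n1, n2, n3⟩ := hp_ne h3 h1
        exact ⟨n3, hH _ h1 (Finset.mem_insert_self v _) w (by simp) w' (by simp)
          n1.symm n2.symm n3⟩
  · push Not at hk
    obtain ⟨N, f, hM, hN⟩ := hk
    obtain ⟨N', hN', hc⟩ := Finset.exists_subset_card_eq (show s + 1 ≤ N.card by omega)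
    exact greedy H h3 s (hvG H s) (fun a b h => h.2) N' f
      ⟨hM.inj.mono fun x hx => hN' hx, fun x hx h => hM.dj x (hN' hx) (hN' h),
        fun x hx => hM.adj x (hN' hx)⟩ hc

end Pool.MP_62c2ba
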