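import Pool.Agent.H.MP_62c2ba_co.HPg

/-! # Disjoint pairs in at least `3 s` edges -/

set_option autoImplicit false

open Finset

namespace Pool.MP_62c2ba

/-- The extensions of the pairs with `x ∈ S`. -/
structure Xt {V : Type} [DecidableEq V] (H : Finset (Finset V)) (N : Finset V) (f : V → V)
    (S : Finset V) (g : V → V) : Prop where
  pr : ∀ x ∈ S, g x ∉ N ∧ g x ∉ N.image f ∧ ({x, f x, g x} : Finset V) ∈ H
  inj : Set.InjOn g S

theorem xt_match {V : Type} [DecidableEq V] (H : Finset (Finset V)) (s : ℕ) {G : SimpleGraph V}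
    (N : Finset V) (f : V → V) (hM : Mt G N f) (hN : N.card = s + 1) (g : V → V)
    (hX : Xt H N f N g) :
    ∃ M ⊆ H, M.card = s + 1 ∧ ∀ e ∈ M, ∀ e' ∈ M, e ≠ e' → Disjoint e e' := by
  have hg := hX.pr
  have hgi := hX.inj
  have hdis : ∀ x ∈ N, ∀ y ∈ N, x ≠ y →
      Disjoint ({x, f x, g x} : Finset V) ({y, f y, g y} : Finset V) := by
    intro x hx y hy hxy
    obtain ⟨x1, x2, -⟩ := hg x hx
    obtain ⟨y1, y2, -⟩ := hg y hy
    have e1 : x ≠ f y := fun h => hM.dj y hy (h ▸ hx)
    have e2 : x ≠ g y := fun h => y1 (h ▸ hx)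
    have e3 : f x ≠ y := fun h => hM.dj x hx (h ▸ hy)
    have e4 : f x ≠ f y := fun h => hxy (hM.inj hx hy h)
    have e5 : f x ≠ g y := fun h => y2 (h ▸ Finset.mem_image_of_mem f hx)
    have e6 : g x ≠ y := fun h => x1 (h ▸ hy)
    have e7 : g x ≠ f y := fun h => x2 (h ▸ Finset.mem_image_of_mem f hy)
    have e8 : g x ≠ g y := fun h => hxy (hgi hx hy h)
    rw [Finset.disjoint_left]
    intro z hz hz'
    simp only [Finset.mem_insert, Finset.mem_singleton] at hz hz'
    rcases hz with rfl | rfl | rfl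
    · rcases hz' with h | h | h
      · exact hxy h
      · exact e1 h
      · exact e2 h
    · rcases hz' with h | h | h
      · exact e3 h
      · exact e4 h
      · exact e5 h
    · rcases hz' with h | h | h
      · exact e6 h
      · exact e7 h
      · exact e8 h
  refine ⟨N.image (fun x => ({x, f x, g x} : Finset V)), ?_, ?_, ?_⟩
  · intro e he
    obtain ⟨x, hx, rfl⟩ := Finset.mem_image.1 he
    exact (hg x hx).2.2
  · rw [Finset.card_image_of_injOn, hN]
    intro x hx y hy hxy
    by_contra hne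
    have h1 := hdis x hx y hy hne
    have h2 : ({x, f x, g x} : Finset V) = {y, f y, g y} := hxy
    rw [← h2] at h1
    exact (Finset.disjoint_left.1 h1 (Finset.mem_insert_self x _)) (Finset.mem_insert_self x _)
  · intro e he e' he' hne
    obtain ⟨x, hx, rfl⟩ := Finset.mem_image.1 he
    obtain ⟨y, hy, rfl⟩ := Finset.mem_image.1 he'
    refine hdis x hx y hy fun h => ?_
    subst h
    exact hne rfl

/-- One more extension. -/
theorem xt_add {V : Type} [DecidableEq V] {H : Finset (Finset V)} {N : Finset V} {f : V → V}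
    {S : Finset V} {g : V → V} (hX : Xt H N f S g) {x c : V} (hx : x ∉ S) (h1 : c ∉ N)
    (h2 : c ∉ N.image f) (h3 : c ∉ S.image g) (h4 : ({x, f x, c} : Finset V) ∈ H) :
    Xt H N f (insert x S) (Function.update g x c) := by
  refine ⟨?_, ?_⟩
  · intro y hy
    by_cases hyx : y = x
    · rw [hyx, Function.update_self]
      exact ⟨h1, h2, h4⟩
    · rw [Function.update_of_ne hyx]
      exact hX.pr y (Finset.mem_of_mem_insert_of_ne hy hyx)
  · intro y hy z hz hyz
    rw [Finset.mem_coe] at hy hz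
    by_cases hyx : y = x
    · by_cases hzx : z = x
      · rw [hyx, hzx]
      · exfalso
        rw [hyx, Function.update_self, Function.update_of_ne hzx] at hyz
        exact h3 (hyz ▸ Finset.mem_image_of_mem g (Finset.mem_of_mem_insert_of_ne hz hzx))
    · by_cases hzx : z = x
      · exfalso
        rw [hzx, Function.update_self, Function.update_of_ne hyx] at hyz
        exact h3 (hyz ▸ Finset.mem_image_of_mem g (Finset.mem_of_mem_insert_of_ne hy hyx))
      · rw [Function.update_of_ne hyx, Function.update_of_ne hzx] at hyz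
        exact hX.inj (Finset.mem_of_mem_insert_of_ne hy hyx)
          (Finset.mem_of_mem_insert_of_ne hz hzx) hyz

theorem xt_some {V : Type} [DecidableEq V] (H : Finset (Finset V)) (h3 : ∀ e ∈ H, e.card = 3)
    (s : ℕ) (G : SimpleGraph V)
    (hG : ∀ a b, G.Adj a b → 3 * s ≤ (H.filter (fun f => a ∈ f ∧ b ∈ f)).card)
    (N : Finset V) (f : V → V) (hM : Mt G N f) (hN : N.card = s + 1) :
    ∀ S : Finset V, S ⊆ N → S.card ≤ s → ∃ g : V → V, Xt H N f S g := by
  intro S
  induction S using Finset.induction_on with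
  | empty =>
    intro _ _
    exact ⟨id, ⟨by simp, by simp⟩⟩
  | insert x S hx ih =>
    intro hS hSs
    rw [Finset.card_insert_of_notMem hx] at hSs
    obtain ⟨g, hg⟩ := ih ((Finset.subset_insert x S).trans hS) (by omega)
    have hxN : x ∈ N := hS (Finset.mem_insert_self x S)
    obtain ⟨B, hB⟩ : ∃ B, B = (N.erase x ∪ (N.image f).erase (f x)) ∪ S.image g := ⟨_, rfl⟩
    have hBc : B.card + 1 ≤ 3 * s := by
      have h1 : (N.erase x).card = s := by
        rw [Finset.card_erase_of_mem hxN, hN]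
        rfl
      have h2 : ((N.image f).erase (f x)).card ≤ s := by
        rw [Finset.card_erase_of_mem (Finset.mem_image_of_mem f hxN)]
        have h4 : (N.image f).card ≤ N.card := Finset.card_image_le
        omega
      have h4 : (S.image g).card ≤ S.card := Finset.card_image_le
      have h5 := Finset.card_union_le (N.erase x ∪ (N.image f).erase (f x)) (S.image g)
      have h6 := Finset.card_union_le (N.erase x) ((N.image f).erase (f x))
      rw [hB]
      omega
    obtain ⟨c, hcB, hca, hcb, hcH⟩ := ext_pair H h3 (hM.adj x hxN).ne B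
      (lt_of_lt_of_le (by omega) (hG _ _ (hM.adj x hxN)))
    rw [hB, Finset.mem_union, Finset.mem_union, not_or, not_or] at hcB
    obtain ⟨⟨hc1, hc2⟩, hc3⟩ := hcB
    exact ⟨_, xt_add hg hx (fun h => hc1 (Finset.mem_erase.2 ⟨hca, h⟩))
      (fun h => hc2 (Finset.mem_erase.2 ⟨hcb, h⟩)) hc3 hcH⟩

/-- All neighbours of a pair with many neighbours, all in `T`. -/
theorem hp_fill {V : Type} [DecidableEq V] (H : Finset (Finset V)) (h3 : ∀ e ∈ H, e.card = 3)
    {a b : V} (hab : a ≠ b) (T : Finset V) (ha : a ∈ T) (hb : b ∈ T) {k : ℕ}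
    (hT : T.card ≤ k + 2) (hk : k ≤ (H.filter (fun f => a ∈ f ∧ b ∈ f)).card)
    (hin : ∀ c, ({a, b, c} : Finset V) ∈ H → c ∈ T) :
    ∀ c ∈ T, c ≠ a → c ≠ b → ({a, b, c} : Finset V) ∈ H := by
  intro c hc hca hcb
  by_contra hno
  obtain ⟨D, hD⟩ : ∃ D, D = ((T.erase a).erase b).filter (fun c => ({a, b, c} : Finset V) ∈ H) :=
    ⟨_, rfl⟩
  have h1 : D ⊆ ((T.erase a).erase b).erase c := by
    intro z hz
    rw [hD, Finset.mem_filter] at hz
    refine Finset.mem_erase.2 ⟨?_, hz.1⟩
    rintro rfl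
    exact hno hz.2
  have h2 := Finset.card_le_card h1
  rw [Finset.card_erase_of_mem (Finset.mem_erase.2 ⟨hcb, Finset.mem_erase.2 ⟨hca, hc⟩⟩),
    Finset.card_erase_of_mem (Finset.mem_erase.2 ⟨hab.symm, hb⟩), Finset.card_erase_of_mem ha] at h2
  have h4 : 0 < ((T.erase a).erase b).card :=
    Finset.card_pos.2 ⟨c, Finset.mem_erase.2 ⟨hcb, Finset.mem_erase.2 ⟨hca, hc⟩⟩⟩
  rw [Finset.card_erase_of_mem (Finset.mem_erase.2 ⟨hab.symm, hb⟩), Finset.card_erase_of_mem ha] at h4
  obtain ⟨c', h5, h6, h7, h8⟩ := ext_pair H h3 hab D (by omega)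
  apply h5
  rw [hD, Finset.mem_filter]
  exact ⟨Finset.mem_erase.2 ⟨h7, Finset.mem_erase.2 ⟨h6, hin c' h8⟩⟩, h8⟩

/-- The closed set. -/
theorem hp_close {V : Type} [DecidableEq V] (H : Finset (Finset V)) (h3 : ∀ e ∈ H, e.card = 3)
    (s : ℕ) (G : SimpleGraph V)
    (hG : ∀ a b, G.Adj a b → 3 * s ≤ (H.filter (fun f => a ∈ f ∧ b ∈ f)).card)
    (hno : ¬ ∃ M ⊆ H, M.card = s + 1 ∧ ∀ e ∈ M, ∀ e' ∈ M, e ≠ e' → Disjoint e e')
    (N : Finset V) (f : V → V) (hM : Mt G N f) (hN : N.card = s + 1) :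
    ∃ T : Finset V, T.card ≤ 3 * s + 2 ∧ ∀ x ∈ N, ∀ c, c ∈ T ↔
      (c = x ∨ c = f x ∨ ({x, f x, c} : Finset V) ∈ H) := by
  obtain ⟨x0, hx0⟩ : N.Nonempty := Finset.card_pos.1 (by omega)
  obtain ⟨g, hg⟩ := xt_some H h3 s G hG N f hM hN (N.erase x0) (Finset.erase_subset _ _)
    (by rw [Finset.card_erase_of_mem hx0, hN]; omega)
  obtain ⟨T, hT⟩ : ∃ T, T = (N ∪ N.image f) ∪ (N.erase x0).image g := ⟨_, rfl⟩
  have mT : ∀ c, c ∈ T ↔ (c ∈ N ∨ c ∈ N.image f) ∨ c ∈ (N.erase x0).image g := by
    intro c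
    rw [hT, Finset.mem_union, Finset.mem_union]
  have hTc : T.card ≤ 3 * s + 2 := by
    have h1 : (N.image f).card ≤ N.card := Finset.card_image_le
    have h2 : ((N.erase x0).image g).card ≤ (N.erase x0).card := Finset.card_image_le
    rw [Finset.card_erase_of_mem hx0] at h2
    have h5 := Finset.card_union_le (N ∪ N.image f) ((N.erase x0).image g)
    have h6 := Finset.card_union_le N (N.image f)
    rw [hT]
    omega
  have xT : ∀ x ∈ N, x ∈ T := fun x hx => (mT x).2 (Or.inl (Or.inl hx))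
  have fT : ∀ x ∈ N, f x ∈ T := fun x hx =>
    (mT _).2 (Or.inl (Or.inr (Finset.mem_image_of_mem f hx)))
  have hins : insert x0 (N.erase x0) = N := Finset.insert_erase hx0
  have h0 : ∀ c, ({x0, f x0, c} : Finset V) ∈ H → c ∈ T := by
    intro c hc
    by_contra hcT
    rw [mT, not_or, not_or] at hcT
    have h1 := xt_add hg (Finset.notMem_erase x0 N) hcT.1.1 hcT.1.2 hcT.2 hc
    rw [hins] at h1
    exact hno (xt_match H s N f hM hN _ h1)
  have h0' := hp_fill H h3 (hM.adj x0 hx0).ne T (xT x0 hx0) (fT x0 hx0) (k := 3 * s) hTc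
    (hG _ _ (hM.adj x0 hx0)) h0
  have h1 : ∀ x ∈ N, ∀ c, ({x, f x, c} : Finset V) ∈ H → c ∈ T := by
    intro x hx c hc
    by_cases hxx : x = x0
    · rw [hxx] at hc
      exact h0 c hc
    by_contra hcT
    have hcT' := hcT
    rw [mT, not_or, not_or] at hcT'
    have hxe : x ∈ N.erase x0 := Finset.mem_erase.2 ⟨hxx, hx⟩
    obtain ⟨g1, g2, g3⟩ := hg.pr x hxe
    have hgT : g x ∈ T := (mT _).2 (Or.inr (Finset.mem_image_of_mem g hxe))
    have h4 := h0' (g x) hgT (fun h => g1 (h ▸ hx0))
      (fun h => g2 (h ▸ Finset.mem_image_of_mem f hx0))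
    -- restrict, then add twice
    have hr : Xt H N f ((N.erase x0).erase x) g :=
      ⟨fun y hy => hg.pr y (Finset.mem_of_mem_erase hy),
        hg.inj.mono fun y hy => Finset.mem_of_mem_erase hy⟩
    have hr1 := xt_add hr (x := x) (c := c) (Finset.notMem_erase x _) hcT'.1.1 hcT'.1.2
      (fun h => hcT'.2 (Finset.image_subset_image (Finset.erase_subset _ _) h)) hc
    rw [Finset.insert_erase hxe] at hr1
    have hr2 := xt_add hr1 (x := x0) (c := g x) (Finset.notMem_erase x0 N) g1 g2 (by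
      intro h
      obtain ⟨y, hy, hyx⟩ := Finset.mem_image.1 h
      by_cases hyx' : y = x
      · rw [hyx', Function.update_self] at hyx
        exact hcT (hyx ▸ hgT)
      · rw [Function.update_of_ne hyx'] at hyx
        exact hyx' (hg.inj hy hxe hyx)) h4
    rw [hins] at hr2
    exact hno (xt_match H s N f hM hN _ hr2)
  refine ⟨T, hTc, fun x hx c => ⟨fun hc => ?_, ?_⟩⟩
  · by_cases hcx : c = x
    · exact Or.inl hcx
    by_cases hcf : c = f x
    · exact Or.inr (Or.inl hcf)
    exact Or.inr (Or.inr (hp_fill H h3 (hM.adj x hx).ne T (xT x hx) (fT x hx) (k := 3 * s) hTc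
      (hG _ _ (hM.adj x hx)) (h1 x hx) c hc hcx hcf))
  · rintro (rfl | rfl | hc)
    · exact xT _ hx
    · exact fT x hx
    · exact h1 x hx c hc

/-- The exchange of one pair. -/
theorem mt_swap {V : Type} [DecidableEq V] {G : SimpleGraph V} {N : Finset V} {f : V → V}
    (hM : Mt G N f) {x a b : V} (hab : G.Adj a b) (ha1 : a ∉ N.erase x)
    (ha2 : a ∉ (N.erase x).image f) (hb1 : b ∉ N.erase x) (hb2 : b ∉ (N.erase x).image f) :
    Mt G (insert a (N.erase x)) (Function.update f a b) := by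
  have hne : ∀ y ∈ N.erase x, y ≠ a := fun y hy h => ha1 (h ▸ hy)
  refine ⟨?_, ?_, ?_⟩
  · intro y hy z hz hyz
    rw [Finset.mem_coe, Finset.mem_insert] at hy hz
    rcases hy with rfl | hy <;> rcases hz with rfl | hz
    · rfl
    · rw [Function.update_self, Function.update_of_ne (hne z hz)] at hyz
      exact absurd (hyz ▸ Finset.mem_image_of_mem f hz) hb2
    · rw [Function.update_self, Function.update_of_ne (hne y hy)] at hyz
      exact absurd (hyz ▸ Finset.mem_image_of_mem f hy) hb2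
    · rw [Function.update_of_ne (hne y hy), Function.update_of_ne (hne z hz)] at hyz
      exact hM.inj (Finset.mem_of_mem_erase hy) (Finset.mem_of_mem_erase hz) hyz
  · intro y hy
    rw [Finset.mem_insert] at hy
    rcases hy with rfl | hy
    · rw [Function.update_self, Finset.mem_insert, not_or]
      exact ⟨hab.ne.symm, hb1⟩
    · rw [Function.update_of_ne (hne y hy), Finset.mem_insert, not_or]
      exact ⟨fun h => ha2 (h ▸ Finset.mem_image_of_mem f hy),
        fun h => hM.dj y (Finset.mem_of_mem_erase hy) (Finset.mem_of_mem_erase h)⟩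
  · intro y hy
    rw [Finset.mem_insert] at hy
    rcases hy with rfl | hy
    · rw [Function.update_self]
      exact hab
    · rw [Function.update_of_ne (hne y hy)]
      exact hM.adj y (Finset.mem_of_mem_erase hy)

end Pool.MP_62c2ba
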