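import Pool.Agent.H.MP_62c2ba_co.Spec

/-! # Intersecting 3-graphs: a bound for the eigenvalues of a link from a weight, six vertices -/

set_option autoImplicit false

namespace Pool.MP_62c2ba

/-- A bound for the eigenvalues of the link of `v` from a positive weight. -/
theorem one_wt {V : Type} [Fintype V] [DecidableEq V] (H : Finset (Finset V)) (v : V)
    (z : V → ℝ) (hz : ∀ w, 0 < z w) (lam : ℝ)
    (h : ∀ w, w ≠ v →
      ∑ u, (if u ≠ v ∧ w ≠ u ∧ ({v, w, u} : Finset V) ∈ H then z u else 0) ≤ lam * z w)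
    (μ : ℝ) (hμ : μ ∈ spectrum ℝ ((link H v).adjMatrix ℝ)) : μ ≤ lam := by
  rw [spectrum.mem_iff, Matrix.isUnit_iff_isUnit_det, isUnit_iff_ne_zero, not_not,
    ← Matrix.exists_mulVec_eq_zero_iff] at hμ
  obtain ⟨y, hy0, hy⟩ := hμ
  have heq : ∀ i, μ * y i = ∑ j, (link H v).adjMatrix ℝ i j * y j := by
    intro i
    have h1 := congrFun hy i
    rw [Matrix.sub_mulVec, Pi.sub_apply, Pi.zero_apply, sub_eq_zero] at h1
    rw [Algebra.algebraMap_eq_smul_one, Matrix.smul_mulVec, Matrix.one_mulVec] at h1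
    exact h1
  obtain ⟨i0, hi0⟩ := Function.ne_iff.1 hy0
  obtain ⟨w, -, hw⟩ := Finset.exists_max_image (Finset.univ : Finset {u : V // u ≠ v})
    (fun i => |y i| / z i.1) ⟨i0, Finset.mem_univ _⟩
  have hc : ∀ j, |y j| ≤ |y w| / z w.1 * z j.1 := fun j => by
    rw [← div_le_iff₀ (hz j.1)]
    exact hw j (Finset.mem_univ _)
  have hyw : 0 < |y w| := by
    have h1 := hw i0 (Finset.mem_univ _)
    have h2 : 0 < |y i0| / z i0.1 := div_pos (abs_pos.2 hi0) (hz _)
    have h3 := h2.trans_le h1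
    by_contra h4
    have h5 : |y w| = 0 := le_antisymm (not_lt.1 h4) (abs_nonneg _)
    rw [h5, zero_div] at h3
    exact lt_irrefl _ h3
  have h1 : |μ| * |y w| ≤ lam * |y w| := by
    rw [← abs_mul, heq]
    refine (Finset.abs_sum_le_sum_abs _ _).trans ?_
    have h2 : ∀ j : {u : V // u ≠ v}, |(link H v).adjMatrix ℝ w j * y j| ≤ |y w| / z w.1 *
        (if j.1 ≠ v ∧ w.1 ≠ j.1 ∧ ({v, w.1, j.1} : Finset V) ∈ H then z j.1 else 0) := by
      intro j
      rw [abs_mul, SimpleGraph.adjMatrix_apply]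
      by_cases h4 : (link H v).Adj w j
      · have h5 : j.1 ≠ v ∧ w.1 ≠ j.1 ∧ ({v, w.1, j.1} : Finset V) ∈ H :=
          ⟨j.2, fun h6 => h4.1 (Subtype.ext h6), h4.2⟩
        rw [if_pos h4, if_pos h5, abs_one, one_mul]
        exact hc j
      · rw [if_neg h4, abs_zero, zero_mul]
        refine mul_nonneg (div_nonneg (abs_nonneg _) (hz _).le) ?_
        split_ifs
        · exact (hz _).le
        · exact le_refl _
    refine (Finset.sum_le_sum fun j _ => h2 j).trans ?_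
    rw [← Finset.mul_sum]
    have h3 : ∑ j : {u : V // u ≠ v},
        (if j.1 ≠ v ∧ w.1 ≠ j.1 ∧ ({v, w.1, j.1} : Finset V) ∈ H then z j.1 else 0) ≤
        ∑ u, (if u ≠ v ∧ w.1 ≠ u ∧ ({v, w.1, u} : Finset V) ∈ H then z u else 0) := by
      rw [← Fintype.sum_subtype_add_sum_subtype (fun u => u ≠ v) (fun u =>
        (if u ≠ v ∧ w.1 ≠ u ∧ ({v, w.1, u} : Finset V) ∈ H then z u else 0))]
      refine le_add_of_nonneg_right (Finset.sum_nonneg fun j _ => ?_)
      split_ifs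
      · exact (hz _).le
      · exact le_refl _
    calc |y w| / z w.1 * _ ≤ |y w| / z w.1 * (lam * z w.1) :=
          mul_le_mul_of_nonneg_left (h3.trans (h w.1 w.2))
            (div_nonneg (abs_nonneg _) (hz _).le)
      _ = lam * |y w| := by
          have := (hz w.1).ne'
          field_simp
  exact (le_abs_self μ).trans (le_of_mul_le_mul_right h1 hyw)

/-- If all codegrees of `v` are at most two, then no eigenvalue of its link exceeds two. -/
theorem one_deg {V : Type} [Fintype V] [DecidableEq V] (H : Finset (Finset V)) (v : V)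
    (h : ∀ w, (Finset.univ.filter fun u => ({v, w, u} : Finset V) ∈ H).card ≤ 2)
    (μ : ℝ) (hμ : μ ∈ spectrum ℝ ((link H v).adjMatrix ℝ)) : μ ≤ 2 := by
  refine one_wt H v (fun _ => 1) (fun _ => one_pos) 2 (fun w _ => ?_) μ hμ
  rw [mul_one, ← Finset.sum_filter, Finset.sum_const, nsmul_eq_mul, mul_one]
  have h1 : (Finset.univ.filter fun u =>
      u ≠ v ∧ w ≠ u ∧ ({v, w, u} : Finset V) ∈ H).card ≤ 2 :=
    (Finset.card_le_card fun u hu => by
      rw [Finset.mem_filter] at hu ⊢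
      exact ⟨hu.1, hu.2.2.2⟩).trans (h w)
  exact_mod_cast h1

/-- If all edges which contain `v` contain `x`, then the link of `v` is a star. -/
theorem one_star {V : Type} [Fintype V] [DecidableEq V] (H : Finset (Finset V)) (v x : V)
    (hx : v ≠ x) (h : ∀ a b, ({v, a, b} : Finset V) ∈ H → a = x ∨ b = x)
    (μ : ℝ) (h0 : 0 ≤ μ) (hμ : μ ∈ spectrum ℝ ((link H v).adjMatrix ℝ)) :
    μ * μ ≤ (Fintype.card V : ℝ) - 2 := by
  have h1 := spec H v {x} (by simpa using hx) μ h0 hμ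
  have h2 : ∑ w ∈ ({x} : Finset V)ᶜ, ∑ w' ∈ ({x} : Finset V)ᶜ, tr H v w w' = 0 := by
    refine Finset.sum_eq_zero fun w hw => Finset.sum_eq_zero fun w' hw' => ?_
    rw [Finset.mem_compl, Finset.mem_singleton] at hw hw'
    unfold tr
    rw [if_neg]
    intro h3
    rcases h w w' h3 with h4 | h4
    · exact hw h4
    · exact hw' h4
  rw [h2, Finset.card_singleton] at h1
  push_cast at h1
  linarith

/-! ## Six vertices -/

/-- The ten triples which contain `0`. -/
def s6T : Fin 10 → Finset (Fin 6) :=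
  ![{0, 1, 2}, {0, 1, 3}, {0, 1, 4}, {0, 1, 5}, {0, 2, 3}, {0, 2, 4}, {0, 2, 5}, {0, 3, 4},
    {0, 3, 5}, {0, 4, 5}]

/-- The number of a triple, and whether it contains `0`. -/
def s6i (v w u : Fin 6) : Fin 10 × Bool :=
  let m := 2 ^ v.1 + 2 ^ w.1 + 2 ^ u.1
  cond (Nat.beq m 7) (0, true) <| cond (Nat.beq m 11) (1, true) <|
  cond (Nat.beq m 19) (2, true) <| cond (Nat.beq m 35) (3, true) <|
  cond (Nat.beq m 13) (4, true) <| cond (Nat.beq m 21) (5, true) <|
  cond (Nat.beq m 37) (6, true) <| cond (Nat.beq m 25) (7, true) <|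
  cond (Nat.beq m 41) (8, true) <| cond (Nat.beq m 49) (9, true) <|
  cond (Nat.beq m 56) (0, false) <| cond (Nat.beq m 52) (1, false) <|
  cond (Nat.beq m 44) (2, false) <| cond (Nat.beq m 28) (3, false) <|
  cond (Nat.beq m 50) (4, false) <| cond (Nat.beq m 42) (5, false) <|
  cond (Nat.beq m 26) (6, false) <| cond (Nat.beq m 38) (7, false) <|
  cond (Nat.beq m 22) (8, false) <| (9, false)

theorem s6_idx : ∀ v w u : Fin 6, v ≠ w → v ≠ u → w ≠ u →
    ({v, w, u} : Finset (Fin 6)) =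
      if (s6i v w u).2 = true then s6T (s6i v w u).1 else (s6T (s6i v w u).1)ᶜ := by
  decide +kernel

/-- The family which is given by ten bits. -/
def s6F (c : Fin 10 → Bool) (v w u : Fin 6) : Bool := c (s6i v w u).1 == (s6i v w u).2

/-- Ten bits as a function. -/
def s6tab (c0 c1 c2 c3 c4 c5 c6 c7 c8 c9 : Bool) (i : Fin 10) : Bool :=
  match i with
  | 0 => c0
  | 1 => c1
  | 2 => c2
  | 3 => c3
  | 4 => c4
  | 5 => c5
  | 6 => c6
  | 7 => c7
  | 8 => c8
  | 9 => c9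

/-- The weight at `u`. -/
def s6z (m : ℕ) (u : Fin 6) : ℕ := cond (Nat.testBit m u.1) 2 1

/-- The condition at `w`. -/
def s6w (F : Fin 6 → Fin 6 → Fin 6 → Bool) (v : Fin 6) (z : Fin 6 → ℕ) (w : Fin 6) : Bool :=
  (w == v) || Nat.ble (
    cond (0 != v && w != 0 && F v w 0) (z 0) 0 + cond (1 != v && w != 1 && F v w 1) (z 1) 0 +
    cond (2 != v && w != 2 && F v w 2) (z 2) 0 + cond (3 != v && w != 3 && F v w 3) (z 3) 0 +
    cond (4 != v && w != 4 && F v w 4) (z 4) 0 + cond (5 != v && w != 5 && F v w 5) (z 5) 0)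
    (2 * z w)

/-- The condition at all vertices. -/
def s6v (F : Fin 6 → Fin 6 → Fin 6 → Bool) (p : Fin 6 × ℕ) : Bool :=
  s6w F p.1 (s6z p.2) 0 && s6w F p.1 (s6z p.2) 1 && s6w F p.1 (s6z p.2) 2 &&
    s6w F p.1 (s6z p.2) 3 && s6w F p.1 (s6z p.2) 4 && s6w F p.1 (s6z p.2) 5

/-- The certificates. -/
def s6c : List (Fin 6 × ℕ) :=
  [(0, 0), (1, 0), (2, 0), (3, 0), (4, 0), (5, 0), (0, 6), (0, 24), (1, 33), (1, 12), (2, 3),
    (2, 48), (3, 5), (3, 18), (4, 40), (5, 9), (5, 20), (0, 34), (4, 10), (0, 36), (1, 17),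
    (0, 2), (0, 4), (0, 8), (0, 16), (0, 32), (1, 1)]

theorem s6_check : ∀ c0 c1 c2 c3 c4 c5 c6 c7 c8 c9 : Bool,
    s6c.any (s6v (s6F (s6tab c0 c1 c2 c3 c4 c5 c6 c7 c8 c9))) = true := by
  decide +kernel

theorem s6_main (H : Finset (Finset (Fin 6)))
    (hI : ∀ e ∈ H, ∀ f ∈ H, ¬ Disjoint e f) :
    ∃ v : Fin 6, ∃ z : Fin 6 → ℕ, (∀ w, 0 < z w) ∧ ∀ w, w ≠ v →
      ∑ u, (if u ≠ v ∧ w ≠ u ∧ ({v, w, u} : Finset (Fin 6)) ∈ H then z u else 0) ≤
        2 * z w := by
  obtain ⟨c, hc⟩ : ∃ c : Fin 10 → Bool, ∀ i, c i = decide (s6T i ∈ H) := ⟨_, fun _ => rfl⟩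
  have h1 := s6_check (c 0) (c 1) (c 2) (c 3) (c 4) (c 5) (c 6) (c 7) (c 8) (c 9)
  have h2 : s6tab (c 0) (c 1) (c 2) (c 3) (c 4) (c 5) (c 6) (c 7) (c 8) (c 9) = c := by
    funext i
    fin_cases i <;> rfl
  rw [h2, List.any_eq_true] at h1
  obtain ⟨p, -, hp⟩ := h1
  refine ⟨p.1, s6z p.2, fun w => ?_, fun w hw => ?_⟩
  · unfold s6z
    cases Nat.testBit p.2 w.1
    · exact one_pos
    · exact two_pos
  have h3 : ∀ u, u ≠ p.1 → w ≠ u → ({p.1, w, u} : Finset (Fin 6)) ∈ H →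
      s6F c p.1 w u = true := by
    intro u hu hwu he
    have h4 := s6_idx p.1 w u hw.symm hu.symm hwu
    unfold s6F
    rw [h4] at he
    cases h5 : (s6i p.1 w u).2
    · rw [h5, if_neg (by decide)] at he
      have h6 : c (s6i p.1 w u).1 = false := by
        rw [hc, decide_eq_false_iff_not]
        intro h7
        exact hI _ h7 _ he disjoint_compl_right
      rw [h6]
      rfl
    · rw [h5, if_pos rfl] at he
      have h6 : c (s6i p.1 w u).1 = true := by
        rw [hc, decide_eq_true_iff]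
        exact he
      rw [h6]
      rfl
  have h4 : s6w (s6F c) p.1 (s6z p.2) w = true := by
    unfold s6v at hp
    simp only [Bool.and_eq_true] at hp
    obtain ⟨⟨⟨⟨⟨g0, g1⟩, g2⟩, g3⟩, g4⟩, g5⟩ := hp
    fin_cases w
    · exact g0
    · exact g1
    · exact g2
    · exact g3
    · exact g4
    · exact g5
  unfold s6w at h4
  rw [Bool.or_eq_true, Nat.ble_eq] at h4
  have h5 := h4.resolve_left (fun h => hw (by simpa using h))
  refine le_trans ?_ h5
  have h6 : ∀ u, (if u ≠ p.1 ∧ w ≠ u ∧ ({p.1, w, u} : Finset (Fin 6)) ∈ H then s6z p.2 u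
      else 0) ≤ cond (u != p.1 && w != u && s6F c p.1 w u) (s6z p.2 u) 0 := by
    intro u
    by_cases h7 : u ≠ p.1 ∧ w ≠ u ∧ ({p.1, w, u} : Finset (Fin 6)) ∈ H
    · rw [if_pos h7, h3 u h7.1 h7.2.1 h7.2.2, Bool.and_true]
      have h8 : (u != p.1) = true := by simpa using h7.1
      have h9 : (w != u) = true := by simpa using h7.2.1
      rw [h8, h9]
      exact le_refl _
    · rw [if_neg h7]
      exact Nat.zero_le _
  rw [Fin.sum_univ_six]
  have e0 := h6 0
  have e1 := h6 1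
  have e2 := h6 2
  have e3 := h6 3
  have e4 := h6 4
  have e5 := h6 5
  omega

end Pool.MP_62c2ba
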