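import Pool.Agent.H.MP_62c2ba_co.HPm
import Pool.Agent.H.MP_62c2ba_co.HPn
import Pool.Agent.H.MP_62c2ba_co.S1A

/-! # 3-graphs in which every edge contains a pair in at least `3 s` edges -/

set_option autoImplicit false

open Finset

namespace Pool.MP_62c2ba

/-- The graph of the pairs in at least `k` edges. -/
def hvK {V : Type} [DecidableEq V] (H : Finset (Finset V)) (k : ℕ) : SimpleGraph V where
  Adj a b := a ≠ b ∧ k ≤ (H.filter (fun f => a ∈ f ∧ b ∈ f)).card
  symm := ⟨fun a b h => ⟨h.1.symm, by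
    have h2 := h.2
    simp only [and_comm (a := a ∈ _)] at h2
    exact h2⟩⟩
  loopless := ⟨fun _ h => h.1 rfl⟩

theorem mt_out {V : Type} [DecidableEq V] {G : SimpleGraph V} {N : Finset V} {f : V → V}
    (hM : Mt G N f) {x q : V} (hx : x ∈ N) (hq : q = x ∨ q = f x) :
    q ∉ N.erase x ∧ q ∉ (N.erase x).image f := by
  rcases hq with rfl | rfl
  · refine ⟨Finset.notMem_erase _ N, fun h => ?_⟩
    obtain ⟨y, hy, hyx⟩ := Finset.mem_image.1 h
    exact hM.dj y (Finset.mem_of_mem_erase hy) (hyx ▸ hx)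
  · refine ⟨fun h => hM.dj x hx (Finset.mem_of_mem_erase h), fun h => ?_⟩
    obtain ⟨y, hy, hyx⟩ := Finset.mem_image.1 h
    have := hM.inj (Finset.mem_of_mem_erase hy) hx hyx
    exact (Finset.mem_erase.1 hy).1 this

theorem mt_out' {V : Type} [DecidableEq V] {N : Finset V} {f : V → V}
    {x q : V} (hq : ¬ ∃ x ∈ N, q = x ∨ q = f x) :
    q ∉ N.erase x ∧ q ∉ (N.erase x).image f := by
  refine ⟨fun h => hq ⟨q, Finset.mem_of_mem_erase h, Or.inl rfl⟩, fun h => ?_⟩
  obtain ⟨y, hy, hyx⟩ := Finset.mem_image.1 h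
  exact hq ⟨y, Finset.mem_of_mem_erase hy, Or.inr hyx.symm⟩

theorem hq_link {V : Type} [DecidableEq V] (H : Finset (Finset V)) (h3 : ∀ e ∈ H, e.card = 3)
    (s : ℕ) (hs : 1 ≤ s)
    (hno : ¬ ∃ M ⊆ H, M.card = s + 1 ∧ ∀ e ∈ M, ∀ e' ∈ M, e ≠ e' → Disjoint e e')
    (N : Finset V) (f : V → V) (hM : Mt (hvK H (3 * s)) N f) (hN : N.card = s + 1)
    (T : Finset V) (hT : ∀ x ∈ N, ∀ c, c ∈ T ↔ (c = x ∨ c = f x ∨ ({x, f x, c} : Finset V) ∈ H))
    (v : V) (hv : v ∉ T) (w u : V) (he : ({v, w, u} : Finset V) ∈ H)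
    (hp : ∃ a ∈ ({v, w, u} : Finset V), ∃ b ∈ ({v, w, u} : Finset V), a ≠ b ∧
      3 * s ≤ (H.filter (fun f => a ∈ f ∧ b ∈ f)).card) :
    ∃ x ∈ N, ∃ y ∈ N, x ≠ y ∧ (w = x ∨ w = f x) ∧ (u = y ∨ u = f y) := by
  obtain ⟨p, hp1, q, hq1, hpq, hco⟩ := hp
  have hadj : (hvK H (3 * s)).Adj p q := ⟨hpq, hco⟩
  have hVT : ∀ z, (∃ x ∈ N, z = x ∨ z = f x) → z ∈ T := by
    rintro z ⟨x, hx, hz⟩
    rw [hT x hx]
    rcases hz with hz | hz
    · exact Or.inl hz
    · exact Or.inr (Or.inl hz)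
  -- the three vertices
  have hset : v = p ∨ v = q ∨ ({p, q, v} : Finset V) ∈ H := by
    by_cases h1 : v = p
    · exact Or.inl h1
    by_cases h2 : v = q
    · exact Or.inr (Or.inl h2)
    refine Or.inr (Or.inr ?_)
    rw [Finset.mem_insert, Finset.mem_insert, Finset.mem_singleton] at hp1 hq1
    have e1 : ({p, q, v} : Finset V) = {v, w, u} := by
      rcases hp1 with h | rfl | rfl
      · exact absurd h.symm h1
      · rcases hq1 with h | h | rfl
        · exact absurd h.symm h2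
        · exact absurd h.symm hpq
        · ext z; simp only [Finset.mem_insert, Finset.mem_singleton]; tauto
      · rcases hq1 with h | rfl | h
        · exact absurd h.symm h2
        · ext z; simp only [Finset.mem_insert, Finset.mem_singleton]; tauto
        · exact absurd h.symm hpq
    rw [e1]
    exact he
  have key : ∀ x1 ∈ N, ¬ (p ∉ N.erase x1 ∧ p ∉ (N.erase x1).image f ∧ q ∉ N.erase x1 ∧
      q ∉ (N.erase x1).image f) := by
    rintro x1 hx1 ⟨p1, p2, q1, q2⟩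
    have hM' := mt_swap hM hadj p1 p2 q1 q2
    have hc : (N.erase x1).card = s := by
      rw [Finset.card_erase_of_mem hx1, hN]
      rfl
    have hN' : (insert p (N.erase x1)).card = s + 1 := by
      rw [Finset.card_insert_of_notMem p1, hc]
    obtain ⟨T', -, hT'⟩ := hp_close H h3 s (hvK H (3 * s)) (fun a b h => h.2) hno _ _ hM' hN'
    obtain ⟨x2, hx2⟩ : (N.erase x1).Nonempty := Finset.card_pos.1 (by omega)
    have hx2p : x2 ≠ p := fun h => p1 (h ▸ hx2)
    have hTT : ∀ c, c ∈ T' → c ∈ T := by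
      intro c hc
      rw [hT' x2 (Finset.mem_insert_of_mem hx2), Function.update_of_ne hx2p] at hc
      rw [hT x2 (Finset.mem_of_mem_erase hx2)]
      exact hc
    apply hv
    apply hTT
    rw [hT' p (Finset.mem_insert_self _ _), Function.update_self]
    exact hset
  have hpP : ∃ x ∈ N, p = x ∨ p = f x := by
    by_contra hno1
    by_cases hqP : ∃ x ∈ N, q = x ∨ q = f x
    · obtain ⟨x, hx, hqx⟩ := hqP
      obtain ⟨a1, a2⟩ := mt_out hM hx hqx
      obtain ⟨b1, b2⟩ := mt_out' (x := x) hno1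
      exact key x hx ⟨b1, b2, a1, a2⟩
    · obtain ⟨x, hx⟩ : N.Nonempty := Finset.card_pos.1 (by omega)
      obtain ⟨a1, a2⟩ := mt_out' (x := x) hqP
      obtain ⟨b1, b2⟩ := mt_out' (x := x) hno1
      exact key x hx ⟨b1, b2, a1, a2⟩
  have hqP : ∃ x ∈ N, q = x ∨ q = f x := by
    by_contra hno1
    obtain ⟨x, hx, hpx⟩ := hpP
    obtain ⟨a1, a2⟩ := mt_out hM hx hpx
    obtain ⟨b1, b2⟩ := mt_out' (x := x) hno1
    exact key x hx ⟨a1, a2, b1, b2⟩
  have hpv : p ≠ v := fun h => hv (h ▸ hVT p hpP)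
  have hqv : q ≠ v := fun h => hv (h ▸ hVT q hqP)
  obtain ⟨x, hx, hpx⟩ := hpP
  obtain ⟨y, hy, hqy⟩ := hqP
  have hxy : x ≠ y := by
    rintro rfl
    obtain ⟨a1, a2⟩ := mt_out hM hx hpx
    obtain ⟨b1, b2⟩ := mt_out hM hx hqy
    exact key x hx ⟨a1, a2, b1, b2⟩
  rw [Finset.mem_insert, Finset.mem_insert, Finset.mem_singleton] at hp1 hq1
  rcases hp1 with h | rfl | rfl
  · exact absurd h hpv
  · rcases hq1 with h | h | rfl
    · exact absurd h hqv
    · exact absurd h.symm hpq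
    · exact ⟨x, hx, y, hy, hxy, hpx, hqy⟩
  · rcases hq1 with h | rfl | h
    · exact absurd h hqv
    · exact ⟨y, hy, x, hx, hxy.symm, hqy, hpx⟩
    · exact absurd h.symm hpq

theorem thr_ge {n s : ℕ} (hn : 3 * s + 3 ≤ n) : 2 * (s : ℝ) ≤ thr n s := by
  unfold thr
  have h2 : (3 * (s : ℝ) + 3) ≤ (n : ℝ) := by exact_mod_cast hn
  have h4 : (0 : ℝ) ≤ s := Nat.cast_nonneg s
  have h0 : 0 ≤ (s : ℝ) * ((n : ℝ) - (3 * s + 3)) := mul_nonneg h4 (by linarith)
  have hR3 : 3 * (s : ℝ) + 1 ≤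
      Real.sqrt (((s : ℝ) - 1) ^ 2 + 4 * s * ((n : ℝ) - s - 1)) := by
    apply Real.le_sqrt_of_sq_le
    nlinarith
  linarith

theorem hq_main {V : Type} [Fintype V] [DecidableEq V] (s c : ℕ) (hc1 : c ≤ 1)
    (hn : 3 * s + 3 ≤ Fintype.card V) (H : Finset (Finset V)) (h3 : ∀ e ∈ H, e.card = 3)
    (W : Finset V) (hW : 3 * s + 3 ≤ W.card + 2 * c)
    (hρ : ∀ v ∈ W, ∃ μ ∈ spectrum ℝ ((link H v).adjMatrix ℝ), thr (Fintype.card V) s < μ)
    (hH : ∀ e ∈ H, (∃ v ∈ W, v ∈ e) → ∃ a ∈ e, ∃ b ∈ e, a ≠ b ∧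
        3 * s + c ≤ (H.filter (fun f => a ∈ f ∧ b ∈ f)).card) :
    ∃ M ⊆ H, M.card = s + 1 ∧ ∀ e ∈ M, ∀ f ∈ M, e ≠ f → Disjoint e f := by
  classical
  rcases Nat.le_one_iff_eq_zero_or_eq_one.1 hc1 with rfl | rfl
  swap
  · exact hp_main s hn H h3 W hρ (Or.inl ⟨by omega, hH⟩)
  rcases Nat.eq_zero_or_pos s with rfl | hs
  · refine hp_main 0 hn H h3 W hρ (Or.inl ⟨by omega, fun e he hv => ?_⟩)
    obtain ⟨a, ha, b, hb, hab, -⟩ := hH e he hv
    refine ⟨a, ha, b, hb, hab, ?_⟩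
    have h1 : 0 < (H.filter (fun f => a ∈ f ∧ b ∈ f)).card :=
      Finset.card_pos.2 ⟨e, Finset.mem_filter.2 ⟨he, ha, hb⟩⟩
    omega
  simp only [Nat.add_zero] at hH
  by_contra hno
  by_cases hk : ∀ N f, Mt (hvK H (3 * s)) N f → N.card ≤ s
  · obtain ⟨Z, hZ, hE, hI⟩ := bergeP (hvK H (3 * s)) s (by omega) hk
    obtain ⟨v, hvW, hv, hvA⟩ : ∃ v ∈ W, v ∉ Z ∧ ∀ y, y ∉ Z → ¬ (hvK H (3 * s)).Adj v y := by
      by_contra hno
      push Not at hno
      have h1 : W ⊆ Z ∪ Zᶜ.filter (fun x => ∃ y ∈ Zᶜ, (hvK H (3 * s)).Adj x y) := by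
        intro x hx
        rw [Finset.mem_union]
        by_cases hxZ : x ∈ Z
        · exact Or.inl hxZ
        · obtain ⟨y, hy, hxy⟩ := hno x hx hxZ
          exact Or.inr (Finset.mem_filter.2 ⟨Finset.mem_compl.2 hxZ, y,
            Finset.mem_compl.2 hy, hxy⟩)
      have h2 := (Finset.card_le_card h1).trans (Finset.card_union_le _ _)
      omega
    obtain ⟨μ, hμ, hlt⟩ := hρ v hvW
    have hsum := hp_sub H h3 v (hvK H (3 * s)) Z ?_
    · rw [Finset.erase_eq_of_notMem hv] at hsum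
      exact hp_cut s hn H v Z hv hZ (hsum.trans hE) μ hμ hlt
    · intro w hw w' hw' h1
      obtain ⟨a, ha, b, hb, hab, hco⟩ := hH _ h1 ⟨v, hvW, Finset.mem_insert_self v _⟩
      have hadj : (hvK H (3 * s)).Adj a b := ⟨hab, hco⟩
      rw [Finset.mem_insert, Finset.mem_insert, Finset.mem_singleton] at ha hb
      rcases ha with rfl | rfl | rfl <;> rcases hb with rfl | rfl | rfl
      · exact absurd rfl hab
      · exact absurd hadj (hvA _ hw)
      · exact absurd hadj (hvA _ hw')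
      · exact absurd hadj.symm (hvA _ hw)
      · exact absurd rfl hab
      · exact hadj
      · exact absurd hadj.symm (hvA _ hw')
      · exact hadj.symm
      · exact absurd rfl hab
  · push Not at hk
    obtain ⟨N₁, f, hM₁, hN₁⟩ := hk
    obtain ⟨N, hNs, hN⟩ := Finset.exists_subset_card_eq (show s + 1 ≤ N₁.card by omega)
    have hM : Mt (hvK H (3 * s)) N f :=
      ⟨hM₁.inj.mono fun x hx => hNs hx, fun x hx h => hM₁.dj x (hNs hx) (hNs h),
        fun x hx => hM₁.adj x (hNs hx)⟩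
    obtain ⟨T, hTc, hT⟩ := hp_close H h3 s (hvK H (3 * s)) (fun a b h => h.2) hno N f hM hN
    obtain ⟨v, hvW, hv⟩ : ∃ v ∈ W, v ∉ T := by
      by_contra hno2
      push Not at hno2
      have := Finset.card_le_card (show W ⊆ T from fun x hx => hno2 x hx)
      omega
    obtain ⟨μ, hμ, hlt⟩ := hρ v hvW
    have hlink : ∀ w u, ({v, w, u} : Finset V) ∈ H →
        ∃ x ∈ N, ∃ y ∈ N, x ≠ y ∧ (w = x ∨ w = f x) ∧ (u = y ∨ u = f y) := fun w u he =>
      hq_link H h3 s hs hno N f hM hN T hT v hv w u he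
        (hH _ he ⟨v, hvW, Finset.mem_insert_self v _⟩)
    have hdeg : ∀ w, (Finset.univ.filter fun u => ({v, w, u} : Finset V) ∈ H).card ≤ 2 * s := by
      intro w
      by_cases hw : ∃ x ∈ N, w = x ∨ w = f x
      · obtain ⟨x, hx, hwx⟩ := hw
        obtain ⟨o1, o2⟩ := mt_out hM hx hwx
        have h1 : (Finset.univ.filter fun u => ({v, w, u} : Finset V) ∈ H) ⊆
            N.erase x ∪ (N.erase x).image f := by
          intro u hu
          obtain ⟨x', hx', y, hy, hxy, hwx', huy⟩ := hlink w u (Finset.mem_filter.1 hu).2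
          have hxx : x' = x := by
            by_contra hne
            have hxe : x' ∈ N.erase x := Finset.mem_erase.2 ⟨hne, hx'⟩
            rcases hwx' with h | h
            · exact o1 (h ▸ hxe)
            · exact o2 (h ▸ Finset.mem_image_of_mem f hxe)
          have hye : y ∈ N.erase x := Finset.mem_erase.2 ⟨fun h => hxy (hxx.trans h.symm), hy⟩
          rw [Finset.mem_union]
          rcases huy with rfl | rfl
          · exact Or.inl hye
          · exact Or.inr (Finset.mem_image_of_mem f hye)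
        have h2 := (Finset.card_le_card h1).trans (Finset.card_union_le _ _)
        have h4 : ((N.erase x).image f).card ≤ (N.erase x).card := Finset.card_image_le
        rw [Finset.card_erase_of_mem hx] at h2 h4
        omega
      · have h1 : (Finset.univ.filter fun u => ({v, w, u} : Finset V) ∈ H) = ∅ := by
          rw [Finset.filter_eq_empty_iff]
          intro u _ hu
          obtain ⟨x', hx', y, hy, hxy, hwx', huy⟩ := hlink w u hu
          exact hw ⟨x', hx', hwx'⟩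
        rw [h1]
        simp
    have hle : μ ≤ 2 * (s : ℝ) := by
      refine one_wt H v (fun _ => 1) (fun _ => one_pos) (2 * (s : ℝ)) (fun w _ => ?_) μ hμ
      rw [mul_one, ← Finset.sum_filter, Finset.sum_const, nsmul_eq_mul, mul_one]
      have h1 : (Finset.univ.filter fun u =>
          u ≠ v ∧ w ≠ u ∧ ({v, w, u} : Finset V) ∈ H).card ≤ 2 * s :=
        (Finset.card_le_card fun u hu => by
          rw [Finset.mem_filter] at hu ⊢
          exact ⟨hu.1, hu.2.2.2⟩).trans (hdeg w)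
      exact_mod_cast h1
    have := thr_ge hn
    linarith

end Pool.MP_62c2ba
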