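import Pool.Agent.H.MP_62c2ba_co.Defs

/-! # The final inequality -/

set_option autoImplicit false

namespace Pool.MP_62c2ba

theorem thr_nonneg {n s : ℕ} (h : s + 1 ≤ n) : 0 ≤ thr n s := by
  unfold thr
  have h1 : (0 : ℝ) ≤ 4 * s * ((n : ℝ) - s - 1) := by
    have : (s : ℝ) + 1 ≤ n := by exact_mod_cast h
    exact mul_nonneg (by positivity) (by linarith)
  have h2 : |(s : ℝ) - 1| ≤ Real.sqrt (((s : ℝ) - 1) ^ 2 + 4 * s * ((n : ℝ) - s - 1)) := by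
    rw [← Real.sqrt_sq_eq_abs]
    exact Real.sqrt_le_sqrt (by linarith)
  have h3 := neg_abs_le ((s : ℝ) - 1)
  linarith

theorem thr_ge {n s : ℕ} (h : s + 1 ≤ n) : (s : ℝ) - 1 ≤ thr n s := by
  unfold thr
  have h1 : (0 : ℝ) ≤ 4 * s * ((n : ℝ) - s - 1) := by
    have : (s : ℝ) + 1 ≤ n := by exact_mod_cast h
    exact mul_nonneg (by positivity) (by linarith)
  have h2 : |(s : ℝ) - 1| ≤ Real.sqrt (((s : ℝ) - 1) ^ 2 + 4 * s * ((n : ℝ) - s - 1)) := by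
    rw [← Real.sqrt_sq_eq_abs]
    exact Real.sqrt_le_sqrt (by linarith)
  have h3 := le_abs_self ((s : ℝ) - 1)
  linarith

theorem thr_sq {n s : ℕ} (h : s + 1 ≤ n) :
    thr n s ^ 2 = ((s : ℝ) - 1) * thr n s + s * ((n : ℝ) - 1 - s) := by
  have h1 : (0 : ℝ) ≤ 4 * s * ((n : ℝ) - s - 1) := by
    have : (s : ℝ) + 1 ≤ n := by exact_mod_cast h
    exact mul_nonneg (by positivity) (by linarith)
  have h2 := Real.sq_sqrt (x := ((s : ℝ) - 1) ^ 2 + 4 * s * ((n : ℝ) - s - 1)) (by positivity)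
  unfold thr
  nlinarith

theorem thr_big {n s : ℕ} (h : 4 * s + 30 ≤ n) :
    2 * (s : ℝ) - 1 + 27 * s / (s + 30) ≤ thr n s := by
  have hn : s + 1 ≤ n := by omega
  have h0 := thr_nonneg hn
  have h1 := thr_ge hn
  have h2 := thr_sq hn
  have hs : (0 : ℝ) ≤ s := Nat.cast_nonneg s
  have hn' : 4 * (s : ℝ) + 30 ≤ n := by exact_mod_cast h
  obtain ⟨g, hg⟩ : ∃ g : ℝ, g = 2 * (s : ℝ) - 1 + 27 * s / (s + 30) := ⟨_, rfl⟩
  rw [← hg]
  by_contra hcon
  rw [not_le] at hcon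
  have hp : (0 : ℝ) < (s : ℝ) + 30 := by linarith
  have h3 : (((s : ℝ) - 1) * g + s * (3 * s + 29) - g ^ 2) * ((s : ℝ) + 30) ^ 2 =
      s * ((s : ℝ) ^ 3 + 9 * s ^ 2 - 432 * s + 27810) := by
    rw [hg]
    field_simp
    ring
  have h4 : (0 : ℝ) ≤ s * ((s : ℝ) ^ 3 + 9 * s ^ 2 - 432 * s + 27810) := by
    refine mul_nonneg hs ?_
    nlinarith [mul_nonneg hs (sq_nonneg ((s : ℝ) - 10)), sq_nonneg ((s : ℝ) - 10)]
  have h5 : 0 ≤ ((s : ℝ) - 1) * g + s * (3 * s + 29) - g ^ 2 := by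
    rw [← h3] at h4
    exact nonneg_of_mul_nonneg_left h4 (by positivity)
  have h6 : (s : ℝ) * (3 * s + 29) ≤ s * ((n : ℝ) - 1 - s) :=
    mul_le_mul_of_nonneg_left (by linarith) hs
  have h7 : (g - thr n s) * (g + thr n s) ≤ (g - thr n s) * ((s : ℝ) - 1) := by nlinarith
  have h8 := le_of_mul_le_mul_left h7 (by linarith)
  linarith

/-- The end of the proof. -/
theorem num {n s k r m : ℕ} {E μ : ℝ} (hn : 4 * s + 30 ≤ n) (hkr : k + r ≤ s)
    (hm : m + 3 * (k + r) = n)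
    (hE : E * m ≤ k * (5 * k + 4 * r + 28) * m + 27 * k * (k + r)) (hμ : thr n s < μ)
    (hsp : μ * (μ + 1 - r) ≤ r * ((n : ℝ) - 1 - r) + E) : False := by
  have hn1 : s + 1 ≤ n := by omega
  have f0 := thr_nonneg hn1
  have f1 := thr_ge hn1
  have f2 := thr_sq hn1
  have f3 := thr_big hn
  obtain ⟨f, hf⟩ : ∃ f, f = thr n s := ⟨_, rfl⟩
  rw [← hf] at f0 f1 f2 f3 hμ
  have cs : (0 : ℝ) ≤ s := Nat.cast_nonneg s
  have ck : (0 : ℝ) ≤ k := Nat.cast_nonneg k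
  have cr : (0 : ℝ) ≤ r := Nat.cast_nonneg r
  have ckr : (k : ℝ) + r ≤ s := by exact_mod_cast hkr
  have cn : 4 * (s : ℝ) + 30 ≤ n := by exact_mod_cast hn
  have cm : (m : ℝ) + 3 * (k + r) = n := by exact_mod_cast hm
  have m1 : (s : ℝ) + 30 ≤ m := by linarith
  have m0 : (0 : ℝ) < m := by linarith
  obtain ⟨q, hq⟩ : ∃ q : ℝ, q = 27 * s / (s + 30) := ⟨_, rfl⟩
  rw [← hq] at f3
  have q0 : 0 ≤ q := by rw [hq]; positivity
  have hE1 : E ≤ k * (5 * k + 4 * r + 28 + q) := by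
    have h1 : 27 * ((k : ℝ) + r) ≤ q * m := by
      have h2 : q * (s + 30) = 27 * s := by
        rw [hq]
        field_simp
      nlinarith
    have h3 : E * m ≤ (k * (5 * k + 4 * r + 28 + q)) * m := by nlinarith
    exact le_of_mul_le_mul_right h3 m0
  obtain ⟨k', hk'⟩ : ∃ k' : ℝ, k' = s - r := ⟨_, rfl⟩
  have hkk : (k : ℝ) ≤ k' := by linarith
  have hE2 : E ≤ k' * (4 * s + k' + 28 + q) := by
    refine hE1.trans ?_
    have h1 : (5 * (k : ℝ) + 4 * r + 28 + q) ≤ 4 * s + k' + 28 + q := by linarith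
    exact mul_le_mul hkk h1 (by positivity) (by linarith)
  have h4 : f * (f + 1 - r) = k' * f + s * ((n : ℝ) - 1 - s) := by
    rw [hk']
    linear_combination f2
  have h5 : (r : ℝ) * ((n : ℝ) - 1 - r) =
      s * ((n : ℝ) - 1 - s) - k' * ((n : ℝ) - 1 - 2 * s + k') := by
    rw [hk']
    ring
  have h6 : f * (f + 1 - r) < μ * (μ + 1 - r) := by nlinarith
  have h7 : k' * (f + n - 1 - 2 * s + k') < E := by nlinarith
  have hk0 : 0 ≤ k' := by linarith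
  rcases eq_or_lt_of_le hk0 with h8 | h8
  · rw [← h8] at h7 hE2
    linarith
  · have h9 : k' * (f + n - 1 - 2 * s + k') < k' * (4 * s + k' + 28 + q) := h7.trans_le hE2
    have h10 := lt_of_mul_lt_mul_left h9 hk0
    linarith

end Pool.MP_62c2ba
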