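import Pool.Agent.H.MP_62c2ba_co.Tot
import Pool.Agent.H.MP_62c2ba_co.Num
import Pool.Agent.H.MP_62c2ba_co.Spec

/-! # Matchings in 3-graphs whose links have large spectral radius -/

set_option autoImplicit false

open Finset

namespace Pool.MP_62c2ba

variable {V : Type} [Fintype V] [DecidableEq V]

theorem exists_cfg (H : Finset (Finset V)) (h3 : ∀ e ∈ H, e.card = 3) (x0 : V) :
    ∃ (M R : Finset (Finset V)) (ctr : Finset V → V), Cfg H M R ctr := by
  classical
  obtain ⟨M, hM, hmax⟩ := Finset.exists_max_image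
    (H.powerset.filter (fun M => ∀ e ∈ M, ∀ f ∈ M, e ≠ f → Disjoint e f)) Finset.card
    ⟨∅, by simp⟩
  rw [Finset.mem_filter, Finset.mem_powerset] at hM
  have hmm : MaxM H M := by
    refine ⟨h3, hM.1, hM.2, fun M' hM' hd => hmax M' ?_⟩
    rw [Finset.mem_filter, Finset.mem_powerset]
    exact ⟨hM', hd⟩
  refine ⟨M, M.filter (fun E => ∃ x ∈ E, Rx H M x),
    fun E => if h : ∃ x ∈ E, Rx H M x then h.choose else x0, hmm, Finset.filter_subset _ _,
    ?_, ?_⟩
  · intro F hF
    have h1 := (Finset.mem_filter.1 hF).2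
    rw [dif_pos h1]
    exact h1.choose_spec
  · intro E hE x hx
    rw [Finset.mem_sdiff, Finset.mem_filter, not_and] at hE
    have h1 := hE.2 hE.1
    have h2 : ¬ Rx H M x := fun h3 => h1 ⟨x, hx, h3⟩
    unfold Rx at h2
    push Not at h2
    obtain ⟨T, hT, h4⟩ := h2
    refine ⟨T, hT, fun u hu w hw huw hH => ?_⟩
    by_contra h5
    rw [not_or] at h5
    exact h4 u hu w hw h5.1 h5.2 huw hH

theorem card_out {H M : Finset (Finset V)} (h : MaxM H M) :
    (out M).card + 3 * M.card = Fintype.card V := by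
  have h1 : (M.biUnion id).card = 3 * M.card := by
    have h2 := Finset.card_biUnion (s := M) (t := id) fun e he f hf hne => h.dj e he f hf hne
    rw [h2, Finset.sum_congr rfl fun e he => (h.h3 e (h.sub he) : (id e).card = 3),
      Finset.sum_const, smul_eq_mul, mul_comm]
  unfold out
  rw [← h1, add_comm, Finset.card_add_card_compl]

theorem main (s : ℕ) (H : Finset (Finset V)) (h3 : ∀ e ∈ H, e.card = 3)
    (hn : 4 * s + 30 ≤ Fintype.card V)
    (hρ : ∀ v : V, ∃ μ ∈ spectrum ℝ ((link H v).adjMatrix ℝ), thr (Fintype.card V) s < μ) :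
    ∃ M ⊆ H, M.card = s + 1 ∧ ∀ e ∈ M, ∀ f ∈ M, e ≠ f → Disjoint e f := by
  have hne : Nonempty V := Fintype.card_pos_iff.1 (by omega)
  obtain ⟨x0⟩ := hne
  obtain ⟨M, R, ctr, h⟩ := exists_cfg H h3 x0
  by_cases hM : s + 1 ≤ M.card
  · obtain ⟨M', hM', hc⟩ := Finset.exists_subset_card_eq hM
    exact ⟨M', hM'.trans h.mm.sub, hc, fun e he f hf => h.mm.dj e (hM' he) f (hM' hf)⟩
  exfalso
  have hout := card_out h.mm
  have hk : (M \ R).card + R.card = M.card := Finset.card_sdiff_add_card_eq_card h.rs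
  obtain ⟨v, hv, hgood⟩ := good h (by omega)
  have hA : (R.image ctr).card = R.card := by
    refine Finset.card_image_of_injOn fun F hF F' hF' he => ?_
    by_contra hne
    refine Finset.disjoint_left.1 (h.mm.dj F (h.rs hF) F' (h.rs hF') hne) (h.rc F hF).1 ?_
    have h1 := (h.rc F' hF').1
    rwa [← he] at h1
  have hvA : v ∉ R.image ctr := by
    intro h1
    obtain ⟨F, hF, rfl⟩ := Finset.mem_image.1 h1
    exact mem_out.1 hv F (h.rs hF) (h.rc F hF).1
  obtain ⟨μ, hμ, hlt⟩ := hρ v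
  have hμ0 : 0 ≤ μ := (thr_nonneg (by omega)).trans hlt.le
  have hsp := spec H v (R.image ctr) hvA μ hμ0 hμ
  rw [hA] at hsp
  refine num (n := Fintype.card V) (s := s) (k := (M \ R).card) (r := R.card)
    (m := (out M).card) hn (by omega) (by omega) ?_ hlt hsp
  exact_mod_cast hgood

end Pool.MP_62c2ba
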