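import Pool.Agent.H.MP_62c2ba_co.Num

/-! # The final inequality, second version -/

set_option autoImplicit false

namespace Pool.MP_62c2ba

/-- The parameters. -/
theorem num_par {s g x : ℝ} (hs : 0 < s) (hg0 : 30 ≤ g) (hg : g ≤ s + 30)
    (h5 : 50 ^ 5 * s ^ 4 ≤ (g - 30) ^ 5) (h1 : 1000 * s * (x - 1) ≤ g ^ 2)
    (h2 : g ^ 2 ≤ 1000 * s * x) :
    1000 ≤ s ∧ 8 * s ≤ x ^ 2 ∧
      8 * s * (12 * s + 2) + x ^ 2 * (288 * (x - 1) + 48 + 72 * (x - 1) * s / g) ≤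
        x ^ 2 * (g - 3) := by
  obtain ⟨b, hb⟩ : ∃ b, b = g - 30 := ⟨_, rfl⟩
  rw [← hb] at h5
  have hb0 : 0 ≤ b := by linarith
  have hbs : b ≤ s := by linarith
  have hs4 : 0 < s ^ 4 := by positivity
  have s1 : (50 : ℝ) ^ 5 ≤ s := by
    have h3 : b ^ 5 ≤ s ^ 5 := pow_le_pow_left₀ hb0 hbs 5
    have h4 : 50 ^ 5 * s ^ 4 ≤ s * s ^ 4 := by
      calc 50 ^ 5 * s ^ 4 ≤ b ^ 5 := h5
        _ ≤ s ^ 5 := h3
        _ = s * s ^ 4 := by ring
    exact le_of_mul_le_mul_right h4 hs4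
  have b1 : (50 : ℝ) ^ 5 ≤ b := by
    have hb5 : 0 < b ^ 5 := lt_of_lt_of_le (by positivity) h5
    have hbp : 0 < b := by
      rcases hb0.eq_or_lt with h3 | h3
      · rw [← h3] at hb5
        norm_num at hb5
      · exact h3
    have h3 : b ^ 4 ≤ s ^ 4 := pow_le_pow_left₀ hb0 hbs 4
    have h4 : 50 ^ 5 * b ^ 4 ≤ b * b ^ 4 := by
      calc 50 ^ 5 * b ^ 4 ≤ 50 ^ 5 * s ^ 4 := by gcongr
        _ ≤ b ^ 5 := h5
        _ = b * b ^ 4 := by ring
    exact le_of_mul_le_mul_right h4 (by positivity)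
  have hgb : b ≤ g := by linarith
  have g1 : (50 : ℝ) ^ 5 ≤ g := b1.trans hgb
  have hg5 : 50 ^ 5 * s ^ 4 ≤ g ^ 5 := h5.trans (pow_le_pow_left₀ hb0 hgb 5)
  norm_num at s1 g1 hg5
  have hgp : 0 < g := by linarith
  have hx2 : 0 ≤ x ^ 2 := sq_nonneg x
  -- `g x² ≥ 312 s²`
  have h3 : g ^ 4 ≤ 1000000 * s ^ 2 * x ^ 2 := by
    have h4 : (g ^ 2) ^ 2 ≤ (1000 * s * x) ^ 2 := pow_le_pow_left₀ (by positivity) h2 2
    calc g ^ 4 = (g ^ 2) ^ 2 := by ring
      _ ≤ (1000 * s * x) ^ 2 := h4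
      _ = 1000000 * s ^ 2 * x ^ 2 := by ring
  have h4 : 312 * s ^ 2 ≤ g * x ^ 2 := by
    have h6 : (1000000 * s ^ 2) * (312 * s ^ 2) ≤ (1000000 * s ^ 2) * (g * x ^ 2) := by
      calc (1000000 * s ^ 2) * (312 * s ^ 2) = 312000000 * s ^ 4 := by ring
        _ ≤ 312500000 * s ^ 4 := by nlinarith
        _ ≤ g ^ 5 := hg5
        _ = g * g ^ 4 := by ring
        _ ≤ g * (1000000 * s ^ 2 * x ^ 2) := by gcongr
        _ = (1000000 * s ^ 2) * (g * x ^ 2) := by ring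
    exact le_of_mul_le_mul_left h6 (by positivity)
  have h7 : g ≤ 101 / 100 * s := by linarith
  have h8 : 8 * s ≤ x ^ 2 := by
    have h9 : 312 * s ^ 2 ≤ 101 / 100 * s * x ^ 2 :=
      h4.trans (mul_le_mul_of_nonneg_right h7 hx2)
    have h10 : s * (8 * s) ≤ s * x ^ 2 := by nlinarith
    exact le_of_mul_le_mul_left h10 hs
  refine ⟨by linarith, h8, ?_⟩
  have h9 : (x - 1) * s / g ≤ g / 1000 := by
    rw [div_le_iff₀ hgp]
    nlinarith
  have h10 : 1000 * (x - 1) ≤ 101 / 100 * g := by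
    have h11 : s * (1000 * (x - 1)) ≤ s * (101 / 100 * g) := by
      calc s * (1000 * (x - 1)) = 1000 * s * (x - 1) := by ring
        _ ≤ g ^ 2 := h1
        _ = g * g := by ring
        _ ≤ (101 / 100 * s) * g := mul_le_mul_of_nonneg_right h7 hgp.le
        _ = s * (101 / 100 * g) := by ring
    exact le_of_mul_le_mul_left h11 hs
  have h11 : 288 * (x - 1) + 48 + 72 * (x - 1) * s / g ≤ 365 / 1000 * g - 3 := by
    have h12 : 72 * (x - 1) * s / g = 72 * ((x - 1) * s / g) := by ring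
    rw [h12]
    linarith
  have h12 : x ^ 2 * (288 * (x - 1) + 48 + 72 * (x - 1) * s / g) ≤
      x ^ 2 * (365 / 1000 * g - 3) := mul_le_mul_of_nonneg_left h11 hx2
  nlinarith

/-- Bounds for `f(n, s)`. -/
theorem thr_two {n s : ℕ} (h : 3 * s + 3 ≤ n) : 2 * (s : ℝ) ≤ thr n s := by
  have hn : s + 1 ≤ n := by omega
  have h1 := thr_ge hn
  have h2 := thr_sq hn
  have hs : (0 : ℝ) ≤ s := Nat.cast_nonneg s
  have hn' : 3 * (s : ℝ) + 3 ≤ n := by exact_mod_cast h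
  by_contra hcon
  rw [not_le] at hcon
  have h6 : (s : ℝ) * (2 * s + 2) ≤ s * ((n : ℝ) - 1 - s) :=
    mul_le_mul_of_nonneg_left (by linarith) hs
  have h0 := thr_nonneg hn
  rcases hs.eq_or_lt with h7 | h7
  · rw [← h7] at hcon
    linarith
  · have h8 : thr n s * (thr n s - s + 1) ≤ 2 * s * (thr n s - s + 1) :=
      mul_le_mul_of_nonneg_right hcon.le (by linarith)
    have h9 : 2 * (s : ℝ) * (thr n s - s + 1) < 2 * s * (s + 1) :=
      mul_lt_mul_of_pos_left (by linarith) (by linarith)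
    nlinarith

theorem thr_ten {n s : ℕ} (hs : 1000 ≤ s) (h : n ≤ 4 * s + 30) (hn : s + 1 ≤ n) :
    thr n s ≤ 10 * (s : ℝ) := by
  have h0 := thr_nonneg hn
  have h2 := thr_sq hn
  have hs : (1000 : ℝ) ≤ s := by exact_mod_cast hs
  have hn' : (n : ℝ) ≤ 4 * (s : ℝ) + 30 := by exact_mod_cast h
  by_contra hcon
  rw [not_le] at hcon
  have h6 : s * ((n : ℝ) - 1 - s) ≤ (s : ℝ) * (3 * s + 29) :=
    mul_le_mul_of_nonneg_left (by linarith) (by linarith)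
  nlinarith

theorem thr_mono {n s s' : ℕ} (h : s' ≤ s) (hn : 3 * s + 3 ≤ n) : thr n s' ≤ thr n s := by
  unfold thr
  have h1 : (s' : ℝ) ≤ s := by exact_mod_cast h
  have h2 : 3 * (s : ℝ) + 3 ≤ n := by exact_mod_cast hn
  have h3 : (0 : ℝ) ≤ s' := Nat.cast_nonneg _
  have h4 : Real.sqrt (((s' : ℝ) - 1) ^ 2 + 4 * s' * ((n : ℝ) - s' - 1)) ≤
      Real.sqrt (((s : ℝ) - 1) ^ 2 + 4 * s * ((n : ℝ) - s - 1)) := by
    refine Real.sqrt_le_sqrt ?_
    have h5 : 0 ≤ ((s : ℝ) - s') * (4 * n - 6 - 3 * (s + s')) :=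
      mul_nonneg (by linarith) (by linarith)
    nlinarith
  linarith

/-- The convexity step. -/
theorem num_conv {f n s k c z e : ℝ} (hf : 2 * s ≤ f) (hf2 : f ≤ 10 * s) (hk : 0 ≤ k)
    (hks : k ≤ s) (hc : 0 ≤ c) (hck : c ≤ k) (hz : 0 ≤ z) (hzk : z ≤ k + c)
    (he : e ≤ 2 * (k + c - z) * (2 * (k + c - z) + 1)) :
    z * (f + 1 + s + 2 * k - z) + e ≤
      k * (f + n - 1 - 2 * s + k) - k * (n - 3 * s - 3) + c * (12 * s + 2) := by
  have h1 : z * (f + 1 + s + 2 * k - z) + e ≤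
      (k + c - z) * (4 * (k + c) + 2) + z * (f + 1 + s + k - c) := by
    nlinarith [mul_nonneg hz (sub_nonneg.2 hzk)]
  obtain ⟨X, hX⟩ : ∃ X, X = max (4 * (k + c) + 2) (f + 1 + s + k - c) := ⟨_, rfl⟩
  have x1 : 4 * (k + c) + 2 ≤ X := hX ▸ le_max_left _ _
  have x2 : f + 1 + s + k - c ≤ X := hX ▸ le_max_right _ _
  have h2 : (k + c - z) * (4 * (k + c) + 2) + z * (f + 1 + s + k - c) ≤ (k + c) * X := by
    have h3 := mul_le_mul_of_nonneg_left x1 (sub_nonneg.2 hzk)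
    have h4 := mul_le_mul_of_nonneg_left x2 hz
    nlinarith
  have h3 : (k + c) * X ≤ k * (f + s + k + 2) + c * (12 * s + 2) := by
    rcases le_total (4 * (k + c) + 2) (f + 1 + s + k - c) with h4 | h4
    · rw [hX, max_eq_right h4]
      have h5 : (k + c) * (f + 1 + s + k - c) ≤ (k + c) * (f + 1 + s + k) :=
        mul_le_mul_of_nonneg_left (by linarith) (by linarith)
      have h6 : c * (f + 1 + s + k) ≤ c * (12 * s + 2) :=
        mul_le_mul_of_nonneg_left (by linarith) hc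
      nlinarith
    · rw [hX, max_eq_left h4]
      have h5 : c * (8 * k + 4 * c + 2) ≤ c * (12 * s + 2) :=
        mul_le_mul_of_nonneg_left (by linarith) hc
      have h6 : k * (4 * k + 2) ≤ k * (f + s + k + 2) :=
        mul_le_mul_of_nonneg_left (by linarith) hk
      nlinarith
  calc z * (f + 1 + s + 2 * k - z) + e ≤ _ := h1
    _ ≤ _ := h2
    _ ≤ _ := h3
    _ = _ := by ring

/-- The end of the proof. -/
theorem numQ {n s g k r p l z : ℕ} {E e μ : ℝ} (hs : 0 < s) (hn : n = 3 * s + g)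
    (hkr : k + r = s) (hg : g ≤ s + 30) (hg0 : 30 ≤ g)
    (h5 : (50 : ℝ) ^ 5 * (s : ℝ) ^ 4 ≤ ((g : ℝ) - 30) ^ 5)
    (hp1 : 1000 * s * p ≤ g ^ 2) (hp2 : g ^ 2 ≤ 1000 * s * (p + 1)) (hl : l * (p + 1) ≤ 2 * k)
    (hz : z ≤ k + 2 * l ^ 2)
    (he : e ≤ 2 * ((k : ℝ) + 2 * l ^ 2 - z) * (2 * ((k : ℝ) + 2 * l ^ 2 - z) + 1))
    (hE : E * g ≤ e * g + 12 * k * (24 * p + 4) * g + 18 * k * s * (4 * p)) (hμ : thr n s < μ)
    (hsp : μ * (μ + 1 - r) ≤ r * ((n : ℝ) - 1 - r) + z * (μ + 1 - r + (3 * k + 2 * r - z)) + E) :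
    False := by
  have cs : (0 : ℝ) < s := by exact_mod_cast hs
  have cg0 : (30 : ℝ) ≤ g := by exact_mod_cast hg0
  have cg : (g : ℝ) ≤ s + 30 := by exact_mod_cast hg
  have cp1 : 1000 * (s : ℝ) * p ≤ (g : ℝ) ^ 2 := by exact_mod_cast hp1
  have cp2 : (g : ℝ) ^ 2 ≤ 1000 * s * (p + 1) := by exact_mod_cast hp2
  have cn : (n : ℝ) = 3 * s + g := by exact_mod_cast hn
  have ckr : (k : ℝ) + r = s := by exact_mod_cast hkr
  have ck : (0 : ℝ) ≤ k := Nat.cast_nonneg k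
  have cr : (0 : ℝ) ≤ r := Nat.cast_nonneg r
  have cp : (0 : ℝ) ≤ p := Nat.cast_nonneg p
  have cz : (0 : ℝ) ≤ z := Nat.cast_nonneg z
  have cl : (0 : ℝ) ≤ l := Nat.cast_nonneg l
  have cll : (l : ℝ) * (p + 1) ≤ 2 * k := by exact_mod_cast hl
  have czk : (z : ℝ) ≤ k + 2 * (l : ℝ) ^ 2 := by exact_mod_cast hz
  obtain ⟨x, hx⟩ : ∃ x : ℝ, x = p + 1 := ⟨_, rfl⟩
  have hxp : (p : ℝ) = x - 1 := by linarith
  obtain ⟨q1, q2, q3⟩ := num_par cs cg0 cg (x := x) h5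
    (by rw [← hxp]; exact cp1) (by rw [hx]; exact cp2)
  have q1' : 1000 ≤ s := by exact_mod_cast q1
  have f2 := thr_two (n := n) (s := s) (by omega)
  have f3 := thr_ten (n := n) (s := s) q1' (by omega) (by omega)
  have f4 := thr_sq (n := n) (s := s) (by omega)
  obtain ⟨f, hf⟩ : ∃ f, f = thr n s := ⟨_, rfl⟩
  rw [← hf] at f2 f3 f4 hμ
  obtain ⟨c, hc⟩ : ∃ c : ℝ, c = 2 * (l : ℝ) ^ 2 := ⟨_, rfl⟩
  rw [← hc] at he czk
  have c0 : 0 ≤ c := by rw [hc]; positivity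
  have hx1 : 1 ≤ x := by linarith
  have hx2 : 0 < x ^ 2 := by positivity
  have hgp : (0 : ℝ) < g := by linarith
  have c1 : c * x ^ 2 ≤ 8 * (k : ℝ) ^ 2 := by
    rw [← hx] at cll
    have h1 : ((l : ℝ) * x) ^ 2 ≤ (2 * k) ^ 2 := pow_le_pow_left₀ (by positivity) cll 2
    rw [hc]
    nlinarith
  have cks : (k : ℝ) ≤ s := by linarith
  have hck : c ≤ k := by
    have h1 : c * x ^ 2 ≤ k * x ^ 2 := by
      refine c1.trans ?_
      have h2 : (k : ℝ) * (8 * k) ≤ k * x ^ 2 :=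
        mul_le_mul_of_nonneg_left (by linarith) ck
      nlinarith
    exact le_of_mul_le_mul_right h1 hx2
  have hconv := num_conv (n := n) f2 f3 ck cks c0 hck cz czk he
  have hr : (r : ℝ) = s - k := by linarith
  -- replace `μ` by `f`
  have h1 : (k : ℝ) * (f + n - 1 - 2 * s + k) < z * (f + 1 + s + 2 * k - z) + E := by
    have h2 : 0 < (μ - f) * (μ + f + 1 - r - z) := by
      refine mul_pos (by linarith) ?_
      have : (z : ℝ) ≤ 2 * s := by linarith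
      linarith
    have h3 : f * (f + 1 - r) = k * f + s * ((n : ℝ) - 1 - s) := by
      rw [hr]
      linear_combination f4
    have h4 : (r : ℝ) * ((n : ℝ) - 1 - r) =
        s * ((n : ℝ) - 1 - s) - k * ((n : ℝ) - 1 - 2 * s + k) := by
      rw [hr]
      ring
    rw [h4] at hsp
    rw [hr] at hsp h2 h3
    nlinarith
  have h2 : E ≤ e + 12 * k * (24 * p + 4) + 72 * k * (p * s / g) := by
    have h3 : E * g ≤ (e + 12 * k * (24 * p + 4) + 72 * k * (p * s / g)) * g := by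
      refine hE.trans (le_of_eq ?_)
      field_simp
      ring
    exact le_of_mul_le_mul_right h3 hgp
  have h3 : (k : ℝ) * (g - 3) < c * (12 * s + 2) + 12 * k * (24 * p + 4) +
      72 * k * (p * s / g) := by
    have h4 : (n : ℝ) - 3 * s - 3 = g - 3 := by rw [cn]; ring
    rw [h4] at hconv
    linarith
  -- multiply with `x²`
  have h4 : x ^ 2 * (k * (g - 3)) < x ^ 2 * (c * (12 * s + 2) + 12 * k * (24 * p + 4) +
      72 * k * (p * s / g)) := mul_lt_mul_of_pos_left h3 hx2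
  have h5' : x ^ 2 * (c * (12 * s + 2)) ≤ k * (8 * s * (12 * s + 2)) := by
    have h6 : c * x ^ 2 ≤ 8 * (k * s) := by nlinarith
    have h7 : c * x ^ 2 * (12 * s + 2) ≤ 8 * (k * s) * (12 * s + 2) :=
      mul_le_mul_of_nonneg_right h6 (by linarith)
    nlinarith
  have h6 : (k : ℝ) * (8 * s * (12 * s + 2) + x ^ 2 * (288 * (x - 1) + 48 + 72 * (x - 1) * s / g))
      ≤ k * (x ^ 2 * (g - 3)) := mul_le_mul_of_nonneg_left q3 ck
  rw [← hxp] at h6
  have h7 : x ^ 2 * (12 * k * (24 * p + 4) + 72 * k * (p * s / g)) =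
      k * (x ^ 2 * (288 * p + 48 + 72 * p * s / g)) := by
    have : 72 * (p : ℝ) * s / g = 72 * (p * s / g) := by ring
    rw [this]
    ring
  nlinarith

end Pool.MP_62c2ba
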