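import Pool.Agent.H.MP_62c2ba_co.TutA

/-! # A consequence of Tutte's theorem -/

set_option autoImplicit false

open Finset

namespace Pool.MP_62c2ba

theorem sum_inj {X Y : Type} [Fintype X] [Fintype Y] [DecidableEq X] (i : Y → X)
    (hi : Function.Injective i) (F : X → ℕ) : ∑ y, F (i y) ≤ ∑ x, F x := by
  have h := Finset.sum_map (univ : Finset Y) ⟨i, hi⟩ F
  change ∑ x ∈ Finset.map ⟨i, hi⟩ univ, F x = ∑ y, F (i y) at h
  rw [← h]
  exact Finset.sum_le_sum_of_subset (Finset.subset_univ _)

theorem berge {V : Type} [Fintype V] [DecidableEq V] (G : SimpleGraph V) [DecidableRel G.Adj]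
    (k : ℕ) (hk : ∀ N f, Mt G N f → N.card ≤ k) : ∃ Z : Finset V, Z.card ≤ k ∧
      ∑ x ∈ Zᶜ, ∑ y ∈ Zᶜ, (if G.Adj x y then 1 else 0) ≤
        2 * (k - Z.card) * (2 * (k - Z.card) + 1) := by
  classical
  obtain ⟨w, hw⟩ : ∃ w, w = Fintype.card V := ⟨_, rfl⟩
  by_cases hw2 : w ≤ 2 * k + 1
  · refine ⟨∅, Nat.zero_le _, ?_⟩
    have h1 : ∀ x : V, ∑ y, (if G.Adj x y then 1 else 0) ≤ w - 1 := by
      intro x
      rw [← Finset.card_filter]
      have h2 : univ.filter (fun y => G.Adj x y) ⊆ univ.erase x := by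
        intro y hy
        rw [Finset.mem_filter] at hy
        exact Finset.mem_erase.2 ⟨hy.2.ne.symm, Finset.mem_univ _⟩
      refine (Finset.card_le_card h2).trans ?_
      rw [Finset.card_erase_of_mem (Finset.mem_univ x), Finset.card_univ, hw]
    rw [Finset.compl_empty, Finset.card_empty, Nat.sub_zero]
    refine (Finset.sum_le_sum fun x _ => h1 x).trans ?_
    rw [Finset.sum_const, Finset.card_univ, smul_eq_mul, ← hw]
    calc w * (w - 1) ≤ (2 * k + 1) * (2 * k) := Nat.mul_le_mul hw2 (by omega)
      _ = 2 * k * (2 * k + 1) := by ring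
  · push Not at hw2
    obtain ⟨d, hd⟩ : ∃ d, d + 2 * (k + 1) = w := ⟨w - 2 * (k + 1), by omega⟩
    have hcW : Fintype.card (V ⊕ Fin d) = w + d := by
      rw [Fintype.card_sum, Fintype.card_fin, hw]
    have heven : Even (Nat.card (V ⊕ Fin d)) := by
      rw [Nat.card_eq_fintype_card, hcW]
      exact ⟨d + (k + 1), by omega⟩
    have hno : ∀ M : (joinG G d).Subgraph, ¬ M.IsPerfectMatching := by
      intro M hM
      obtain ⟨N, f, hN, hc⟩ := mt_of_perfect G (d := d) (k := k + 1) (by omega) M hM
      have := hk N f hN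
      omega
    obtain ⟨u, hu⟩ := SimpleGraph.exists_isTutteViolator hno heven
    unfold SimpleGraph.IsTutteViolator at hu
    obtain ⟨D, hD⟩ : ∃ D, D = (⊤ : (joinG G d).Subgraph).deleteVerts u := ⟨_, rfl⟩
    rw [← hD] at hu
    have hDv : ∀ a, a ∈ D.verts ↔ a ∉ u := by
      intro a
      rw [hD, SimpleGraph.Subgraph.deleteVerts_verts]
      simp
    have hDb : ∀ a b : V ⊕ Fin d, a ∉ u → b ∉ u → (D.Adj a b ↔ (joinG G d).Adj a b) := by
      intro a b ha hb
      rw [hD, SimpleGraph.Subgraph.deleteVerts_adj]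
      simp [ha, hb]
    have hDa : ∀ a b : D.verts, D.coe.Adj a b ↔ (joinG G d).Adj a.1 b.1 := by
      intro a b
      rw [SimpleGraph.Subgraph.coe_adj]
      exact hDb _ _ ((hDv _).1 a.2) ((hDv _).1 b.2)
    obtain ⟨π, hπ⟩ : ∃ π : D.verts → D.coe.ConnectedComponent,
        π = D.coe.connectedComponentMk := ⟨_, rfl⟩
    have hπa : ∀ a b : D.verts, (joinG G d).Adj a.1 b.1 → π a = π b := by
      intro a b hab
      rw [hπ]
      exact SimpleGraph.ConnectedComponent.connectedComponentMk_eq_of_adj ((hDa a b).2 hab)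
    have : Fintype D.verts := Fintype.ofFinite _
    have : Fintype D.coe.ConnectedComponent := Fintype.ofFinite _
    have hodd : D.coe.oddComponents.ncard =
        (univ.filter (fun c => Odd (univ.filter (fun x => π x = c)).card)).card := by
      rw [← Set.ncard_coe_finset]
      congr 1
      ext c
      rw [Finset.coe_filter, Set.mem_ofPred_eq, Set.mem_ofPred_eq]
      have h1 : c.supp = ↑(univ.filter (fun x => π x = c)) := by
        ext x
        rw [Finset.coe_filter, Set.mem_ofPred_eq, hπ]
        simp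
      rw [h1, Set.ncard_coe_finset]
      simp
    have hcX : Fintype.card D.verts + u.ncard = w + d := by
      have h1 : Fintype.card D.verts = D.verts.ncard := by
        rw [← Nat.card_coe_set_eq, Nat.card_eq_fintype_card]
      have h2 : D.verts = uᶜ := by
        ext a
        rw [hDv]
        rfl
      rw [h1, h2, add_comm, Set.ncard_add_ncard_compl, Nat.card_eq_fintype_card, hcW]
    have hcc := cls_card π
    rw [hodd] at hu
    obtain ⟨o, ho⟩ : ∃ o, o = (univ.filter
      (fun c => Odd (univ.filter (fun x => π x = c)).card)).card := ⟨_, rfl⟩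
    obtain ⟨h, hh⟩ : ∃ h, h = ∑ c, (univ.filter (fun x => π x = c)).card / 2 := ⟨_, rfl⟩
    rw [← ho] at hu
    rw [← ho, ← hh] at hcc
    have hall : ∀ j : Fin d, (Sum.inr j : V ⊕ Fin d) ∈ u := by
      intro j
      by_contra hj
      have h1 : ∀ a : D.verts, π a = π ⟨Sum.inr j, (hDv _).2 hj⟩ := by
        intro a
        by_cases h2 : a.1 = Sum.inr j
        · congr 1
          exact Subtype.ext h2
        · refine hπa _ _ ⟨h2, fun x y _ hy => ?_⟩
          exact absurd hy (by simp)
      have h2 : ∀ c : D.coe.ConnectedComponent, c = π ⟨Sum.inr j, (hDv _).2 hj⟩ := by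
        intro c
        induction c using SimpleGraph.ConnectedComponent.ind with
        | _ v =>
          have h3 := h1 v
          rw [hπ] at h3 ⊢
          exact h3
      have h3 : o ≤ 1 := by
        rw [ho]
        refine Finset.card_le_one.2 fun a _ b _ => ?_
        rw [h2 a, h2 b]
      have h4 : o = 1 := by omega
      omega
    obtain ⟨Z, hZ⟩ : ∃ Z : Finset V, Z = univ.filter (fun x => (Sum.inl x : V ⊕ Fin d) ∈ u) :=
      ⟨_, rfl⟩
    have mZ : ∀ x, x ∈ Z ↔ (Sum.inl x : V ⊕ Fin d) ∈ u := by
      intro x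
      rw [hZ]
      simp
    have hu2 : Z.card + d ≤ u.ncard := by
      have h1 : (↑(Z.image (Sum.inl : V → V ⊕ Fin d) ∪
          univ.image (Sum.inr : Fin d → V ⊕ Fin d)) : Set (V ⊕ Fin d)) ⊆ u := by
        intro a ha
        rw [Finset.mem_coe, Finset.mem_union, Finset.mem_image, Finset.mem_image] at ha
        rcases ha with ⟨x, hx, rfl⟩ | ⟨j, -, rfl⟩
        · exact (mZ x).1 hx
        · exact hall j
      have h2 := Set.ncard_le_ncard h1
      rw [Set.ncard_coe_finset, Finset.card_union_of_disjoint, Finset.card_image_of_injective _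
        Sum.inl_injective, Finset.card_image_of_injective _ Sum.inr_injective,
        Finset.card_univ, Fintype.card_fin] at h2
      · exact h2
      · rw [Finset.disjoint_left]
        intro a h3 h4
        obtain ⟨x, -, rfl⟩ := Finset.mem_image.1 h3
        obtain ⟨j, -, h5⟩ := Finset.mem_image.1 h4
        exact absurd h5 (by simp)
    have hzk : Z.card ≤ k := by omega
    refine ⟨Z, hzk, ?_⟩
    have hhk : h ≤ k - Z.card := by omega
    have hcount := cls_count π (h := k - Z.card) (by rw [← hh]; exact hhk)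
    have e1 : ∀ F : V → ℕ, ∑ x ∈ Zᶜ, F x = ∑ x : {x : V // (Sum.inl x : V ⊕ Fin d) ∉ u}, F x.1 := by
      intro F
      exact Finset.sum_subtype _ (fun x => by rw [Finset.mem_compl, mZ]) F
    rw [e1]
    obtain ⟨i, hi⟩ : ∃ i : {x : V // (Sum.inl x : V ⊕ Fin d) ∉ u} → D.verts,
        i = fun x => ⟨Sum.inl x.1, (hDv _).2 x.2⟩ := ⟨_, rfl⟩
    have iinj : Function.Injective i := by
      intro x y hxy
      rw [hi] at hxy
      have h1 := congrArg Subtype.val hxy
      exact Subtype.ext (Sum.inl.inj h1)
    refine le_trans ?_ hcount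
    calc ∑ x : {x : V // (Sum.inl x : V ⊕ Fin d) ∉ u}, ∑ y ∈ Zᶜ, (if G.Adj x.1 y then 1 else 0)
        ≤ ∑ x : {x : V // (Sum.inl x : V ⊕ Fin d) ∉ u},
          (univ.filter (fun y => y ≠ i x ∧ π y = π (i x))).card := by
          refine Finset.sum_le_sum fun x _ => ?_
          rw [e1, Finset.card_filter]
          refine le_trans ?_ (sum_inj i iinj _)
          refine Finset.sum_le_sum fun y _ => ?_
          split_ifs with h1 h2 h2
          · exact le_rfl
          · exfalso
            apply h2
            have h3 : (joinG G d).Adj (i x).1 (i y).1 := by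
              rw [hi]
              refine ⟨fun h4 => h1.ne (Sum.inl.inj h4), fun a b ha hb => ?_⟩
              rw [← Sum.inl.inj ha, ← Sum.inl.inj hb]
              exact h1
            refine ⟨fun h4 => ?_, (hπa _ _ h3).symm⟩
            rw [h4] at h3
            exact h3.ne rfl
          · exact Nat.zero_le _
          · exact le_rfl
      _ ≤ ∑ x, (univ.filter (fun y => y ≠ x ∧ π y = π x)).card :=
          sum_inj i iinj (fun x => (univ.filter (fun y => y ≠ x ∧ π y = π x)).card)

end Pool.MP_62c2ba
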