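import Pool.Agent.H.MP_62c2ba_co.XcQ
import Pool.Agent.H.MP_62c2ba_co.NumQ
import Pool.Agent.H.MP_62c2ba_co.TutB
import Pool.Agent.H.MP_62c2ba_co.Main

/-! # Matchings in 3-graphs whose links have large spectral radius: the range `n ≥ 3 s + O(s^(4/5))` -/

set_option autoImplicit false

open Finset

namespace Pool.MP_62c2ba

theorem five_pow {s b : ℝ} (hs : 0 ≤ s) (h : 50 * s ^ ((4 : ℝ) / 5) ≤ b) :
    (50 : ℝ) ^ 5 * s ^ 4 ≤ b ^ 5 := by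
  have h1 : 0 ≤ s ^ ((4 : ℝ) / 5) := Real.rpow_nonneg hs _
  have h2 : (s ^ ((4 : ℝ) / 5)) ^ 5 = s ^ 4 := by
    rw [← Real.rpow_natCast (s ^ ((4 : ℝ) / 5)) 5, ← Real.rpow_mul hs, ← Real.rpow_natCast s 4]
    norm_num
  calc (50 : ℝ) ^ 5 * s ^ 4 = (50 * s ^ ((4 : ℝ) / 5)) ^ 5 := by rw [mul_pow, h2]
    _ ≤ b ^ 5 := pow_le_pow_left₀ (by positivity) h 5

theorem range_mono {s s' n : ℝ} (h0 : 0 ≤ s') (h : s' ≤ s)
    (hn : 3 * s + min s (50 * s ^ ((4 : ℝ) / 5)) + 30 ≤ n) :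
    3 * s' + min s' (50 * s' ^ ((4 : ℝ) / 5)) + 30 ≤ n := by
  have h1 : s' ^ ((4 : ℝ) / 5) ≤ s ^ ((4 : ℝ) / 5) := Real.rpow_le_rpow h0 h (by norm_num)
  have h2 : min s' (50 * s' ^ ((4 : ℝ) / 5)) ≤ min s (50 * s ^ ((4 : ℝ) / 5)) :=
    min_le_min h (by linarith)
  linarith

variable {V : Type} [Fintype V] [DecidableEq V]

theorem sumZ {G : SimpleGraph V} [DecidableRel G.Adj] {Z0 Q : Finset V}
    (hQ : ∀ w w', G.Adj w w' → w ∈ Q) :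
    ∑ w ∈ (Z0 ∩ Q)ᶜ, ∑ w' ∈ (Z0 ∩ Q)ᶜ, (if G.Adj w w' then 1 else 0) ≤
      ∑ w ∈ Z0ᶜ, ∑ w' ∈ Z0ᶜ, (if G.Adj w w' then 1 else 0) := by
  have hsub : Z0ᶜ ⊆ (Z0 ∩ Q)ᶜ := by
    intro w hw
    rw [Finset.mem_compl] at hw ⊢
    exact fun h => hw (Finset.mem_inter.1 h).1
  have hno : ∀ w ∈ (Z0 ∩ Q)ᶜ, w ∉ Z0ᶜ → ∀ w', ¬ G.Adj w w' := by
    intro w h1 h2 w' h3
    rw [Finset.mem_compl] at h1 h2
    exact h1 (Finset.mem_inter.2 ⟨not_not.1 h2, hQ w w' h3⟩)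
  refine le_of_eq ?_
  rw [← Finset.sum_subset hsub]
  · refine Finset.sum_congr rfl fun w _ => ?_
    rw [← Finset.sum_subset hsub]
    intro w' h1 h2
    rw [if_neg]
    exact fun h3 => hno w' h1 h2 w h3.symm
  · intro w h1 h2
    refine Finset.sum_eq_zero fun w' _ => ?_
    rw [if_neg (hno w h1 h2 w')]

theorem mainQ (s : ℕ) (H : Finset (Finset V)) (h3 : ∀ e ∈ H, e.card = 3)
    (hn : 3 * (s : ℝ) + min (s : ℝ) (50 * (s : ℝ) ^ ((4 : ℝ) / 5)) + 30 ≤ Fintype.card V)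
    (hρ : ∀ v : V, ∃ μ ∈ spectrum ℝ ((link H v).adjMatrix ℝ), thr (Fintype.card V) s < μ) :
    ∃ M ⊆ H, M.card = s + 1 ∧ ∀ e ∈ M, ∀ f ∈ M, e ≠ f → Disjoint e f := by
  obtain ⟨n, hnV⟩ : ∃ n, n = Fintype.card V := ⟨_, rfl⟩
  rw [← hnV] at hn hρ
  have hmin0 : ∀ t : ℕ, (0 : ℝ) ≤ min (t : ℝ) (50 * (t : ℝ) ^ ((4 : ℝ) / 5)) := by
    intro t
    positivity
  have hn3 : 3 * s + 30 ≤ n := by
    have h1 := hmin0 s
    have h2 : 3 * (s : ℝ) + 30 ≤ n := by linarith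
    exact_mod_cast h2
  have hne : Nonempty V := Fintype.card_pos_iff.1 (by omega)
  obtain ⟨x0⟩ := hne
  obtain ⟨M0, R0, ctr0, h0⟩ := exists_cfgQ 0 H h3 x0
  obtain ⟨ν, hν⟩ : ∃ ν, ν = M0.card := ⟨_, rfl⟩
  by_cases hM : s + 1 ≤ M0.card
  · obtain ⟨M', hM', hc⟩ := Finset.exists_subset_card_eq hM
    exact ⟨M', hM'.trans h0.mm.sub, hc, fun e he f hf => h0.mm.dj e (hM' he) f (hM' hf)⟩
  exfalso
  have hνs : ν ≤ s := by omega
  have hnν := range_mono (Nat.cast_nonneg ν) (by exact_mod_cast hνs : (ν : ℝ) ≤ s) hn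
  have hρν : ∀ v : V, ∃ μ ∈ spectrum ℝ ((link H v).adjMatrix ℝ), thr n ν < μ := by
    intro v
    obtain ⟨μ, h1, h2⟩ := hρ v
    exact ⟨μ, h1, (thr_mono hνs (by omega)).trans_lt h2⟩
  by_cases h4 : 4 * ν + 30 ≤ n
  · obtain ⟨M', h5, h6, h7⟩ := main ν H h3 (by rw [← hnV]; exact h4)
      (by rw [← hnV]; exact hρν)
    have h8 := h0.mm.mx M' h5 h7
    omega
  rw [not_le] at h4
  have hν0 : 0 < ν := by
    rcases Nat.eq_zero_or_pos ν with h5 | h5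
    · omega
    · exact h5
  obtain ⟨g, hg⟩ : ∃ g, n = 3 * ν + g := ⟨n - 3 * ν, by omega⟩
  have cg : (n : ℝ) = 3 * ν + g := by exact_mod_cast hg
  have hg1 : g < ν + 30 := by omega
  have cg1 : (g : ℝ) < ν + 30 := by exact_mod_cast hg1
  have hg5 : (50 : ℝ) ^ 5 * (ν : ℝ) ^ 4 ≤ ((g : ℝ) - 30) ^ 5 := by
    refine five_pow (Nat.cast_nonneg ν) ?_
    rcases le_total (ν : ℝ) (50 * (ν : ℝ) ^ ((4 : ℝ) / 5)) with h5 | h5
    · rw [min_eq_left h5] at hnν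
      linarith
    · rw [min_eq_right h5] at hnν
      linarith
  have hg30 : 30 ≤ g := by omega
  obtain ⟨p, hp⟩ : ∃ p, p = g ^ 2 / (1000 * ν) := ⟨_, rfl⟩
  have hp1 : 1000 * ν * p ≤ g ^ 2 := by
    rw [hp]
    exact Nat.mul_div_le _ _
  have hp2 : g ^ 2 ≤ 1000 * ν * (p + 1) := by
    rw [hp]
    exact (Nat.lt_mul_div_succ _ (by omega)).le
  have hpar := num_par (s := (ν : ℝ)) (g := (g : ℝ)) (x := (p : ℝ) + 1) (by exact_mod_cast hν0)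
    (by exact_mod_cast hg30) cg1.le hg5 (by rw [add_sub_cancel_right]; exact_mod_cast hp1)
    (by exact_mod_cast hp2)
  have hp0 : 1 ≤ p := by
    rcases Nat.eq_zero_or_pos p with h5 | h5
    · exfalso
      have h6 := hpar.1
      have h7 := hpar.2.1
      rw [h5] at h7
      norm_num at h7
      linarith
    · exact h5
  obtain ⟨M, R, ctr, h⟩ := exists_cfgQ (24 * p + 4) H h3 x0
  have hMν : M.card = ν := by
    have h5 := h.mm.mx M0 h0.mm.sub h0.mm.dj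
    have h6 := h0.mm.mx M h.mm.sub h.mm.dj
    omega
  have hout := card_out h.mm
  rw [hMν, ← hnV] at hout
  have hkr : (M \ R).card + R.card = ν := by
    rw [← hMν]
    exact Finset.card_sdiff_add_card_eq_card h.rs
  have houtg : (out M).card = g := by omega
  obtain ⟨l, hl⟩ : ∃ l, l = 2 * (M \ R).card / (p + 1) := ⟨_, rfl⟩
  have hlp : l * (p + 1) ≤ 2 * (M \ R).card := by
    rw [hl]
    exact Nat.div_mul_le_self _ _
  obtain ⟨Z0, hZ1, hZ2⟩ := berge (PG (4 * p) H M R ctr) ((M \ R).card + 2 * l ^ 2) (by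
    intro N f hN
    obtain ⟨l', h5, h6⟩ := nuQ h hp0 (by omega) hN
    have h7 : l' ≤ l := by
      rw [hl]
      exact (Nat.le_div_iff_mul_le (by omega)).2 h5
    have h8 : l' ^ 2 ≤ l ^ 2 := Nat.pow_le_pow_left h7 2
    omega)
  obtain ⟨Q, hQ⟩ : ∃ Q, Q = PV M R ∪ BV R ctr := ⟨_, rfl⟩
  obtain ⟨Z, hZ⟩ : ∃ Z, Z = Z0 ∩ Q := ⟨_, rfl⟩
  have hsz := sumZ (G := PG (4 * p) H M R ctr) (Z0 := Z0) (Q := Q) (by
    intro w w' h5
    rw [hQ]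
    exact h5.2.2.1.1)
  rw [← hZ] at hsz
  have hZc : Z.card ≤ Z0.card := by
    rw [hZ]
    exact Finset.card_le_card Finset.inter_subset_left
  obtain ⟨v, hv, hgood⟩ := goodQ (t := 4 * p) (by omega : 4 ≤ 24 * p + 4) h Z (by omega)
  rw [← hQ] at hgood
  have hA : (R.image ctr).card = R.card := by
    refine Finset.card_image_of_injOn fun F hF F' hF' he => ?_
    by_contra hne
    refine Finset.disjoint_left.1 (h.mm.dj F (h.rs hF) F' (h.rs hF') hne) (h.rc F hF).1 ?_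
    have h1 := (h.rc F' hF').1
    rwa [← he] at h1
  have hvA : v ∉ R.image ctr := by
    intro h1
    obtain ⟨F, hF, rfl⟩ := Finset.mem_image.1 h1
    exact mem_out.1 hv F (h.rs hF) (h.rc F hF).1
  have hQA : ∀ i ∈ Q, i ∉ R.image ctr ∧ i ≠ v := by
    intro i hi
    rw [hQ, Finset.mem_union, mem_PV, mem_BV] at hi
    rcases hi with ⟨E, hE, hiE⟩ | ⟨F, hF, hiF, hic⟩
    · obtain ⟨hEM, hER⟩ := Finset.mem_sdiff.1 hE
      refine ⟨fun h1 => ?_, fun h1 => mem_out.1 hv E hEM (h1 ▸ hiE)⟩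
      obtain ⟨F, hF, hFi⟩ := Finset.mem_image.1 h1
      have h2 := (h.rc F hF).1
      rw [hFi] at h2
      exact Finset.disjoint_left.1 (h.mm.dj E hEM F (h.rs hF) fun h5 => hER (h5 ▸ hF)) hiE h2
    · refine ⟨fun h1 => ?_, fun h1 => mem_out.1 hv F (h.rs hF) (h1 ▸ hiF)⟩
      obtain ⟨F', hF', hFi⟩ := Finset.mem_image.1 h1
      have h2 := (h.rc F' hF').1
      rw [hFi] at h2
      have h5 : F ≠ F' := fun h5 => hic (by rw [h5, hFi])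
      exact Finset.disjoint_left.1 (h.mm.dj F (h.rs hF) F' (h.rs hF') h5) hiF h2
  obtain ⟨μ, hμ, hlt⟩ := hρν v
  have hμ0 : 0 ≤ μ := (thr_nonneg (by omega)).trans hlt.le
  have hsp := specZ H v (R.image ctr) hvA Z Q (by rw [hZ]; exact Finset.inter_subset_right) hQA μ
    hμ0 hμ
  rw [hA, ← hnV] at hsp
  obtain ⟨k, hk⟩ : ∃ k, k = (M \ R).card := ⟨_, rfl⟩
  obtain ⟨r, hr⟩ : ∃ r, r = R.card := ⟨_, rfl⟩
  obtain ⟨e, he⟩ : ∃ e, e = ∑ w ∈ Zᶜ, ∑ w' ∈ Zᶜ,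
    (if (PG (4 * p) H M R ctr).Adj w w' then 1 else 0) := ⟨_, rfl⟩
  obtain ⟨E, hE⟩ : ∃ E, E = ∑ w ∈ (R.image ctr)ᶜ, ∑ w' ∈ (R.image ctr)ᶜ,
    tr H v w w' * ex Z Q w w' := ⟨_, rfl⟩
  rw [← hE, ← he, houtg, ← hk, ← hr] at hgood
  rw [← hE, ← hr] at hsp
  rw [← hk, ← hr] at hkr
  rw [← hk] at hlp hZ1 hZ2
  rw [← he] at hsz
  have hcQ : (Q.card : ℝ) ≤ 3 * k + 2 * r := by
    have h5 : Q.card ≤ 3 * k + 2 * r := by
      rw [hQ, hk, hr]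
      refine (Finset.card_union_le _ _).trans ?_
      exact Nat.add_le_add (card_PV h) (card_BV h)
    exact_mod_cast h5
  have hZk : Z.card ≤ k + 2 * l ^ 2 := hZc.trans hZ1
  refine numQ (n := n) (s := ν) (g := g) (k := k) (r := r) (p := p) (l := l) (z := Z.card)
    (E := (E : ℝ)) (e := (e : ℝ)) (μ := μ) hν0 hg hkr (by omega) hg30 hg5 hp1 hp2 hlp hZk ?_ ?_
    hlt ?_
  · have h5 : e ≤ 2 * (k + 2 * l ^ 2 - Z.card) * (2 * (k + 2 * l ^ 2 - Z.card) + 1) := by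
      refine hsz.trans (hZ2.trans ?_)
      have h6 : k + 2 * l ^ 2 - Z0.card ≤ k + 2 * l ^ 2 - Z.card := Nat.sub_le_sub_left hZc _
      exact Nat.mul_le_mul (Nat.mul_le_mul_left 2 h6) (by omega)
    have h6 : ((k + 2 * l ^ 2 - Z.card : ℕ) : ℝ) = (k : ℝ) + 2 * l ^ 2 - Z.card := by
      rw [Nat.cast_sub hZk]
      push_cast
      ring
    rw [← h6]
    exact_mod_cast h5
  · have h5 : E * g ≤ e * g + 12 * k * (24 * p + 4) * g + 18 * k * ν * (4 * p) := by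
      rw [← hkr]
      exact hgood
    exact_mod_cast h5
  · refine hsp.trans ?_
    have h5 : (Z.card : ℝ) * (μ + 1 - r + (Q.card - Z.card)) ≤
        Z.card * (μ + 1 - r + (3 * k + 2 * r - Z.card)) :=
      mul_le_mul_of_nonneg_left (by linarith) (Nat.cast_nonneg _)
    linarith

end Pool.MP_62c2ba
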