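import Mathlib

/-! # Contracted pieces -/

set_option autoImplicit false

open Finset

namespace Pool.MP_62c2ba

theorem pieces2 {γ β : Type} [DecidableEq γ] [DecidableEq β] (Cl : Finset γ) (w e : γ → ℕ)
    (X : Finset β) (cols : β → Finset γ) (p : ℕ) (hc2 : ∀ x ∈ X, (cols x).card = 2)
    (hcs : ∀ x ∈ X, cols x ⊆ Cl) (hw : ∀ a ∈ Cl, e a ≤ w a ∧ w a ≤ e a + 1 ∧ w a ≤ p)
    (hno : ∀ x ∈ X, p < ∑ a ∈ cols x, w a)
    (hH : ∀ J ⊆ Cl, ∑ a ∈ J, w a ≤ 4 * p →
      ∑ a ∈ J, e a + (X.filter (fun x => cols x ⊆ J)).card ≤ ∑ a ∈ J, w a) :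
    ∑ a ∈ Cl, e a + X.card ≤
      ∑ a ∈ Cl, w a + 2 * (Cl.filter (fun a => p < 2 * w a)).card ^ 2 := by
  classical
  obtain ⟨L, hL⟩ : ∃ L, L = Cl.filter (fun a => p < 2 * w a) := ⟨_, rfl⟩
  rw [← hL]
  have mL : ∀ a, a ∈ L ↔ a ∈ Cl ∧ p < 2 * w a := by
    intro a
    rw [hL, Finset.mem_filter]
  rcases X.eq_empty_or_nonempty with hX | ⟨x0, hx0⟩
  · rw [hX, Finset.card_empty, add_zero]
    exact (Finset.sum_le_sum fun a ha => (hw a ha).1).trans (Nat.le_add_right _ _)
  -- two small colours are impossible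
  have two : ∀ x ∈ X, ∀ a ∈ cols x, ∀ b ∈ cols x, a ≠ b → a ∉ L → b ∈ L := by
    intro x hx a ha b hb hab haL
    have h1 : cols x = {a, b} := by
      symm
      refine Finset.eq_of_subset_of_card_le ?_ ?_
      · intro y hy
        rcases Finset.mem_insert.1 hy with h2 | h2
        · rw [h2]; exact ha
        · rw [Finset.mem_singleton.1 h2]; exact hb
      · rw [hc2 x hx, Finset.card_pair hab]
    have h2 := hno x hx
    rw [h1, Finset.sum_pair hab] at h2
    rw [mL]
    rw [mL, not_and, not_lt] at haL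
    have h3 := haL (hcs x hx ha)
    exact ⟨hcs x hx hb, by omega⟩
  have exL : ∀ x ∈ X, ∃ a ∈ cols x, a ∈ L := by
    intro x hx
    obtain ⟨a, b, hab, h1⟩ := Finset.card_eq_two.1 (hc2 x hx)
    have ha : a ∈ cols x := by rw [h1]; simp
    have hb : b ∈ cols x := by rw [h1]; simp
    by_cases haL : a ∈ L
    · exact ⟨a, ha, haL⟩
    · exact ⟨b, hb, two x hx a ha b hb hab haL⟩
  have exO : ∀ x ∈ X, ∀ a ∈ cols x, ∃ b ∈ cols x, b ≠ a := by
    intro x hx a _
    exact Finset.exists_mem_ne (by rw [hc2 x hx]; norm_num) a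
  obtain ⟨a0, ha0, -⟩ := exL x0 hx0
  have : Nonempty γ := ⟨a0⟩
  have : Nonempty β := ⟨x0⟩
  choose! lg lg1 lg2 using exL
  have exO2 : ∀ x ∈ X, ∃ b ∈ cols x, b ≠ lg x := fun x hx => exO x hx _ (lg1 x hx)
  choose! ot ot1 ot2 using exO2
  have colsE : ∀ x ∈ X, ∀ b ∈ cols x, b = lg x ∨ b = ot x := by
    intro x hx b hb
    have h1 : cols x = {lg x, ot x} := by
      symm
      refine Finset.eq_of_subset_of_card_le ?_ ?_
      · intro y hy
        rcases Finset.mem_insert.1 hy with h2 | h2
        · rw [h2]; exact lg1 x hx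
        · rw [Finset.mem_singleton.1 h2]; exact ot1 x hx
      · rw [hc2 x hx, Finset.card_pair (ot2 x hx).symm]
    rw [h1] at hb
    simpa using hb
  obtain ⟨A, hA⟩ : ∃ A, A = (Cl \ L).filter (fun a => w a = e a + 1 ∧ ∃ x ∈ X, a ∈ cols x) :=
    ⟨_, rfl⟩
  have mA : ∀ a, a ∈ A ↔ (a ∈ Cl ∧ a ∉ L) ∧ w a = e a + 1 ∧ ∃ x ∈ X, a ∈ cols x := by
    intro a
    rw [hA, Finset.mem_filter, Finset.mem_sdiff]
  have exg : ∀ a ∈ A, ∃ x ∈ X, a ∈ cols x := fun a ha => ((mA a).1 ha).2.2
  choose! g g1 g2 using exg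
  have ginj : ∀ a ∈ A, ∀ b ∈ A, g a = g b → a = b := by
    intro a ha b hb hab
    by_contra hne
    have h1 := g2 b hb
    rw [← hab] at h1
    exact ((mA b).1 hb).1.2 (two (g a) (g1 a ha) a (g2 a ha) b h1 hne ((mA a).1 ha).1.2)
  obtain ⟨Ex, hEx⟩ : ∃ Ex, Ex = X \ A.image g := ⟨_, rfl⟩
  have hXc : X.card = A.card + Ex.card := by
    have h1 : A.image g ⊆ X := by
      intro x hx
      obtain ⟨a, ha, rfl⟩ := Finset.mem_image.1 hx
      exact g1 a ha
    have h2 : (A.image g).card = A.card := Finset.card_image_of_injOn fun a ha b hb h =>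
      ginj a ha b hb h
    have h3 := Finset.card_sdiff_add_card_eq_card h1
    rw [← hEx, h2] at h3
    omega
  have hsum : ∑ a ∈ Cl, e a + A.card ≤ ∑ a ∈ Cl, w a := by
    have h1 : A ⊆ Cl := fun a ha => ((mA a).1 ha).1.1
    rw [← Finset.sum_sdiff h1, ← Finset.sum_sdiff h1 (f := w), Finset.card_eq_sum_ones, add_assoc,
      ← Finset.sum_add_distrib]
    refine Nat.add_le_add (Finset.sum_le_sum fun a ha => (hw a (Finset.mem_sdiff.1 ha).1).1)
      (Finset.sum_le_sum fun a ha => ?_)
    rw [((mA a).1 ha).2.1]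
  obtain ⟨φ, hφ⟩ : ∃ φ : β → γ × γ, φ = fun x => (lg x,
      if ot x ∈ A then lg (g (ot x)) else if ot x ∈ L then ot x else lg x) := ⟨_, rfl⟩
  have hφL : ∀ x ∈ Ex, φ x ∈ L ×ˢ L := by
    intro x hx
    have hxX : x ∈ X := by
      rw [hEx] at hx
      exact (Finset.mem_sdiff.1 hx).1
    rw [hφ, Finset.mem_product]
    refine ⟨lg2 x hxX, ?_⟩
    dsimp only
    split_ifs with h1 h2
    · exact lg2 _ (g1 _ h1)
    · exact h2
    · exact lg2 x hxX
  have hfib : ∀ y ∈ Ex.image φ, (Ex.filter (fun x => φ x = y)).card ≤ 2 := by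
    intro y _
    by_contra hcon
    push Not at hcon
    rw [Finset.two_lt_card] at hcon
    obtain ⟨x1, h1, x2, h2, x3, h3, n12, n13, n23⟩ := hcon
    obtain ⟨l1, l2⟩ := y
    obtain ⟨T, hT⟩ : ∃ T : Finset β, T = {x1, x2, x3} := ⟨_, rfl⟩
    have hTc : T.card = 3 := by
      rw [hT, Finset.card_eq_three]
      exact ⟨x1, x2, x3, n12, n13, n23, rfl⟩
    have hTm : ∀ x ∈ T, x ∈ Ex ∧ φ x = (l1, l2) := by
      intro x hx
      rw [hT] at hx
      simp only [Finset.mem_insert, Finset.mem_singleton] at hx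
      rcases hx with rfl | rfl | rfl
      · exact Finset.mem_filter.1 h1
      · exact Finset.mem_filter.1 h2
      · exact Finset.mem_filter.1 h3
    have hTX : ∀ x ∈ T, x ∈ X ∧ x ∉ A.image g := by
      intro x hx
      have := (hTm x hx).1
      rw [hEx] at this
      exact Finset.mem_sdiff.1 this
    have hl : l1 ∈ L ∧ l2 ∈ L := by
      have h4 : x1 ∈ T := by rw [hT]; simp
      have h5 := hφL x1 (hTm x1 h4).1
      rw [(hTm x1 h4).2] at h5
      exact Finset.mem_product.1 h5
    obtain ⟨Sm, hSm⟩ : ∃ Sm, Sm = (T.image ot).filter (fun a => a ∉ L) := ⟨_, rfl⟩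
    obtain ⟨J, hJ⟩ : ∃ J, J = {l1, l2} ∪ Sm := ⟨_, rfl⟩
    have hSmm : ∀ a ∈ Sm, a ∉ L ∧ ∃ x ∈ T, ot x = a := by
      intro a ha
      rw [hSm, Finset.mem_filter, Finset.mem_image] at ha
      exact ⟨ha.2, ha.1⟩
    have hSmC : Sm ⊆ Cl := by
      intro a ha
      obtain ⟨-, x, hx, rfl⟩ := hSmm a ha
      exact hcs x (hTX x hx).1 (ot1 x (hTX x hx).1)
    have hJC : J ⊆ Cl := by
      rw [hJ]
      refine Finset.union_subset ?_ hSmC
      intro a ha
      rcases Finset.mem_insert.1 ha with h4 | h4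
      · rw [h4]; exact ((mL _).1 hl.1).1
      · rw [Finset.mem_singleton.1 h4]; exact ((mL _).1 hl.2).1
    have hdis : Disjoint ({l1, l2} : Finset γ) Sm := by
      rw [Finset.disjoint_left]
      intro a ha ha2
      have h4 := (hSmm a ha2).1
      rcases Finset.mem_insert.1 ha with h5 | h5
      · rw [h5] at h4; exact h4 hl.1
      · rw [Finset.mem_singleton.1 h5] at h4; exact h4 hl.2
    have hSc : Sm.card ≤ 3 := by
      rw [hSm, ← hTc]
      exact (Finset.card_filter_le _ _).trans Finset.card_image_le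
    have hsz : ∑ a ∈ J, w a ≤ 4 * p := by
      rw [hJ, Finset.sum_union hdis]
      have h4 : ∑ a ∈ ({l1, l2} : Finset γ), w a ≤ 2 * p := by
        refine (Finset.sum_le_card_nsmul _ _ p fun a ha => ?_).trans ?_
        · have h5 : a ∈ J := by rw [hJ]; exact Finset.mem_union_left _ ha
          exact (hw a (hJC h5)).2.2
        · rw [smul_eq_mul]
          exact Nat.mul_le_mul_right p Finset.card_le_two
      have h5 : 2 * ∑ a ∈ Sm, w a ≤ 3 * p := by
        rw [Finset.mul_sum]
        refine (Finset.sum_le_card_nsmul _ _ p fun a ha => ?_).trans ?_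
        · have h6 := (hSmm a ha).1
          rw [mL, not_and, not_lt] at h6
          exact h6 (hSmC ha)
        · rw [smul_eq_mul]
          exact Nat.mul_le_mul_right p hSc
      omega
    have hfin := hH J hJC hsz
    -- the deficits
    have hdef : ∑ a ∈ J, w a ≤ ∑ a ∈ J, e a + (2 + (Sm.filter (fun a => a ∈ A)).card) := by
      rw [hJ, Finset.sum_union hdis, Finset.sum_union hdis]
      have h4 : ∑ a ∈ ({l1, l2} : Finset γ), w a ≤ ∑ a ∈ ({l1, l2} : Finset γ), e a + 2 := by
        have h5 : ∑ a ∈ ({l1, l2} : Finset γ), w a ≤ ∑ a ∈ ({l1, l2} : Finset γ), (e a + 1) := by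
          refine Finset.sum_le_sum fun a ha => ?_
          have h5 : a ∈ J := by rw [hJ]; exact Finset.mem_union_left _ ha
          exact (hw a (hJC h5)).2.1
        rw [Finset.sum_add_distrib, ← Finset.card_eq_sum_ones] at h5
        have h6 : ({l1, l2} : Finset γ).card ≤ 2 := Finset.card_le_two
        omega
      have h5 : ∑ a ∈ Sm, w a ≤ ∑ a ∈ Sm, e a + (Sm.filter (fun a => a ∈ A)).card := by
        rw [Finset.card_filter, ← Finset.sum_add_distrib]
        refine Finset.sum_le_sum fun a ha => ?_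
        have h6 := hw a (hSmC ha)
        split_ifs with h7
        · exact h6.2.1
        · obtain ⟨h8, x, hx, h9⟩ := hSmm a ha
          rw [mA] at h7
          have h10 : w a ≠ e a + 1 := fun h11 => h7 ⟨⟨hSmC ha, h8⟩, h11, x, (hTX x hx).1, by
            rw [← h9]
            exact ot1 x (hTX x hx).1⟩
          omega
      omega
    have hcnt : 3 + (Sm.filter (fun a => a ∈ A)).card ≤
        (X.filter (fun x => cols x ⊆ J)).card := by
      have h4 : T ∪ (Sm.filter (fun a => a ∈ A)).image g ⊆ X.filter (fun x => cols x ⊆ J) := by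
        intro x hx
        rw [Finset.mem_filter]
        rcases Finset.mem_union.1 hx with hx | hx
        · have hxX := (hTX x hx).1
          refine ⟨hxX, fun b hb => ?_⟩
          have h5 := (hTm x hx).2
          rw [hφ] at h5
          dsimp only at h5
          rw [Prod.mk.injEq] at h5
          rcases colsE x hxX b hb with h6 | h6
          · rw [h6, h5.1, hJ]
            simp
          · by_cases h7 : b ∈ L
            · rw [h6] at h7
              have h8 : ot x ∉ A := fun h9 => ((mA _).1 h9).1.2 h7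
              rw [if_neg h8, if_pos h7] at h5
              rw [h6, h5.2, hJ]
              simp
            · rw [hJ, Finset.mem_union]
              right
              rw [hSm, Finset.mem_filter]
              exact ⟨Finset.mem_image.2 ⟨x, hx, h6.symm⟩, h7⟩
        · obtain ⟨a, ha, rfl⟩ := Finset.mem_image.1 hx
          rw [Finset.mem_filter] at ha
          obtain ⟨haS, haA⟩ := ha
          refine ⟨g1 a haA, fun b hb => ?_⟩
          have haL := ((mA a).1 haA).1.2
          obtain ⟨-, x, hxT, hxa⟩ := hSmm a haS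
          have h5 := (hTm x hxT).2
          rw [hφ] at h5
          dsimp only at h5
          rw [hxa, if_pos haA, Prod.mk.injEq] at h5
          rcases eq_or_ne b a with h6 | h6
          · rw [h6, hJ]
            exact Finset.mem_union_right _ haS
          · have hga := g1 a haA
            have hbL : b ∈ L := two (g a) hga a (g2 a haA) b hb h6.symm haL
            have hlg : b = lg (g a) := by
              by_contra h7
              have h8 : lg (g a) ≠ a := fun h9 => haL (h9 ▸ lg2 _ hga)
              have h9 : ({a, b, lg (g a)} : Finset γ) ⊆ cols (g a) := by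
                intro y hy
                simp only [Finset.mem_insert, Finset.mem_singleton] at hy
                rcases hy with rfl | rfl | rfl
                · exact g2 _ haA
                · exact hb
                · exact lg1 _ hga
              have h10 := Finset.card_le_card h9
              rw [hc2 _ hga, Finset.card_eq_three.2 ⟨a, b, lg (g a), h6.symm, h8.symm, h7, rfl⟩]
                at h10
              omega
            rw [hlg, h5.2, hJ]
            simp
      have h5 : Disjoint T ((Sm.filter (fun a => a ∈ A)).image g) := by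
        rw [Finset.disjoint_left]
        intro x hx hx2
        obtain ⟨a, ha, rfl⟩ := Finset.mem_image.1 hx2
        rw [Finset.mem_filter] at ha
        exact (hTX _ hx).2 (Finset.mem_image_of_mem g ha.2)
      have h6 := Finset.card_le_card h4
      rw [Finset.card_union_of_disjoint h5, hTc, Finset.card_image_of_injOn] at h6
      · exact h6
      · intro a ha b hb hab
        rw [Finset.mem_coe, Finset.mem_filter] at ha hb
        exact ginj a ha.2 b hb.2 hab
    omega
  have hExc : Ex.card ≤ 2 * L.card ^ 2 := by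
    refine (Finset.card_le_mul_card_image Ex 2 hfib).trans ?_
    refine Nat.mul_le_mul_left 2 ?_
    have h1 : Ex.image φ ⊆ L ×ˢ L := by
      intro y hy
      obtain ⟨x, hx, rfl⟩ := Finset.mem_image.1 hy
      exact hφL x hx
    refine (Finset.card_le_card h1).trans ?_
    rw [Finset.card_product, sq]
  omega

end Pool.MP_62c2ba
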