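import Pool.Agent.H.MP_62c2ba_co.PieA

/-! # Graphs in which small sets of vertices span few edges -/

set_option autoImplicit false

open Finset

namespace Pool.MP_62c2ba

section
variable {ι β : Type} [DecidableEq ι] [DecidableEq β] (K : Finset ι) (N : Finset β)
  (nd : β → Finset ι)

/-- Size of a part. -/
def pw (c : ι → ι) (a : ι) : ℕ := (K.filter (fun i => c i = a)).card

/-- Number of edges in a part. -/
def pe (c : ι → ι) (a : ι) : ℕ := (N.filter (fun b => nd b ⊆ K.filter (fun i => c i = a))).card

/-- Number of edges in a union of parts. -/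
def pJ (c : ι → ι) (J : Finset ι) : ℕ :=
  (N.filter (fun b => nd b ⊆ K.filter (fun i => c i ∈ J))).card

/-- A partition into small parts which are connected. -/
def gd (p : ℕ) (c : ι → ι) : Prop := ∀ a, pw K c a ≤ p ∧ pw K c a ≤ pe K N nd c a + 1

omit [DecidableEq β] in
theorem pJ_eq (hsub : ∀ b ∈ N, nd b ⊆ K) (hne : ∀ b ∈ N, (nd b).Nonempty)
    (h2 : ∀ b ∈ N, (nd b).card ≤ 2) (c : ι → ι) (J : Finset ι) :
    pJ K N nd c J = ∑ a ∈ J, pe K N nd c a +
      ((N.filter (fun b => ((nd b).image c).card = 2)).filter
        (fun b => (nd b).image c ⊆ J)).card := by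
  classical
  have h0 : ∀ b ∈ N, ∀ S : Finset ι, nd b ⊆ K.filter (fun i => c i ∈ S) ↔ (nd b).image c ⊆ S := by
    intro b hb S
    constructor
    · intro h a ha
      obtain ⟨i, hi, rfl⟩ := Finset.mem_image.1 ha
      exact (Finset.mem_filter.1 (h hi)).2
    · intro h i hi
      exact Finset.mem_filter.2 ⟨hsub b hb hi, h (Finset.mem_image_of_mem c hi)⟩
  have h1 : ∀ b ∈ N, ∀ a, nd b ⊆ K.filter (fun i => c i = a) ↔ (nd b).image c = {a} := by
    intro b hb a
    have h3 := h0 b hb {a}
    simp only [Finset.mem_singleton] at h3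
    rw [h3, Finset.subset_singleton_iff]
    constructor
    · rintro (h4 | h4)
      · rw [Finset.image_eq_empty] at h4
        exact absurd h4 (hne b hb).ne_empty
      · exact h4
    · exact fun h4 => Or.inr h4
  have h3 : N.filter (fun b => nd b ⊆ K.filter (fun i => c i ∈ J)) =
      (J.biUnion fun a => N.filter (fun b => nd b ⊆ K.filter (fun i => c i = a))) ∪
      (N.filter (fun b => ((nd b).image c).card = 2)).filter (fun b => (nd b).image c ⊆ J) := by
    ext b
    simp only [Finset.mem_filter, Finset.mem_union, Finset.mem_biUnion]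
    constructor
    · rintro ⟨hb, h4⟩
      rw [h0 b hb] at h4
      have h5 : ((nd b).image c).card ≤ 2 := Finset.card_image_le.trans (h2 b hb)
      have h6 : 1 ≤ ((nd b).image c).card := Finset.card_pos.2 ((hne b hb).image c)
      rcases Nat.lt_or_ge 1 ((nd b).image c).card with h7 | h7
      · exact Or.inr ⟨⟨hb, by omega⟩, h4⟩
      · obtain ⟨a, ha⟩ := Finset.card_eq_one.1 (le_antisymm h7 h6)
        refine Or.inl ⟨a, ?_, hb, (h1 b hb a).2 ha⟩
        rw [ha] at h4
        exact h4 (Finset.mem_singleton_self a)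
    · rintro (⟨a, ha, hb, h4⟩ | ⟨⟨hb, -⟩, h4⟩)
      · refine ⟨hb, (h0 b hb J).2 ?_⟩
        rw [(h1 b hb a).1 h4]
        exact Finset.singleton_subset_iff.2 ha
      · exact ⟨hb, (h0 b hb J).2 h4⟩
  unfold pJ pe
  rw [h3, Finset.card_union_of_disjoint, Finset.card_biUnion]
  · intro a _ a' _ haa
    rw [Function.onFun, Finset.disjoint_left]
    intro b hb hb'
    rw [Finset.mem_filter] at hb hb'
    have h4 := (h1 b hb.1 a).1 hb.2
    rw [(h1 b hb.1 a').1 hb'.2] at h4
    exact haa (Finset.singleton_injective h4).symm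
  · rw [Finset.disjoint_left]
    intro b hb hb'
    rw [Finset.mem_biUnion] at hb
    obtain ⟨a, -, hb⟩ := hb
    rw [Finset.mem_filter] at hb
    rw [Finset.mem_filter, Finset.mem_filter, (h1 b hb.1 a).1 hb.2, Finset.card_singleton] at hb'
    exact absurd hb'.1.2 (by norm_num)

theorem pw_sum (c : ι → ι) (J : Finset ι) :
    ∑ a ∈ J, pw K c a = (K.filter (fun i => c i ∈ J)).card := by
  classical
  unfold pw
  rw [Finset.card_eq_sum_card_fiberwise (s := K.filter (fun i => c i ∈ J)) (f := c) (t := J)
    (fun i hi => (Finset.mem_filter.1 hi).2)]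
  refine Finset.sum_congr rfl fun a ha => ?_
  congr 1
  ext i
  simp only [Finset.mem_filter]
  constructor
  · rintro ⟨h1, h2⟩
    exact ⟨⟨h1, h2 ▸ ha⟩, h2⟩
  · rintro ⟨⟨h1, -⟩, h2⟩
    exact ⟨h1, h2⟩

omit [DecidableEq β] in
theorem gd_merge {K : Finset ι} {N : Finset β} {nd : β → Finset ι} (hsub : ∀ b ∈ N, nd b ⊆ K)
    (hne : ∀ b ∈ N, (nd b).Nonempty) (h2 : ∀ b ∈ N, (nd b).card ≤ 2) {p : ℕ} {c : ι → ι}
    (hc : gd K N nd p c) {a a' : ι} (haa : a ≠ a') (ha : a ∈ K.image c) (ha' : a' ∈ K.image c)
    (hp : pw K c a + pw K c a' ≤ p) {x : β} (hx : x ∈ N) (hxc : (nd x).image c = {a, a'}) :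
    ∃ c', gd K N nd p c' ∧ (K.image c').card < (K.image c).card := by
  classical
  refine ⟨fun i => if c i = a' then a else c i, ?_, ?_⟩
  · intro y
    by_cases hya : y = a
    · have e1 : K.filter (fun i => (if c i = a' then a else c i) = y) =
          K.filter (fun i => c i ∈ ({a, a'} : Finset ι)) := by
        rw [hya]
        refine Finset.filter_congr fun i _ => ?_
        rw [Finset.mem_insert, Finset.mem_singleton]
        split_ifs with h3
        · simp [h3]
        · simp [h3]
      have e2 : pw K (fun i => if c i = a' then a else c i) y = pw K c a + pw K c a' := by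
        unfold pw
        rw [e1]
        have := pw_sum K c {a, a'}
        rw [Finset.sum_pair haa] at this
        rw [← this]
        rfl
      have e3 : pe K N nd (fun i => if c i = a' then a else c i) y = pJ K N nd c {a, a'} := by
        unfold pe pJ
        rw [e1]
      rw [e2, e3, pJ_eq K N nd hsub hne h2, Finset.sum_pair haa]
      have e4 : 1 ≤ ((N.filter (fun b => ((nd b).image c).card = 2)).filter
          (fun b => (nd b).image c ⊆ {a, a'})).card := by
        refine Finset.card_pos.2 ⟨x, ?_⟩
        rw [Finset.mem_filter, Finset.mem_filter, hxc]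
        exact ⟨⟨hx, Finset.card_pair haa⟩, Finset.Subset.refl _⟩
      have h3 := (hc a).2
      have h4 := (hc a').2
      exact ⟨hp, by omega⟩
    · by_cases hya' : y = a'
      · have e1 : pw K (fun i => if c i = a' then a else c i) y = 0 := by
          unfold pw
          rw [Finset.card_eq_zero, Finset.filter_eq_empty_iff]
          intro i _
          rw [hya']
          dsimp only
          split_ifs with h3
          · exact haa
          · exact h3
        rw [e1]
        exact ⟨Nat.zero_le _, Nat.zero_le _⟩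
      · have e1 : K.filter (fun i => (if c i = a' then a else c i) = y) =
            K.filter (fun i => c i = y) := by
          refine Finset.filter_congr fun i _ => ?_
          split_ifs with h3
          · rw [h3]
            exact ⟨fun h => absurd h.symm hya, fun h => absurd h.symm hya'⟩
          · exact Iff.rfl
        have e2 : pw K (fun i => if c i = a' then a else c i) y = pw K c y := by
          unfold pw
          rw [e1]
        have e3 : pe K N nd (fun i => if c i = a' then a else c i) y = pe K N nd c y := by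
          unfold pe
          rw [e1]
        rw [e2, e3]
        exact hc y
  · have h3 : K.image (fun i => if c i = a' then a else c i) ⊆ (K.image c).erase a' := by
      intro y hy
      obtain ⟨i, hi, rfl⟩ := Finset.mem_image.1 hy
      rw [Finset.mem_erase]
      split_ifs with h4
      · exact ⟨haa, ha⟩
      · exact ⟨h4, Finset.mem_image_of_mem c hi⟩
    refine lt_of_le_of_lt (Finset.card_le_card h3) ?_
    rw [Finset.card_erase_of_mem ha']
    have : 0 < (K.image c).card := Finset.card_pos.2 ⟨a', ha'⟩
    omega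

theorem pieces (hsub : ∀ b ∈ N, nd b ⊆ K) (hne : ∀ b ∈ N, (nd b).Nonempty)
    (h2 : ∀ b ∈ N, (nd b).card ≤ 2) (p : ℕ) (hp : 1 ≤ p)
    (hT : ∀ T ⊆ K, T.card ≤ 4 * p → (N.filter (fun b => nd b ⊆ T)).card ≤ T.card) :
    ∃ l : ℕ, l * (p + 1) ≤ 2 * K.card ∧ N.card ≤ K.card + 2 * l ^ 2 := by
  classical
  obtain ⟨c, hc, hmin⟩ : ∃ c, gd K N nd p c ∧ ∀ c', gd K N nd p c' →
      (K.image c).card ≤ (K.image c').card := by
    have key : ∀ n : ℕ, ∀ c, gd K N nd p c → (K.image c).card = n → ∃ c, gd K N nd p c ∧
        ∀ c', gd K N nd p c' → (K.image c).card ≤ (K.image c').card := by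
      intro n
      induction n using Nat.strong_induction_on with
      | _ n ih =>
        intro c hc hn
        by_cases h : ∀ c', gd K N nd p c' → (K.image c).card ≤ (K.image c').card
        · exact ⟨c, hc, h⟩
        · push Not at h
          obtain ⟨c', hc', hlt⟩ := h
          exact ih _ (by omega) c' hc' rfl
    refine key _ id (fun a => ?_) rfl
    have h1 : pw K id a ≤ 1 := by
      unfold pw
      rw [Finset.card_le_one]
      intro x hx y hy
      exact (Finset.mem_filter.1 hx).2.trans (Finset.mem_filter.1 hy).2.symm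
    exact ⟨h1.trans hp, h1.trans (Nat.le_add_left _ _)⟩
  obtain ⟨X, hX⟩ : ∃ X, X = N.filter (fun b => ((nd b).image c).card = 2) := ⟨_, rfl⟩
  have hXN : ∀ x ∈ X, x ∈ N ∧ ((nd x).image c).card = 2 := by
    intro x hx
    rw [hX, Finset.mem_filter] at hx
    exact hx
  have hcs : ∀ b ∈ N, (nd b).image c ⊆ K.image c := fun b hb => Finset.image_subset_image (hsub b hb)
  have hpJ := pJ_eq K N nd hsub hne h2 c
  rw [← hX] at hpJ
  have hw4 : ∀ a, pe K N nd c a ≤ pw K c a := by
    intro a
    refine hT _ (Finset.filter_subset _ _) ?_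
    have h1 := (hc a).1
    unfold pw at h1
    omega
  have key := pieces2 (K.image c) (pw K c) (pe K N nd c) X (fun b => (nd b).image c) p
    (fun x hx => (hXN x hx).2) (fun x hx => hcs x (hXN x hx).1)
    (fun a _ => ⟨hw4 a, (hc a).2, (hc a).1⟩) (by
      intro x hx
      by_contra hcon
      push Not at hcon
      obtain ⟨hxN, hx2⟩ := hXN x hx
      obtain ⟨a, a', haa, hxc⟩ := Finset.card_eq_two.1 hx2
      have h3 := hcs x hxN
      rw [hxc] at h3
      rw [hxc, Finset.sum_pair haa] at hcon
      obtain ⟨c', hc', hlt⟩ := gd_merge hsub hne h2 hc haa (h3 (by simp)) (h3 (by simp)) hcon hxN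
        hxc
      exact absurd (hmin c' hc') (not_le.2 hlt)) (by
      intro J hJ hJp
      rw [← hpJ J, pw_sum]
      rw [pw_sum] at hJp
      exact hT _ (Finset.filter_subset _ _) hJp)
  have hK : ∑ a ∈ K.image c, pw K c a = K.card := by
    rw [pw_sum]
    congr 1
    exact Finset.filter_true_of_mem fun i hi => Finset.mem_image_of_mem c hi
  have hN : N.card = ∑ a ∈ K.image c, pe K N nd c a + X.card := by
    have h3 := hpJ (K.image c)
    have h4 : X.filter (fun b => (nd b).image c ⊆ K.image c) = X :=
      Finset.filter_true_of_mem fun b hb => hcs b (hXN b hb).1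
    have h5 : pJ K N nd c (K.image c) = N.card := by
      unfold pJ
      congr 1
      refine Finset.filter_true_of_mem fun b hb => ?_
      intro i hi
      exact Finset.mem_filter.2 ⟨hsub b hb hi, Finset.mem_image_of_mem c (hsub b hb hi)⟩
    rw [h4, h5] at h3
    exact h3
  rw [hK, ← hN] at key
  refine ⟨((K.image c).filter (fun a => p < 2 * pw K c a)).card, ?_, key⟩
  rw [← smul_eq_mul]
  refine (Finset.card_nsmul_le_sum _ (fun a => 2 * pw K c a) (p + 1) fun a ha =>
    (Finset.mem_filter.1 ha).2).trans ?_
  rw [← Finset.mul_sum, ← hK]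
  exact Nat.mul_le_mul_left 2 (Finset.sum_le_sum_of_subset (Finset.filter_subset _ _))

end

end Pool.MP_62c2ba
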