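import Mathlib

/-! # Partial matchings from perfect matchings, and a count for partitions -/

set_option autoImplicit false

open Finset

namespace Pool.MP_62c2ba

/-- A matching of `G`: the edges `{x, f x}` with `x ∈ N`. -/
structure Mt {V : Type} (G : SimpleGraph V) (N : Finset V) (f : V → V) : Prop where
  inj : Set.InjOn f N
  dj : ∀ x ∈ N, f x ∉ N
  adj : ∀ x ∈ N, G.Adj x (f x)

/-- The graph `G` with `d` new vertices, which are adjacent to all vertices. -/
def joinG {V : Type} (G : SimpleGraph V) (d : ℕ) : SimpleGraph (V ⊕ Fin d) where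
  Adj a b := a ≠ b ∧ ∀ x y, a = Sum.inl x → b = Sum.inl y → G.Adj x y
  symm := ⟨fun _ _ h => ⟨h.1.symm, fun x y hx hy => (h.2 y x hy hx).symm⟩⟩
  loopless := ⟨fun _ h => h.1 rfl⟩

/-- Pairs in the same class. -/
theorem cls_count {X C : Type} [Fintype X] [Fintype C] [DecidableEq X] [DecidableEq C] (π : X → C)
    {h : ℕ} (hh : ∑ c, (univ.filter (fun x => π x = c)).card / 2 ≤ h) :
    ∑ x, (univ.filter (fun y => y ≠ x ∧ π y = π x)).card ≤ 2 * h * (2 * h + 1) := by
  obtain ⟨n, hn⟩ : ∃ n : C → ℕ, n = fun c => (univ.filter (fun x => π x = c)).card := ⟨_, rfl⟩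
  have h1 : ∀ x, (univ.filter (fun y => y ≠ x ∧ π y = π x)).card = n (π x) - 1 := by
    intro x
    have h2 : univ.filter (fun y => y ≠ x ∧ π y = π x) =
        (univ.filter (fun y => π y = π x)).erase x := by
      ext y
      simp
    rw [h2, Finset.card_erase_of_mem (by simp), hn]
  have h2 : ∑ x, (n (π x) - 1) = ∑ c, n c * (n c - 1) := by
    rw [← Finset.sum_fiberwise_of_maps_to (s := univ) (t := univ) (g := π)
      (fun x _ => Finset.mem_univ _)]
    refine Finset.sum_congr rfl fun c _ => ?_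
    rw [Finset.sum_congr rfl (g := fun _ => n c - 1) fun x hx => by
      rw [(Finset.mem_filter.1 hx).2], Finset.sum_const, smul_eq_mul, hn]
  rw [Finset.sum_congr rfl fun x _ => h1 x, h2]
  have hh' : ∑ c, n c / 2 ≤ h := by
    rw [hn]
    exact hh
  calc ∑ c, n c * (n c - 1) ≤ ∑ c, (n c / 2) * (2 * (2 * h + 1)) := by
        refine Finset.sum_le_sum fun c _ => ?_
        have h3 : n c / 2 ≤ h := (Finset.single_le_sum (f := fun c => n c / 2)
          (fun _ _ => Nat.zero_le _) (Finset.mem_univ c)).trans hh'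
        obtain ⟨j, hj⟩ : ∃ j, j = n c / 2 := ⟨_, rfl⟩
        rw [← hj] at h3 ⊢
        rcases Nat.even_or_odd' (n c) with ⟨i, hi | hi⟩
        · have : i = j := by omega
          subst this
          rcases Nat.eq_zero_or_pos i with h0 | h0
          · rw [hi, h0]; simp
          · have h4 : n c - 1 ≤ 2 * h + 1 := by omega
            calc n c * (n c - 1) ≤ n c * (2 * h + 1) := Nat.mul_le_mul_left _ h4
              _ = i * (2 * (2 * h + 1)) := by rw [hi]; ring
        · have : i = j := by omega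
          subst this
          have h4 : n c - 1 = 2 * i := by omega
          calc n c * (n c - 1) = n c * (2 * i) := by rw [h4]
            _ ≤ (2 * h + 1) * (2 * i) := Nat.mul_le_mul_right _ (by omega)
            _ = i * (2 * (2 * h + 1)) := by ring
    _ = (∑ c, n c / 2) * (2 * (2 * h + 1)) := by rw [Finset.sum_mul]
    _ ≤ h * (2 * (2 * h + 1)) := Nat.mul_le_mul_right _ hh'
    _ = 2 * h * (2 * h + 1) := by ring

/-- The number of elements, from the number of odd classes. -/
theorem cls_card {X C : Type} [Fintype X] [Fintype C] [DecidableEq X] [DecidableEq C] (π : X → C) :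
    Fintype.card X = 2 * ∑ c, (univ.filter (fun x => π x = c)).card / 2 +
      (univ.filter (fun c => Odd (univ.filter (fun x => π x = c)).card)).card := by
  have h1 : Fintype.card X = ∑ c, (univ.filter (fun x => π x = c)).card := by
    rw [← Finset.card_univ]
    exact Finset.card_eq_sum_card_fiberwise (fun x _ => Finset.mem_univ _)
  rw [h1, Finset.mul_sum, Finset.card_filter, ← Finset.sum_add_distrib]
  refine Finset.sum_congr rfl fun c _ => ?_
  split_ifs with h2
  · obtain ⟨i, hi⟩ := h2
    omega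
  · rw [Nat.not_odd_iff_even] at h2
    obtain ⟨i, hi⟩ := h2
    omega

/-- A partial matching of `G` from a perfect matching of `joinG G d`. -/
theorem mt_of_perfect {V : Type} [Fintype V] [DecidableEq V] (G : SimpleGraph V) {d k : ℕ}
    (hd : d + 2 * k ≤ Fintype.card V) (M : (joinG G d).Subgraph) (hM : M.IsPerfectMatching) :
    ∃ (N : Finset V) (f : V → V), Mt G N f ∧ k ≤ N.card := by
  classical
  rw [SimpleGraph.Subgraph.isPerfectMatching_iff] at hM
  choose g hg hg' using fun v => hM v
  have gg : ∀ a, g (g a) = a := fun a => (hg' (g a) a (hg a).symm).symm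
  have ga : ∀ a, (joinG G d).Adj a (g a) := fun a => (hg a).adj_sub
  obtain ⟨e⟩ : Nonempty (V ≃ Fin (Fintype.card V)) := ⟨Fintype.equivFin V⟩
  obtain ⟨f, hf⟩ : ∃ f : V → V, f = fun x => Sum.elim id (fun _ => x) (g (Sum.inl x)) := ⟨_, rfl⟩
  obtain ⟨S, hS⟩ : ∃ S : Finset V, S = univ.filter (fun x => ∃ y, g (Sum.inl x) = Sum.inl y) :=
    ⟨_, rfl⟩
  have mS : ∀ x, x ∈ S ↔ ∃ y, g (Sum.inl x) = Sum.inl y := by
    intro x
    rw [hS]
    simp
  have hfS : ∀ x ∈ S, g (Sum.inl x) = Sum.inl (f x) := by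
    intro x hx
    obtain ⟨y, hy⟩ := (mS x).1 hx
    rw [hf]
    dsimp only
    rw [hy]
    rfl
  have fS : ∀ x ∈ S, f x ∈ S ∧ f (f x) = x := by
    intro x hx
    have h1 := hfS x hx
    have h2 : g (Sum.inl (f x)) = Sum.inl x := by rw [← h1, gg]
    have h3 : f x ∈ S := (mS _).2 ⟨x, h2⟩
    refine ⟨h3, ?_⟩
    have h4 := hfS _ h3
    rw [h2] at h4
    exact (Sum.inl.inj h4).symm
  have hadj : ∀ x ∈ S, G.Adj x (f x) := by
    intro x hx
    have h1 := ga (Sum.inl x)
    rw [hfS x hx] at h1
    exact h1.2 x (f x) rfl rfl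
  have hcard : Fintype.card V ≤ S.card + d := by
    have h1 : Sᶜ.card ≤ d := by
      have h2 : ∀ x ∈ Sᶜ, ∃ j : Fin d, g (Sum.inl x) = Sum.inr j := by
        intro x hx
        rw [Finset.mem_compl, mS] at hx
        rcases hgx : g (Sum.inl x) with y | j
        · exact absurd ⟨y, hgx⟩ hx
        · exact ⟨j, rfl⟩
      have h3 : (Sᶜ.image fun x => g (Sum.inl x)).card = Sᶜ.card := by
        refine Finset.card_image_of_injOn fun x _ y _ hxy => ?_
        have h4 := congrArg g hxy
        rw [gg, gg] at h4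
        exact Sum.inl.inj h4
      have h4 : (Sᶜ.image fun x => g (Sum.inl x)) ⊆ univ.image (Sum.inr : Fin d → V ⊕ Fin d) := by
        intro a ha
        obtain ⟨x, hx, rfl⟩ := Finset.mem_image.1 ha
        obtain ⟨j, hj⟩ := h2 x hx
        rw [hj]
        exact Finset.mem_image_of_mem _ (Finset.mem_univ j)
      rw [← h3]
      refine (Finset.card_le_card h4).trans ?_
      refine Finset.card_image_le.trans ?_
      simp
    have h2 := Finset.card_add_card_compl S
    omega
  obtain ⟨N, hN⟩ : ∃ N : Finset V, N = S.filter (fun x => e x < e (f x)) := ⟨_, rfl⟩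
  have mN : ∀ x, x ∈ N ↔ x ∈ S ∧ e x < e (f x) := by
    intro x
    rw [hN, Finset.mem_filter]
  have hinj : Set.InjOn f S := by
    intro x hx y hy hxy
    rw [← (fS x hx).2, ← (fS y hy).2, hxy]
  have hSN : S.card ≤ 2 * N.card := by
    have h1 : S ⊆ N ∪ N.image f := by
      intro x hx
      rw [Finset.mem_union]
      have hne : x ≠ f x := (hadj x hx).ne
      rcases lt_or_gt_of_ne (fun h => hne (e.injective h) : e x ≠ e (f x)) with h2 | h2
      · exact Or.inl ((mN x).2 ⟨hx, h2⟩)
      · refine Or.inr (Finset.mem_image.2 ⟨f x, (mN _).2 ⟨(fS x hx).1, ?_⟩, (fS x hx).2⟩)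
        rw [(fS x hx).2]
        exact h2
    have h2 := (Finset.card_le_card h1).trans (Finset.card_union_le _ _)
    have h3 : (N.image f).card ≤ N.card := Finset.card_image_le
    omega
  refine ⟨N, f, ⟨?_, ?_, ?_⟩, by omega⟩
  · exact hinj.mono fun x hx => ((mN x).1 hx).1
  · intro x hx h1
    obtain ⟨h2, h3⟩ := (mN x).1 hx
    have h4 := ((mN _).1 h1).2
    rw [(fS x h2).2] at h4
    exact lt_asymm h3 h4
  · intro x hx
    exact hadj x ((mN x).1 hx).1

end Pool.MP_62c2ba
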