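import Pool.Agent.H.MP_62c2ba_co.AugQ
import Pool.Agent.H.MP_62c2ba_co.PieB
import Pool.Agent.H.MP_62c2ba_co.TutA

/-! # The graph of popular pairs has a small matching number -/

set_option autoImplicit false

open Finset

namespace Pool.MP_62c2ba

variable {V : Type} [Fintype V] [DecidableEq V]

/-- The vertices of the poor edges. -/
def PV (M R : Finset (Finset V)) : Finset V := (M \ R).biUnion id

/-- The noncentral vertices of the rich edges. -/
def BV (R : Finset (Finset V)) (ctr : Finset V → V) : Finset V :=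
  R.biUnion (fun F => F.erase (ctr F))

theorem dg_symm (H M : Finset (Finset V)) (w w' : V) : dg H M w w' = dg H M w' w := by
  unfold dg
  simp only [Finset.pair_comm w w']

/-- The graph of the popular pairs which meet a poor edge. -/
def PG (t : ℕ) (H M R : Finset (Finset V)) (ctr : Finset V → V) : SimpleGraph V where
  Adj w w' := w ≠ w' ∧ (w ∈ PV M R ∨ w' ∈ PV M R) ∧ (w ∈ PV M R ∪ BV R ctr ∧
    w' ∈ PV M R ∪ BV R ctr) ∧ t < dg H M w w'
  symm := ⟨fun w w' h => ⟨h.1.symm, h.2.1.symm, h.2.2.1.symm, by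
    rw [dg_symm]
    exact h.2.2.2⟩⟩
  loopless := ⟨fun _ h => h.1 rfl⟩

instance (t : ℕ) (H M R : Finset (Finset V)) (ctr : Finset V → V) :
    DecidableRel (PG t H M R ctr).Adj := fun w w' =>
  inferInstanceAs (Decidable (w ≠ w' ∧ (w ∈ PV M R ∨ w' ∈ PV M R) ∧ (w ∈ PV M R ∪ BV R ctr ∧
    w' ∈ PV M R ∪ BV R ctr) ∧ t < dg H M w w'))

omit [Fintype V] in
theorem mem_PV {M R : Finset (Finset V)} {x : V} : x ∈ PV M R ↔ ∃ E ∈ M \ R, x ∈ E := by
  unfold PV
  simp

omit [Fintype V] in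
theorem mem_BV {R : Finset (Finset V)} {ctr : Finset V → V} {x : V} :
    x ∈ BV R ctr ↔ ∃ F ∈ R, x ∈ F ∧ x ≠ ctr F := by
  unfold BV
  simp only [Finset.mem_biUnion, Finset.mem_erase]
  constructor
  · rintro ⟨F, hF, h1, h2⟩
    exact ⟨F, hF, h2, h1⟩
  · rintro ⟨F, hF, h1, h2⟩
    exact ⟨F, hF, h2, h1⟩

theorem rainbowQ (H M : Finset (Finset V)) (t : ℕ) : ∀ pl : List (V × V), pl.length ≤ t + 1 →
    (∀ p ∈ pl, t < dg H M p.1 p.2) → ∃ l : List (V × V × V), (l.map fun t => t.2) = pl ∧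
      (l.map fun t => t.1).Nodup ∧ ∀ t ∈ l, t.1 ∈ out M ∧ ({t.1, t.2.1, t.2.2} : Finset V) ∈ H := by
  intro pl
  induction pl with
  | nil => intro _ _; exact ⟨[], by simp⟩
  | cons p pl ih =>
    intro hlen hp
    rw [List.length_cons] at hlen
    obtain ⟨l, h1, h2, h3⟩ := ih (by omega) fun q hq => hp q (List.mem_cons_of_mem _ hq)
    have h4 := hp p List.mem_cons_self
    unfold dg at h4
    have h5 : (l.map fun t => t.1).toFinset.card < t + 1 := by
      have h6 := List.toFinset_card_le (l.map fun t => t.1)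
      have h7 : l.length = pl.length := by rw [← h1, List.length_map]
      rw [List.length_map] at h6
      omega
    obtain ⟨v, hv, hv'⟩ := Finset.exists_mem_notMem_of_card_lt_card (h5.trans_le h4)
    rw [Finset.mem_filter] at hv
    refine ⟨(v, p.1, p.2) :: l, by simp [h1], ?_, ?_⟩
    · rw [List.map_cons, List.nodup_cons]
      exact ⟨fun h6 => hv' (List.mem_toFinset.2 h6), h2⟩
    · intro t ht
      rcases List.mem_cons.1 ht with rfl | ht
      · exact hv
      · exact h3 t ht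

theorem nuQ {q p : ℕ} {H M R : Finset (Finset V)} {ctr : Finset V → V} (h : CfgQ q H M R ctr)
    (hp : 1 ≤ p) (hq : 6 * (4 * p + 1) ≤ q + 2) {N : Finset V} {f : V → V}
    (hN : Mt (PG (4 * p) H M R ctr) N f) :
    ∃ l : ℕ, l * (p + 1) ≤ 2 * (M \ R).card ∧ N.card ≤ (M \ R).card + 2 * l ^ 2 := by
  classical
  obtain ⟨nd, hnd⟩ : ∃ nd : V → Finset (Finset V),
      nd = fun x => (M \ R).filter (fun E => x ∈ E ∨ f x ∈ E) := ⟨_, rfl⟩
  have mnd : ∀ x E, E ∈ nd x ↔ E ∈ M \ R ∧ (x ∈ E ∨ f x ∈ E) := by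
    intro x E
    rw [hnd, Finset.mem_filter]
  have hone : ∀ x, ((M \ R).filter (fun E => x ∈ E)).card ≤ 1 := by
    intro x
    rw [Finset.card_le_one]
    intro E hE F hF
    rw [Finset.mem_filter, Finset.mem_sdiff] at hE hF
    by_contra hne
    exact Finset.disjoint_left.1 (h.mm.dj E hE.1.1 F hF.1.1 hne) hE.2 hF.2
  refine pieces (M \ R) N nd (fun x _ => by rw [hnd]; exact Finset.filter_subset _ _) ?_ ?_ p hp ?_
  · intro x hx
    obtain ⟨-, h1, -⟩ := hN.adj x hx
    rcases h1 with h1 | h1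
    · obtain ⟨E, hE, hx⟩ := mem_PV.1 h1
      exact ⟨E, (mnd x E).2 ⟨hE, Or.inl hx⟩⟩
    · obtain ⟨E, hE, hx⟩ := mem_PV.1 h1
      exact ⟨E, (mnd x E).2 ⟨hE, Or.inr hx⟩⟩
  · intro x _
    have h1 : nd x ⊆ (M \ R).filter (fun E => x ∈ E) ∪ (M \ R).filter (fun E => f x ∈ E) := by
      intro E hE
      obtain ⟨h2, h3⟩ := (mnd x E).1 hE
      rw [Finset.mem_union, Finset.mem_filter, Finset.mem_filter]
      exact h3.imp (fun h4 => ⟨h2, h4⟩) (fun h4 => ⟨h2, h4⟩)
    refine (Finset.card_le_card h1).trans ((Finset.card_union_le _ _).trans ?_)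
    have h2 := hone x
    have h3 := hone (f x)
    omega
  · intro T hT hTc
    by_contra hcon
    rw [not_le] at hcon
    obtain ⟨N', hN', hNc⟩ := Finset.exists_subset_card_eq (Nat.succ_le_of_lt hcon)
    have hN1 : ∀ x ∈ N', x ∈ N ∧ nd x ⊆ T := fun x hx => Finset.mem_filter.1 (hN' hx)
    obtain ⟨pl, hpl⟩ : ∃ pl : List (V × V), pl = N'.toList.map (fun x => (x, f x)) := ⟨_, rfl⟩
    have hpll : pl.length = T.card + 1 := by
      rw [hpl, List.length_map, Finset.length_toList, hNc]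
    have hplm : ∀ a ∈ pl, ∃ x ∈ N', a = (x, f x) := by
      intro a ha
      rw [hpl, List.mem_map] at ha
      obtain ⟨x, hx, rfl⟩ := ha
      exact ⟨x, Finset.mem_toList.1 hx, rfl⟩
    obtain ⟨l, h1, h2, h3⟩ := rainbowQ H M (4 * p) pl (by omega) (by
      intro a ha
      obtain ⟨x, hx, rfl⟩ := hplm a ha
      exact (hN.adj x (hN1 x hx).1).2.2.2)
    have hlm : ∀ s ∈ l, ∃ x ∈ N', s.2 = (x, f x) := by
      intro s hs
      refine hplm s.2 ?_
      rw [← h1]
      exact List.mem_map.2 ⟨s, hs, rfl⟩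
    have hll : l.length = T.card + 1 := by
      rw [← hpll, ← h1, List.length_map]
    -- the vertices of the matching
    have hcov : ∀ x ∈ N', ∀ y, (y = x ∨ y = f x) →
        (∃ e ∈ T, y ∈ e) ∨ ∃ F ∈ R, y ∈ F ∧ y ≠ ctr F := by
      intro x hx y hy
      obtain ⟨-, -, h4, -⟩ := hN.adj x (hN1 x hx).1
      have h5 : y ∈ PV M R ∪ BV R ctr := by
        rcases hy with rfl | rfl
        · exact h4.1
        · exact h4.2
      rcases Finset.mem_union.1 h5 with h6 | h6
      · obtain ⟨E, hE, hyE⟩ := mem_PV.1 h6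
        refine Or.inl ⟨E, (hN1 x hx).2 ((mnd x E).2 ⟨hE, ?_⟩), hyE⟩
        rcases hy with rfl | rfl
        · exact Or.inl hyE
        · exact Or.inr hyE
      · exact Or.inr (mem_BV.1 h6)
    have hnout : ∀ x ∈ N', ∀ y, (y = x ∨ y = f x) → y ∉ out M := by
      intro x hx y hy h4
      rcases hcov x hx y hy with ⟨e, he, h5⟩ | ⟨F, hF, h5, -⟩
      · exact mem_out.1 h4 e (Finset.mem_sdiff.1 (hT he)).1 h5
      · exact mem_out.1 h4 F (h.rs hF) h5
    have hfm : (pl.flatMap fun p => [p.1, p.2]).Nodup := by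
      rw [hpl, List.flatMap_map, List.nodup_flatMap]
      refine ⟨fun x hx => ?_, ?_⟩
      · have hx' := (hN1 x (Finset.mem_toList.1 hx)).1
        have hne := (hN.adj x hx').1
        simpa using hne
      · refine N'.nodup_toList.imp_of_mem ?_
        intro a b ha hb hab
        have ha' := (hN1 a (Finset.mem_toList.1 ha)).1
        have hb' := (hN1 b (Finset.mem_toList.1 hb)).1
        have g1 : a ≠ f b := fun h4 => hN.dj b hb' (h4 ▸ ha')
        have g2 : f a ≠ b := fun h4 => hN.dj a ha' (h4 ▸ hb')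
        have g3 : f a ≠ f b := fun h4 => hab (hN.inj ha' hb' h4)
        intro y hy hy'
        simp only [List.mem_cons, List.not_mem_nil, or_false] at hy hy'
        rcases hy with rfl | rfl <;> rcases hy' with h4 | h4
        · exact hab h4
        · exact g1 h4
        · exact g2 h4
        · exact g3 h4
    have key := augS h l (fun s hs => (h3 s hs).2)
      (nodup_fl M l h2 (by rw [h1]; exact hfm) (fun s hs => (h3 s hs).1) (by
        intro s hs
        obtain ⟨x, hx, hsx⟩ := hlm s hs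
        rw [hsx]
        exact ⟨hnout x hx _ (Or.inl rfl), hnout x hx _ (Or.inr rfl)⟩)) T hT (by
        intro y hy
        obtain ⟨s, hs, h4⟩ := mem_fl.1 hy
        obtain ⟨x, hx, hsx⟩ := hlm s hs
        rw [hsx] at h4
        rcases h4 with h4 | h4 | h4
        · rw [h4]; exact Or.inl (h3 s hs).1
        · exact Or.inr (hcov x hx y (Or.inl h4))
        · exact Or.inr (hcov x hx y (Or.inr h4))) (by omega)
    omega

end Pool.MP_62c2ba
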