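import Mathlib

/-! # Intersecting 3-graphs on at least seven vertices -/

set_option autoImplicit false

namespace Pool.MP_62c2ba

/-- The case of two stars with one centre. -/
theorem s7_core {V : Type} (T : V → V → V → Prop)
    (s1 : ∀ a b c, T a b c → T b a c) (s2 : ∀ a b c, T a b c → T a c b)
    (hd : ∀ a b c, T a b c → a ≠ b ∧ a ≠ c ∧ b ≠ c)
    (hi : ∀ a b c d e f, T a b c → T d e f →
      a = d ∨ a = e ∨ a = f ∨ b = d ∨ b = e ∨ b = f ∨ c = d ∨ c = e ∨ c = f)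
    (h0 : ∀ v, ∃ w a b c, a ≠ b ∧ a ≠ c ∧ b ≠ c ∧ T v w a ∧ T v w b ∧ T v w c)
    (x y : V) (hxy : x ≠ y)
    (hc : ∀ p q r, T p q r → p = x ∨ q = x ∨ r = x ∨ p = y ∨ q = y ∨ r = y)
    (hA : ∀ v, v ≠ x → v ≠ y → ∃ a, a ≠ y ∧ T v x a)
    (p q r1 r2 r3 b : V) (hp : p ≠ x ∧ p ≠ y) (hq : q ≠ x ∧ q ≠ y)
    (hr1 : r1 ≠ x ∧ r1 ≠ y ∧ r1 ≠ p ∧ r1 ≠ q) (hr2 : r2 ≠ x ∧ r2 ≠ y ∧ r2 ≠ p ∧ r2 ≠ q)
    (hr3 : r3 ≠ x ∧ r3 ≠ y ∧ r3 ≠ p ∧ r3 ≠ q) (h12 : r1 ≠ r2) (h13 : r1 ≠ r3) (h23 : r2 ≠ r3)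
    (e1 : T r1 y p) (e2 : T r2 y p) (hb : b = p ∨ b = q) (e3 : T r3 y b) : False := by
  have cA : ∀ u t, T u x t → u ≠ y → t ≠ y → u = p ∨ t = p := by
    intro u t h hu ht
    have g0 := hd _ _ _ h
    have g1 := hi _ _ _ _ _ _ h e1
    have g2 := hi _ _ _ _ _ _ h e2
    have g3 := hi _ _ _ _ _ _ h e3
    grind
  have hx : ∀ v, v ≠ x → v ≠ y → v ≠ p → T v x p := by
    intro v h1 h2 h3
    obtain ⟨a, ha, h4⟩ := hA v h1 h2
    rcases cA v a h4 h2 ha with h5 | h5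
    · exact absurd h5 h3
    · rw [← h5]
      exact h4
  have f1 := hx r1 hr1.1 hr1.2.1 hr1.2.2.1
  have f2 := hx r2 hr2.1 hr2.2.1 hr2.2.2.1
  have f3 := hx r3 hr3.1 hr3.2.1 hr3.2.2.1
  have cB : ∀ u t, T u y t → u ≠ x → t ≠ x → u = p ∨ t = p := by
    intro u t h hu ht
    have g0 := hd _ _ _ h
    have g1 := hi _ _ _ _ _ _ h f1
    have g2 := hi _ _ _ _ _ _ h f2
    have g3 := hi _ _ _ _ _ _ h f3
    grind
  have cC : ∀ s t, T r1 s t → (s = x ∨ s = y ∨ s = p) ∧ (t = x ∨ t = y ∨ t = p) := by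
    intro s t h
    have g0 := hd _ _ _ h
    have g1 := hc _ _ _ h
    have k1 := cA r1 t
    have k2 := cB r1 t
    have k3 := cA r1 s
    have k4 := cB r1 s
    have h' := s2 _ _ _ h
    grind
  obtain ⟨w, a1, b1, c1, g1, g2, g3, g4, g5, g6⟩ := h0 r1
  have j1 := cC _ _ g4
  have j2 := cC _ _ g5
  have j3 := cC _ _ g6
  have j4 := hd _ _ _ g4
  have j5 := hd _ _ _ g5
  have j6 := hd _ _ _ g6
  grind

/-- Intersecting 3-graphs on at least seven vertices: some vertex has small codegrees, or its link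
is a star. -/
theorem s7_main {V : Type} [Fintype V] [DecidableEq V] (H : Finset (Finset V))
    (hH : ∀ e ∈ H, e.card = 3) (hI : ∀ e ∈ H, ∀ f ∈ H, ¬ Disjoint e f)
    (hV : 7 ≤ Fintype.card V)
    (h0 : ∀ v, ∃ w, 3 ≤ (Finset.univ.filter fun u => ({v, w, u} : Finset V) ∈ H).card)
    (h1 : ∀ v x, v ≠ x → ∃ a b, ({v, a, b} : Finset V) ∈ H ∧ a ≠ x ∧ b ≠ x) : False := by
  obtain ⟨T, hT⟩ : ∃ T : V → V → V → Prop, ∀ a b c, T a b c ↔ ({a, b, c} : Finset V) ∈ H :=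
    ⟨fun a b c => ({a, b, c} : Finset V) ∈ H, fun _ _ _ => Iff.rfl⟩
  have s1 : ∀ a b c, T a b c → T b a c := by
    intro a b c h
    rw [hT] at h ⊢
    rw [Finset.insert_comm]
    exact h
  have s2 : ∀ a b c, T a b c → T a c b := by
    intro a b c h
    rw [hT] at h ⊢
    rw [Finset.pair_comm]
    exact h
  have hd : ∀ a b c, T a b c → a ≠ b ∧ a ≠ c ∧ b ≠ c := by
    intro a b c h
    rw [hT] at h
    have h3 := hH _ h
    refine ⟨?_, ?_, ?_⟩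
    · rintro rfl
      rw [Finset.insert_eq_of_mem (by simp)] at h3
      have h4 : ({a, c} : Finset V).card ≤ 2 := Finset.card_le_two
      omega
    · rintro rfl
      rw [Finset.insert_eq_of_mem (by simp)] at h3
      have h4 : ({b, a} : Finset V).card ≤ 2 := Finset.card_le_two
      omega
    · rintro rfl
      rw [Finset.pair_eq_singleton] at h3
      have h4 : ({a, b} : Finset V).card ≤ 2 := Finset.card_le_two
      omega
  have hi : ∀ a b c d e f, T a b c → T d e f →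
      a = d ∨ a = e ∨ a = f ∨ b = d ∨ b = e ∨ b = f ∨ c = d ∨ c = e ∨ c = f := by
    intro a b c d e f h h'
    rw [hT] at h h'
    have h2 := hI _ h _ h'
    rw [Finset.not_disjoint_iff] at h2
    obtain ⟨z, hz, hz'⟩ := h2
    simp only [Finset.mem_insert, Finset.mem_singleton] at hz hz'
    grind
  have h0' : ∀ v, ∃ w a b c, a ≠ b ∧ a ≠ c ∧ b ≠ c ∧ T v w a ∧ T v w b ∧ T v w c := by
    intro v
    obtain ⟨w, hw⟩ := h0 v
    obtain ⟨a, ha, b, hb, c, hc, h2, h3, h4⟩ := Finset.two_lt_card.1 hw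
    rw [Finset.mem_filter] at ha hb hc
    exact ⟨w, a, b, c, h2, h3, h4, (hT _ _ _).2 ha.2, (hT _ _ _).2 hb.2, (hT _ _ _).2 hc.2⟩
  have h1' : ∀ v x, v ≠ x → ∃ a b, T v a b ∧ a ≠ x ∧ b ≠ x := by
    intro v x hx
    obtain ⟨a, b, h2, h3⟩ := h1 v x hx
    exact ⟨a, b, (hT _ _ _).2 h2, h3⟩
  have hout : ∀ S : Finset V, S.card ≤ 5 → ∃ r s, r ≠ s ∧ r ∉ S ∧ s ∉ S := by
    intro S hS
    have h2 : 1 < Sᶜ.card := by
      rw [Finset.card_compl]
      omega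
    obtain ⟨r, hr, s, hs, h3⟩ := Finset.one_lt_card.1 h2
    exact ⟨r, s, h3, Finset.mem_compl.1 hr, Finset.mem_compl.1 hs⟩
  have hout3 : ∀ S : Finset V, S.card ≤ 4 → ∃ r s t, r ≠ s ∧ r ≠ t ∧ s ≠ t ∧ r ∉ S ∧ s ∉ S ∧
      t ∉ S := by
    intro S hS
    have h2 : 2 < Sᶜ.card := by
      rw [Finset.card_compl]
      omega
    obtain ⟨r, hr, s, hs, t, ht, h3, h4, h5⟩ := Finset.two_lt_card.1 h2
    exact ⟨r, s, t, h3, h4, h5, Finset.mem_compl.1 hr, Finset.mem_compl.1 hs,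
      Finset.mem_compl.1 ht⟩
  obtain ⟨x⟩ : Nonempty V := Fintype.card_pos_iff.1 (by omega)
  obtain ⟨y, a, b, c, hab, hac, hbc, ea, eb, ec⟩ := h0' x
  have da := hd _ _ _ ea
  have db := hd _ _ _ eb
  have dc := hd _ _ _ ec
  by_cases hcase : ∃ p q r, T p q r ∧ (p ≠ x ∧ q ≠ x ∧ r ≠ x) ∧ (p ≠ y ∧ q ≠ y ∧ r ≠ y)
  · obtain ⟨p, q, r, e, hx, hy⟩ := hcase
    have de := hd _ _ _ e
    have ia := hi _ _ _ _ _ _ ea e
    have ib := hi _ _ _ _ _ _ eb e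
    have ic := hi _ _ _ _ _ _ ec e
    have eabc : T a b c := by
      have g1 := s1 _ _ _ e
      have g2 := s2 _ _ _ e
      have g3 := s2 _ _ _ g1
      have g4 := s1 _ _ _ g2
      have g5 := s1 _ _ _ g3
      grind
    obtain ⟨r, s, hrs, hr, hs⟩ := hout {x, y, a, b, c} Finset.card_le_five
    simp only [Finset.mem_insert, Finset.mem_singleton, not_or] at hr hs
    have key : ∀ v, (v ≠ x ∧ v ≠ y ∧ v ≠ a ∧ v ≠ b ∧ v ≠ c) → ∀ p q, T v p q →
        (p = x ∨ p = y ∨ q = x ∨ q = y) ∧ (p = a ∨ p = b ∨ p = c ∨ q = a ∨ q = b ∨ q = c) := by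
      intro v hv p q h
      have g0 := hd _ _ _ h
      have g1 := hi _ _ _ _ _ _ h ea
      have g2 := hi _ _ _ _ _ _ h eb
      have g3 := hi _ _ _ _ _ _ h ec
      have g4 := hi _ _ _ _ _ _ h eabc
      grind
    have hX : ∀ v, (v ≠ x ∧ v ≠ y ∧ v ≠ a ∧ v ≠ b ∧ v ≠ c) →
        ∃ t, T v x t ∧ (t = a ∨ t = b ∨ t = c) := by
      intro v hv
      obtain ⟨p, q, h2, h3, h4⟩ := h1' v y hv.2.1
      have h5 := key v hv p q h2
      have h6 := hd _ _ _ h2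
      by_cases h7 : p = x
      · subst h7
        exact ⟨q, h2, by grind⟩
      · have h8 : q = x := by grind
        subst h8
        exact ⟨p, s2 _ _ _ h2, by grind⟩
    have hY : ∀ v, (v ≠ x ∧ v ≠ y ∧ v ≠ a ∧ v ≠ b ∧ v ≠ c) →
        ∃ t, T v y t ∧ (t = a ∨ t = b ∨ t = c) := by
      intro v hv
      obtain ⟨p, q, h2, h3, h4⟩ := h1' v x hv.1
      have h5 := key v hv p q h2
      have h6 := hd _ _ _ h2
      by_cases h7 : p = y
      · subst h7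
        exact ⟨q, h2, by grind⟩
      · have h8 : q = y := by grind
        subst h8
        exact ⟨p, s2 _ _ _ h2, by grind⟩
    obtain ⟨s3, hs3, hs3'⟩ := hX s hs
    obtain ⟨s4, hs4, hs4'⟩ := hY s hs
    have kx : ∀ p, T r x p → p = s4 := by
      intro p h
      have g0 := hd _ _ _ h
      have g1 := hi _ _ _ _ _ _ h hs4
      have g2 := key r hr _ _ h
      grind
    have ky : ∀ p, T r y p → p = s3 := by
      intro p h
      have g0 := hd _ _ _ h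
      have g1 := hi _ _ _ _ _ _ h hs3
      have g2 := key r hr _ _ h
      grind
    obtain ⟨w, a1, b1, c1, g1, g2, g3, g4, g5, g6⟩ := h0' r
    have j1 := key r hr _ _ g4
    have j2 := key r hr _ _ g5
    have j3 := key r hr _ _ g6
    by_cases hwx : w = x
    · subst hwx
      exact g1 ((kx _ g4).trans (kx _ g5).symm)
    by_cases hwy : w = y
    · subst hwy
      exact g1 ((ky _ g4).trans (ky _ g5).symm)
    grind
  · have hc : ∀ p q r, T p q r → p = x ∨ q = x ∨ r = x ∨ p = y ∨ q = y ∨ r = y := by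
      intro p q r h
      by_contra h2
      push Not at h2
      exact hcase ⟨p, q, r, h, ⟨h2.1, h2.2.1, h2.2.2.1⟩, h2.2.2.2⟩
    have hA : ∀ v, v ≠ x → v ≠ y → ∃ a, a ≠ y ∧ T v x a := by
      intro v hvx hvy
      obtain ⟨p, q, h2, h3, h4⟩ := h1' v y hvy
      have h5 := hc _ _ _ h2
      by_cases h7 : p = x
      · subst h7
        exact ⟨q, h4, h2⟩
      · have h8 : q = x := by grind
        subst h8
        exact ⟨p, h3, s2 _ _ _ h2⟩
    have hB : ∀ v, v ≠ x → v ≠ y → ∃ a, a ≠ x ∧ T v y a := by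
      intro v hvx hvy
      obtain ⟨p, q, h2, h3, h4⟩ := h1' v x hvx
      have h5 := hc _ _ _ h2
      by_cases h7 : p = y
      · subst h7
        exact ⟨q, h4, h2⟩
      · have h8 : q = y := by grind
        subst h8
        exact ⟨p, h3, s2 _ _ _ h2⟩
    obtain ⟨q, hq, epq⟩ := hA a da.2.1.symm da.2.2.symm
    have dpq := hd _ _ _ epq
    obtain ⟨r1, r2, r3, h12, h13, h23, hr1, hr2, hr3⟩ := hout3 {x, y, a, q} Finset.card_le_four
    simp only [Finset.mem_insert, Finset.mem_singleton, not_or] at hr1 hr2 hr3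
    have hb : ∀ v, (v ≠ x ∧ v ≠ y ∧ v ≠ a ∧ v ≠ q) → T v y a ∨ T v y q := by
      intro v hv
      obtain ⟨t, ht, h2⟩ := hB v hv.1 hv.2.1
      have g0 := hd _ _ _ h2
      have g1 := hi _ _ _ _ _ _ h2 epq
      have g2 : t = a ∨ t = q := by grind
      rcases g2 with g2 | g2
      · left
        rw [← g2]
        exact h2
      · right
        rw [← g2]
        exact h2
    have hpa : a ≠ x ∧ a ≠ y := ⟨da.2.1.symm, da.2.2.symm⟩
    have hqa : q ≠ x ∧ q ≠ y := ⟨dpq.2.2.symm, hq⟩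
    have sw : ∀ v, (v ≠ x ∧ v ≠ y ∧ v ≠ a ∧ v ≠ q) → (v ≠ x ∧ v ≠ y ∧ v ≠ q ∧ v ≠ a) :=
      fun v h => ⟨h.1, h.2.1, h.2.2.2, h.2.2.1⟩
    have C1 := s7_core T s1 s2 hd hi h0' x y da.1 hc hA a q
    have C2 := s7_core T s1 s2 hd hi h0' x y da.1 hc hA q a
    rcases hb r1 hr1 with k1 | k1 <;> rcases hb r2 hr2 with k2 | k2 <;>
      rcases hb r3 hr3 with k3 | k3
    · exact C1 r1 r2 r3 a hpa hqa hr1 hr2 hr3 h12 h13 h23 k1 k2 (Or.inl rfl) k3
    · exact C1 r1 r2 r3 q hpa hqa hr1 hr2 hr3 h12 h13 h23 k1 k2 (Or.inr rfl) k3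
    · exact C1 r1 r3 r2 q hpa hqa hr1 hr3 hr2 h13 h12 h23.symm k1 k3 (Or.inr rfl) k2
    · exact C2 r2 r3 r1 a hqa hpa (sw _ hr2) (sw _ hr3) (sw _ hr1) h23 h12.symm h13.symm k2 k3
        (Or.inr rfl) k1
    · exact C1 r2 r3 r1 q hpa hqa hr2 hr3 hr1 h23 h12.symm h13.symm k2 k3 (Or.inr rfl) k1
    · exact C2 r1 r3 r2 a hqa hpa (sw _ hr1) (sw _ hr3) (sw _ hr2) h13 h12 h23.symm k1 k3
        (Or.inr rfl) k2
    · exact C2 r1 r2 r3 a hqa hpa (sw _ hr1) (sw _ hr2) (sw _ hr3) h12 h13 h23 k1 k2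
        (Or.inr rfl) k3
    · exact C2 r1 r2 r3 q hqa hpa (sw _ hr1) (sw _ hr2) (sw _ hr3) h12 h13 h23 k1 k2
        (Or.inl rfl) k3

end Pool.MP_62c2ba
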