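import Pool.Agent.H.MP_62c2ba_co.S1A
import Pool.Agent.H.MP_62c2ba_co.S1B

/-! # Intersecting 3-graphs -/

set_option autoImplicit false

namespace Pool.MP_62c2ba

/-- An intersecting 3-graph on `n ≥ 6` vertices has a vertex whose link has no eigenvalue greater
than `√(n - 2)`. -/
theorem s1_inter (n : ℕ) (hn : 6 ≤ n) (H : Finset (Finset (Fin n))) (hH : ∀ e ∈ H, e.card = 3)
    (hI : ∀ e ∈ H, ∀ f ∈ H, ¬ Disjoint e f)
    (hρ : ∀ v : Fin n, ∃ μ ∈ spectrum ℝ ((link H v).adjMatrix ℝ), Real.sqrt ((n : ℝ) - 2) < μ) :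
    False := by
  have hn' : (6 : ℝ) ≤ n := by exact_mod_cast hn
  have h2 : (2 : ℝ) ≤ Real.sqrt ((n : ℝ) - 2) := by
    rw [Real.le_sqrt' (by norm_num)]
    linarith
  rcases Nat.lt_or_ge n 7 with h7 | h7
  · obtain rfl : n = 6 := by omega
    obtain ⟨v, z, hz, hw⟩ := s6_main H hI
    obtain ⟨μ, hμ, h3⟩ := hρ v
    have h4 := one_wt H v (fun w => (z w : ℝ)) (fun w => by exact_mod_cast hz w) 2
      (fun w hwv => by exact_mod_cast hw w hwv) μ hμ
    linarith
  · refine s7_main H hH hI (by rw [Fintype.card_fin]; exact h7) (fun v => ?_)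
      (fun v x hvx => ?_)
    · by_contra h3
      push Not at h3
      obtain ⟨μ, hμ, h4⟩ := hρ v
      have h5 := one_deg H v (fun w => Nat.le_of_lt_succ (h3 w)) μ hμ
      linarith
    · by_contra h3
      push Not at h3
      obtain ⟨μ, hμ, h4⟩ := hρ v
      have h0 : 0 ≤ μ := by linarith
      have h5 := one_star H v x hvx (fun a b h6 => by
        by_cases h7 : a = x
        · exact Or.inl h7
        · exact Or.inr (h3 a b h6 h7)) μ h0 hμ
      rw [Fintype.card_fin] at h5
      have h6 : Real.sqrt ((n : ℝ) - 2) * Real.sqrt ((n : ℝ) - 2) = (n : ℝ) - 2 :=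
        Real.mul_self_sqrt (by linarith)
      nlinarith [Real.sqrt_nonneg ((n : ℝ) - 2)]

/-- The cases `s = 0` and `s = 1`. -/
theorem s1_main (n s : ℕ) (hs : s ≤ 1) (hn : 3 * s + 3 ≤ n)
    (H : Finset (Finset (Fin n))) (hH : ∀ e ∈ H, e.card = 3)
    (hρ : ∀ v : Fin n, ∃ μ ∈ spectrum ℝ ((link H v).adjMatrix ℝ),
      ((s : ℝ) - 1 + Real.sqrt (((s : ℝ) - 1) ^ 2 + 4 * s * ((n : ℝ) - s - 1))) / 2 < μ) :
    ∃ M ⊆ H, M.card = s + 1 ∧ ∀ e ∈ M, ∀ f ∈ M, e ≠ f → Disjoint e f := by
  rcases Nat.le_one_iff_eq_zero_or_eq_one.1 hs with rfl | rfl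
  · obtain ⟨μ, hμ, h1⟩ := hρ ⟨0, by omega⟩
    have h2 : (0 : ℝ) < μ := by
      refine lt_of_le_of_lt (le_of_eq ?_) h1
      norm_num
    rcases H.eq_empty_or_nonempty with h3 | ⟨e, he⟩
    · exfalso
      have h4 := one_wt H ⟨0, by omega⟩ (fun _ => 1) (fun _ => one_pos) 0 (fun w _ => by
        rw [h3]
        simp) μ hμ
      linarith
    · refine ⟨{e}, Finset.singleton_subset_iff.2 he, Finset.card_singleton _, ?_⟩
      intro f hf g hg hfg
      rw [Finset.mem_singleton] at hf hg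
      exact absurd (hf.trans hg.symm) hfg
  · by_contra h1
    have hn' : (6 : ℝ) ≤ n := by exact_mod_cast hn
    refine s1_inter n hn H hH (fun e he f hf hd => ?_) (fun v => ?_)
    · by_cases hef : e = f
      · subst hef
        rw [disjoint_self, Finset.bot_eq_empty] at hd
        have h2 := hH e he
        rw [hd] at h2
        exact absurd h2 (by simp)
      · refine h1 ⟨{e, f}, ?_, ?_, ?_⟩
        · intro g hg
          rw [Finset.mem_insert, Finset.mem_singleton] at hg
          rcases hg with rfl | rfl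
          · exact he
          · exact hf
        · rw [Finset.card_pair hef]
        · intro g hg k hk hgk
          rw [Finset.mem_insert, Finset.mem_singleton] at hg hk
          rcases hg with rfl | rfl <;> rcases hk with rfl | rfl
          · exact absurd rfl hgk
          · exact hd
          · exact hd.symm
          · exact absurd rfl hgk
    · obtain ⟨μ, hμ, h2⟩ := hρ v
      refine ⟨μ, hμ, lt_of_le_of_lt (le_of_eq ?_) h2⟩
      push_cast
      rw [show ((1 : ℝ) - 1) ^ 2 + 4 * 1 * ((n : ℝ) - 1 - 1) = 2 ^ 2 * ((n : ℝ) - 2) by ring,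
        Real.sqrt_mul (by norm_num), Real.sqrt_sq (by norm_num)]
      ring

end Pool.MP_62c2ba
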