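import Pool.Agent.H.MP_62c2ba_co.Defs

/-! # An upper bound for the eigenvalues of a link graph, with two special sets -/

set_option autoImplicit false

open Finset

namespace Pool.MP_62c2ba

/-- `0` for the pairs between `Z` and `Q`, and `1` for the other pairs. -/
def ex {V : Type} [DecidableEq V] (Z Q : Finset V) (w w' : V) : ℕ :=
  if (w ∈ Z ∧ w' ∈ Q) ∨ (w' ∈ Z ∧ w ∈ Q) then 0 else 1

/-- The inequality for a nonnegative vector `x`. -/
theorem specZ_core {V : Type} [Fintype V] [DecidableEq V] (v : V) (A : Finset V) (hv : v ∉ A)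
    (Z Q : Finset V) (hZQ : Z ⊆ Q) (hQ : ∀ i ∈ Q, i ∉ A ∧ i ≠ v)
    (a : V → V → ℝ) (a0 : ∀ i j, 0 ≤ a i j) (a1 : ∀ i j, a i j ≤ 1) (ad : ∀ i, a i i = 0)
    (x : V → ℝ) (x0 : ∀ i, 0 ≤ x i) (xv : x v = 0) (xp : 0 < ∑ i, x i)
    (μ : ℝ) (h0 : 0 ≤ μ) (hx : ∀ i, i ≠ v → μ * x i ≤ ∑ j, a i j * x j) :
    μ * (μ + 1 - A.card) ≤ A.card * ((Fintype.card V : ℝ) - 1 - A.card) +
      Z.card * (μ + 1 - A.card + (Q.card - Z.card)) +
      ∑ w ∈ Aᶜ.erase v, ∑ w' ∈ Aᶜ.erase v, a w w' * (ex Z Q w w' : ℝ) := by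
  obtain ⟨W, hW⟩ : ∃ W, W = Aᶜ.erase v := ⟨_, rfl⟩
  obtain ⟨S, hS⟩ : ∃ S, S = ∑ i ∈ A, x i := ⟨_, rfl⟩
  obtain ⟨T, hT⟩ : ∃ T, T = ∑ i ∈ W, x i := ⟨_, rfl⟩
  obtain ⟨X, hX⟩ : ∃ X, X = ∑ i, x i := ⟨_, rfl⟩
  obtain ⟨E, hE⟩ : ∃ E, E = ∑ w ∈ W, ∑ w' ∈ W, a w w' * (ex Z Q w w' : ℝ) := ⟨_, rfl⟩
  rw [← hW, ← hE]
  rw [← hX] at xp
  have hsplit : ∀ g : V → ℝ, g v = 0 → ∑ i, g i = ∑ i ∈ A, g i + ∑ i ∈ W, g i := by
    intro g hg
    rw [← Finset.sum_add_sum_compl A g]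
    congr 1
    rw [hW]
    exact (Finset.sum_erase _ hg).symm
  have hZ : X = S + T := by rw [hX, hS, hT, hsplit x xv]
  have hN : (W.card : ℝ) = (Fintype.card V : ℝ) - 1 - A.card := by
    have hvc : v ∈ Aᶜ := Finset.mem_compl.2 hv
    have h1 : W.card + 1 = Fintype.card V - A.card := by
      rw [hW, Finset.card_erase_add_one hvc, Finset.card_compl]
    have h2 : A.card ≤ Fintype.card V := Finset.card_le_univ A
    have h3 : W.card + 1 + A.card = Fintype.card V := by omega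
    have h4 : (W.card : ℝ) + 1 + A.card = Fintype.card V := by exact_mod_cast h3
    linarith
  have hQW : Q ⊆ W := by
    intro i hi
    obtain ⟨h1, h2⟩ := hQ i hi
    rw [hW]
    exact Finset.mem_erase.2 ⟨h2, Finset.mem_compl.2 h1⟩
  have hZW : Z ⊆ W := hZQ.trans hQW
  have S0 : 0 ≤ S := by rw [hS]; exact Finset.sum_nonneg fun i _ => x0 i
  have T0 : 0 ≤ T := by rw [hT]; exact Finset.sum_nonneg fun i _ => x0 i
  -- one coordinate
  have hcoord : ∀ i, (μ + 1) * x i ≤ X := by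
    intro i
    by_cases hiv : i = v
    · rw [hiv, xv, mul_zero]
      exact xp.le
    · have h2 : μ * x i ≤ X - x i := by
        refine (hx i hiv).trans ?_
        rw [hX, ← Finset.add_sum_erase Finset.univ _ (Finset.mem_univ i),
          ← Finset.add_sum_erase Finset.univ x (Finset.mem_univ i), ad, zero_mul, zero_add,
          add_sub_cancel_left]
        refine Finset.sum_le_sum fun j _ => ?_
        exact mul_le_of_le_one_left (x0 j) (a1 i j)
      linarith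
  have hset : ∀ F : Finset V, (μ + 1) * ∑ i ∈ F, x i ≤ F.card * X := by
    intro F
    rw [Finset.mul_sum]
    refine (Finset.sum_le_card_nsmul _ _ X fun i _ => hcoord i).trans (le_of_eq ?_)
    rw [nsmul_eq_mul]
  have h1 : (μ + 1) * S ≤ A.card * X := by
    rw [hS]
    exact hset A
  -- the sum over `W`
  have h2 : ∀ i ∈ W, μ * x i ≤ S + ∑ j ∈ W, a i j * x j := by
    intro i hi
    have hiv : i ≠ v := by
      rw [hW] at hi
      exact Finset.ne_of_mem_erase hi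
    refine (hx i hiv).trans ?_
    rw [hsplit (fun j => a i j * x j) (by simp only [xv, mul_zero]), hS]
    gcongr with j hj
    exact mul_le_of_le_one_left (x0 j) (a1 i j)
  obtain ⟨D, hD⟩ : ∃ D, D = ∑ i ∈ W, ∑ j ∈ W, a i j * (ex Z Q i j : ℝ) * x j := ⟨_, rfl⟩
  obtain ⟨Y, hY⟩ : ∃ Y, Y = ∑ j ∈ Z, x j := ⟨_, rfl⟩
  have hQT : ∑ j ∈ Q, x j ≤ T := by
    rw [hT]
    exact Finset.sum_le_sum_of_subset_of_nonneg hQW fun i _ _ => x0 i
  have hcQ : (((Q \ Z).card : ℕ) : ℝ) = (Q.card : ℝ) - Z.card := by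
    rw [Finset.card_sdiff_of_subset hZQ, Nat.cast_sub (Finset.card_le_card hZQ)]
  have h3 : ∑ i ∈ W, ∑ j ∈ W, a i j * x j ≤ Z.card * T + (Q.card - Z.card) * Y + D := by
    have g1 : ∀ i ∈ W, ∀ j ∈ W, a i j * x j ≤ (if i ∈ Z then (if j ∈ Q then x j else 0) else 0) +
        (if i ∈ Q \ Z then (if j ∈ Z then x j else 0) else 0) +
        a i j * (ex Z Q i j : ℝ) * x j := by
      intro i _ j _
      have e1 : 0 ≤ a i j * x j := mul_nonneg (a0 i j) (x0 j)
      have e2 : a i j * x j ≤ x j := mul_le_of_le_one_left (x0 j) (a1 i j)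
      have e3 := x0 j
      unfold ex
      by_cases c1 : i ∈ Z
      · have c1' : i ∈ Q := hZQ c1
        by_cases c2 : j ∈ Q
        · rw [if_pos (Or.inl ⟨c1, c2⟩), if_pos c1, if_pos c2]
          rw [if_neg (fun h => (Finset.mem_sdiff.1 h).2 c1)]
          simp only [Nat.cast_zero, mul_zero, zero_mul, add_zero]
          exact e2
        · have c3 : ¬ ((i ∈ Z ∧ j ∈ Q) ∨ (j ∈ Z ∧ i ∈ Q)) := by
            rintro (⟨-, h⟩ | ⟨h, -⟩)
            · exact c2 h
            · exact c2 (hZQ h)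
          rw [if_neg c3, if_pos c1, if_neg c2, if_neg (fun h => (Finset.mem_sdiff.1 h).2 c1)]
          simp only [Nat.cast_one, mul_one, zero_add, le_refl]
      · rw [if_neg c1]
        by_cases c2 : j ∈ Z ∧ i ∈ Q
        · rw [if_pos (Or.inr c2), if_pos (Finset.mem_sdiff.2 ⟨c2.2, c1⟩), if_pos c2.1]
          simp only [Nat.cast_zero, mul_zero, zero_mul, add_zero, zero_add]
          exact e2
        · have c3 : ¬ ((i ∈ Z ∧ j ∈ Q) ∨ (j ∈ Z ∧ i ∈ Q)) := by
            rintro (⟨h, -⟩ | h)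
            · exact c1 h
            · exact c2 h
          rw [if_neg c3]
          have e4 : (0 : ℝ) ≤ if i ∈ Q \ Z then (if j ∈ Z then x j else 0) else 0 := by
            split_ifs <;> simp [e3]
          simp only [Nat.cast_one, mul_one, zero_add]
          linarith
    refine (Finset.sum_le_sum fun i hi => Finset.sum_le_sum fun j hj => g1 i hi j hj).trans ?_
    simp only [Finset.sum_add_distrib]
    rw [← hD]
    have g2 : ∑ i ∈ W, ∑ j ∈ W, (if i ∈ Z then (if j ∈ Q then x j else 0) else 0) ≤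
        Z.card * T := by
      have g3 : ∀ i ∈ W, ∑ j ∈ W, (if i ∈ Z then (if j ∈ Q then x j else 0) else 0) =
          if i ∈ Z then ∑ j ∈ Q, x j else 0 := by
        intro i _
        split_ifs with h4
        · rw [← Finset.sum_filter, Finset.filter_mem_eq_inter,
            Finset.inter_eq_right.2 hQW]
        · simp
      rw [Finset.sum_congr rfl g3, ← Finset.sum_filter, Finset.filter_mem_eq_inter,
        Finset.inter_eq_right.2 hZW, Finset.sum_const, nsmul_eq_mul]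
      exact mul_le_mul_of_nonneg_left hQT (Nat.cast_nonneg _)
    have g4 : ∑ i ∈ W, ∑ j ∈ W, (if i ∈ Q \ Z then (if j ∈ Z then x j else 0) else 0) =
        (Q.card - Z.card) * Y := by
      have g3 : ∀ i ∈ W, ∑ j ∈ W, (if i ∈ Q \ Z then (if j ∈ Z then x j else 0) else 0) =
          if i ∈ Q \ Z then Y else 0 := by
        intro i _
        split_ifs with h4
        · rw [← Finset.sum_filter, Finset.filter_mem_eq_inter,
            Finset.inter_eq_right.2 hZW, hY]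
        · simp
      rw [Finset.sum_congr rfl g3, ← Finset.sum_filter, Finset.filter_mem_eq_inter,
        Finset.inter_eq_right.2 (Finset.sdiff_subset.trans hQW), Finset.sum_const, nsmul_eq_mul,
        hcQ]
    rw [g4]
    linarith
  have h4 : μ * T ≤ W.card * S + (Z.card * T + (Q.card - Z.card) * Y + D) := by
    have h5 := Finset.sum_le_sum h2
    rw [← Finset.mul_sum, ← hT, Finset.sum_add_distrib, Finset.sum_const, nsmul_eq_mul] at h5
    linarith
  have h5 : (μ + 1) * Y ≤ Z.card * X := by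
    rw [hY]
    exact hset Z
  have h6 : (μ + 1) * D ≤ E * X := by
    rw [hD, hE, Finset.mul_sum, Finset.sum_mul]
    refine Finset.sum_le_sum fun i _ => ?_
    rw [Finset.mul_sum, Finset.sum_mul]
    refine Finset.sum_le_sum fun j _ => ?_
    have g1 : 0 ≤ a i j * (ex Z Q i j : ℝ) := mul_nonneg (a0 i j) (Nat.cast_nonneg _)
    calc (μ + 1) * (a i j * (ex Z Q i j : ℝ) * x j) =
        (a i j * (ex Z Q i j : ℝ)) * ((μ + 1) * x j) := by ring
      _ ≤ (a i j * (ex Z Q i j : ℝ)) * X := mul_le_mul_of_nonneg_left (hcoord j) g1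
  have hzW : (Z.card : ℝ) ≤ W.card := by exact_mod_cast Finset.card_le_card hZW
  have hzQ : (Z.card : ℝ) ≤ Q.card := by exact_mod_cast Finset.card_le_card hZQ
  have hz0 : (0 : ℝ) ≤ Z.card := Nat.cast_nonneg _
  have hr0 : (0 : ℝ) ≤ A.card := Nat.cast_nonneg _
  rw [← hN]
  obtain ⟨z, hz⟩ : ∃ z : ℝ, z = Z.card := ⟨_, rfl⟩
  obtain ⟨q, hq⟩ : ∃ q : ℝ, q = Q.card := ⟨_, rfl⟩
  obtain ⟨r, hr⟩ : ∃ r : ℝ, r = A.card := ⟨_, rfl⟩
  obtain ⟨w, hw⟩ : ∃ w : ℝ, w = W.card := ⟨_, rfl⟩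
  rw [← hz, ← hq, ← hr, ← hw]
  rw [← hr] at h1 hr0
  rw [← hz, ← hq, ← hw] at h4
  rw [← hz] at h5 hz0
  rw [← hz, ← hw] at hzW
  rw [← hz, ← hq] at hzQ
  have k1 : (μ + 1) * (μ * T) ≤ (μ + 1) * (w * S + (z * T + (q - z) * Y + D)) :=
    mul_le_mul_of_nonneg_left h4 (by linarith)
  have k2 : (μ + w - z) * ((μ + 1) * S) ≤ (μ + w - z) * (r * X) :=
    mul_le_mul_of_nonneg_left h1 (by linarith)
  have k3 : (q - z) * ((μ + 1) * Y) ≤ (q - z) * (z * X) :=
    mul_le_mul_of_nonneg_left h5 (by linarith)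
  have hTX : T = X - S := by linarith
  rw [hTX] at k1
  have k4 : μ * (μ + 1) * X ≤ (r * (μ + w - z) + z * (μ + 1) + (q - z) * z + E) * X := by
    nlinarith
  have k5 := le_of_mul_le_mul_right k4 xp
  nlinarith

/-- The eigenvalues of the link graph of `v`. -/
theorem specZ {V : Type} [Fintype V] [DecidableEq V] (H : Finset (Finset V)) (v : V)
    (A : Finset V) (hv : v ∉ A) (Z Q : Finset V) (hZQ : Z ⊆ Q) (hQ : ∀ i ∈ Q, i ∉ A ∧ i ≠ v) (μ : ℝ) (h0 : 0 ≤ μ)
    (hμ : μ ∈ spectrum ℝ ((link H v).adjMatrix ℝ)) :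
    μ * (μ + 1 - A.card) ≤ A.card * ((Fintype.card V : ℝ) - 1 - A.card) +
      Z.card * (μ + 1 - A.card + (Q.card - Z.card)) +
      ((∑ w ∈ Aᶜ, ∑ w' ∈ Aᶜ, tr H v w w' * ex Z Q w w' : ℕ) : ℝ) := by
  rw [spectrum.mem_iff, Matrix.isUnit_iff_isUnit_det, isUnit_iff_ne_zero, not_not,
    ← Matrix.exists_mulVec_eq_zero_iff] at hμ
  obtain ⟨z, hz0, hz⟩ := hμ
  obtain ⟨a, ha⟩ : ∃ a : V → V → ℝ, a = fun i j =>
      if i ≠ j ∧ ({v, i, j} : Finset V) ∈ H then 1 else 0 := ⟨_, rfl⟩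
  have heq : ∀ i, μ * z i = ∑ j, (link H v).adjMatrix ℝ i j * z j := by
    intro i
    have h1 := congrFun hz i
    rw [Matrix.sub_mulVec, Pi.sub_apply, Pi.zero_apply, sub_eq_zero] at h1
    rw [Algebra.algebraMap_eq_smul_one, Matrix.smul_mulVec, Matrix.one_mulVec] at h1
    exact h1
  have hcore := specZ_core v A hv Z Q hZQ hQ a (fun i j => by rw [ha]; positivity)
    (fun i j => by rw [ha]; dsimp only; split_ifs <;> norm_num)
    (fun i => by rw [ha]; simp)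
    (fun u => if h : u ≠ v then |z ⟨u, h⟩| else 0) (fun i => by split_ifs <;> positivity)
    (by simp) ?_ μ h0 ?_
  · refine hcore.trans ?_
    gcongr
    push_cast
    have h1 : ∀ w w', a w w' * (ex Z Q w w' : ℝ) ≤ (tr H v w w' : ℝ) * (ex Z Q w w' : ℝ) := by
      intro w w'
      refine mul_le_mul_of_nonneg_right ?_ (Nat.cast_nonneg _)
      rw [ha]
      unfold tr
      dsimp only
      split_ifs with g1 g2 g2 <;> simp_all
    have h2 : ∀ w w', 0 ≤ (tr H v w w' : ℝ) * (ex Z Q w w' : ℝ) := fun w w' =>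
      mul_nonneg (Nat.cast_nonneg _) (Nat.cast_nonneg _)
    calc ∑ w ∈ Aᶜ.erase v, ∑ w' ∈ Aᶜ.erase v, a w w' * (ex Z Q w w' : ℝ)
        ≤ ∑ w ∈ Aᶜ.erase v, ∑ w' ∈ Aᶜ, (tr H v w w' : ℝ) * (ex Z Q w w' : ℝ) := by
          refine Finset.sum_le_sum fun w _ => ?_
          refine (Finset.sum_le_sum fun w' _ => h1 w w').trans ?_
          exact Finset.sum_le_sum_of_subset_of_nonneg (Finset.erase_subset _ _)
            fun w' _ _ => h2 w w'
      _ ≤ ∑ w ∈ Aᶜ, ∑ w' ∈ Aᶜ, (tr H v w w' : ℝ) * (ex Z Q w w' : ℝ) :=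
          Finset.sum_le_sum_of_subset_of_nonneg (Finset.erase_subset _ _)
            fun w _ _ => Finset.sum_nonneg fun w' _ => h2 w w'
  · obtain ⟨i, hi⟩ := Function.ne_iff.1 hz0
    refine Finset.sum_pos' (fun j _ => by split_ifs <;> positivity)
      ⟨i.1, Finset.mem_univ _, ?_⟩
    rw [dif_pos i.2]
    exact abs_pos.2 hi
  · intro i hi
    rw [dif_pos hi]
    have h1 : μ * |z ⟨i, hi⟩| = |μ * z ⟨i, hi⟩| := by rw [abs_mul, abs_of_nonneg h0]
    rw [h1, heq]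
    refine (Finset.abs_sum_le_sum_abs _ _).trans ?_
    have h2 : ∑ j, a i j * (if h : j ≠ v then |z ⟨j, h⟩| else 0) =
        ∑ j : {u : V // u ≠ v}, a i j.1 * |z j| := by
      rw [← Fintype.sum_subtype_add_sum_subtype (fun u => u ≠ v)]
      have h3 : ∑ j : {u : V // ¬ u ≠ v}, a i j.1 *
          (if h : j.1 ≠ v then |z ⟨j.1, h⟩| else 0) = 0 :=
        Finset.sum_eq_zero fun j _ => by rw [dif_neg j.2, mul_zero]
      rw [h3, add_zero]
      exact Finset.sum_congr rfl fun j _ => by rw [dif_pos j.2]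
    rw [h2]
    refine le_of_eq (Finset.sum_congr rfl fun j _ => ?_)
    rw [abs_mul]
    congr 1
    rw [SimpleGraph.adjMatrix_apply, ha]
    have h3 : (link H v).Adj ⟨i, hi⟩ j ↔ (i ≠ j.1 ∧ ({v, i, j.1} : Finset V) ∈ H) := by
      change ((⟨i, hi⟩ : {u : V // u ≠ v}) ≠ j ∧ ({v, i, j.1} : Finset V) ∈ H) ↔ _
      rw [Ne, Subtype.ext_iff]
    beta_reduce
    by_cases h4 : (i ≠ j.1 ∧ ({v, i, j.1} : Finset V) ∈ H)
    · rw [if_pos (h3.2 h4), if_pos h4, abs_one]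
    · rw [if_neg (fun h5 => h4 (h3.1 h5)), if_neg h4, abs_zero]

end Pool.MP_62c2ba
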