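import Pool.Agent.H.MP_62c2ba_co.Cnt

/-! # The total count, and a good vertex -/

set_option autoImplicit false

open Finset

namespace Pool.MP_62c2ba

variable {V : Type} [Fintype V] [DecidableEq V]

omit [Fintype V] in
theorem sum_bi {f : V → ℕ} {S : Finset (Finset V)} (hS : ∀ e ∈ S, ∀ g ∈ S, e ≠ g → Disjoint e g) :
    ∑ w ∈ S.biUnion id, f w = ∑ E ∈ S, ∑ w ∈ E, f w := by
  rw [Finset.sum_biUnion]
  · rfl
  · intro e he g hg hne
    exact hS e he g hg hne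

/-- Step 1 of the count, for one vertex `v`. -/
theorem one_v {H M R : Finset (Finset V)} {ctr : Finset V → V} (h : Cfg H M R ctr) {v : V}
    (hv : v ∈ out M) :
    ∑ w ∈ (R.image ctr)ᶜ, ∑ w' ∈ (R.image ctr)ᶜ, tr H v w w' ≤
      ∑ w ∈ (M \ R).biUnion id, ∑ w' ∈ (M \ R).biUnion id, tr H v w w' +
      2 * (∑ w ∈ (M \ R).biUnion id, ∑ b ∈ R.biUnion (fun F => F.erase (ctr F)), tr H v w b) +
      2 * (∑ w ∈ (M \ R).biUnion id, ∑ u ∈ out M, tr H v w u) := by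
  obtain ⟨P, hP⟩ : ∃ P, P = (M \ R).biUnion id := ⟨_, rfl⟩
  obtain ⟨B, hB⟩ : ∃ B, B = R.biUnion (fun F => F.erase (ctr F)) := ⟨_, rfl⟩
  rw [← hP, ← hB]
  have hBm : ∀ b ∈ B, ∃ F ∈ R, b ∈ F ∧ b ≠ ctr F := by
    intro b hb
    rw [hB, Finset.mem_biUnion] at hb
    obtain ⟨F, hF, hb⟩ := hb
    rw [Finset.mem_erase] at hb
    exact ⟨F, hF, hb.2, hb.1⟩
  have hsub : (R.image ctr)ᶜ ⊆ P ∪ (B ∪ out M) := by
    intro w hw
    rw [Finset.mem_compl] at hw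
    by_cases hwo : w ∈ out M
    · exact Finset.mem_union_right _ (Finset.mem_union_right _ hwo)
    · rw [mem_out] at hwo
      push Not at hwo
      obtain ⟨F, hF, hwF⟩ := hwo
      by_cases hFR : F ∈ R
      · refine Finset.mem_union_right _ (Finset.mem_union_left _ ?_)
        rw [hB, Finset.mem_biUnion]
        refine ⟨F, hFR, Finset.mem_erase.2 ⟨fun h1 => hw ?_, hwF⟩⟩
        rw [h1]
        exact Finset.mem_image_of_mem ctr hFR
      · refine Finset.mem_union_left _ ?_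
        rw [hP, Finset.mem_biUnion]
        exact ⟨F, Finset.mem_sdiff.2 ⟨hF, hFR⟩, hwF⟩
  have hun : ∀ (f : V → ℕ) (X Y : Finset V), ∑ w ∈ X ∪ Y, f w ≤ ∑ w ∈ X, f w + ∑ w ∈ Y, f w := by
    intro f X Y
    rw [← Finset.sum_union_inter]
    exact Nat.le_add_right _ _
  obtain ⟨Q, hQ⟩ : ∃ Q, Q = B ∪ out M := ⟨_, rfl⟩
  rw [← hQ] at hsub
  have h0 : ∀ w ∈ Q, ∑ w' ∈ Q, tr H v w w' = 0 := by
    intro w hw
    refine Finset.sum_eq_zero fun w' hw' => ?_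
    unfold tr
    rw [if_neg]
    rw [hQ, Finset.mem_union] at hw hw'
    exact none_out h hv (hw.elim (fun h1 => Or.inr (hBm w h1)) Or.inl)
      (hw'.elim (fun h1 => Or.inr (hBm w' h1)) Or.inl)
  have h1 : ∑ w ∈ (R.image ctr)ᶜ, ∑ w' ∈ (R.image ctr)ᶜ, tr H v w w' ≤
      ∑ w ∈ P ∪ Q, ∑ w' ∈ P ∪ Q, tr H v w w' := by
    refine (Finset.sum_le_sum fun w _ => Finset.sum_le_sum_of_subset hsub).trans ?_
    exact Finset.sum_le_sum_of_subset hsub
  refine h1.trans ((hun _ P Q).trans ?_)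
  have h2 : ∑ w ∈ P, ∑ w' ∈ P ∪ Q, tr H v w w' ≤
      ∑ w ∈ P, ∑ w' ∈ P, tr H v w w' + ∑ w ∈ P, ∑ w' ∈ Q, tr H v w w' := by
    rw [← Finset.sum_add_distrib]
    exact Finset.sum_le_sum fun w _ => hun _ P Q
  have h3 : ∑ w ∈ Q, ∑ w' ∈ P ∪ Q, tr H v w w' ≤ ∑ w ∈ P, ∑ w' ∈ Q, tr H v w w' := by
    have h4 : ∑ w ∈ Q, ∑ w' ∈ P ∪ Q, tr H v w w' ≤ ∑ w ∈ Q, ∑ w' ∈ P, tr H v w w' := by
      refine Finset.sum_le_sum fun w hw => (hun _ P Q).trans ?_
      rw [h0 w hw, add_zero]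
    refine h4.trans (le_of_eq ?_)
    rw [Finset.sum_comm]
    refine Finset.sum_congr rfl fun w _ => Finset.sum_congr rfl fun w' _ => ?_
    unfold tr
    rw [Finset.pair_comm]
  have h5 : ∑ w ∈ P, ∑ w' ∈ Q, tr H v w w' ≤
      ∑ w ∈ P, ∑ b ∈ B, tr H v w b + ∑ w ∈ P, ∑ u ∈ out M, tr H v w u := by
    rw [← Finset.sum_add_distrib, hQ]
    exact Finset.sum_le_sum fun w _ => hun _ B (out M)
  omega

theorem total {H M R : Finset (Finset V)} {ctr : Finset V → V} (h : Cfg H M R ctr) :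
    ∑ v ∈ out M, ∑ w ∈ (R.image ctr)ᶜ, ∑ w' ∈ (R.image ctr)ᶜ, tr H v w w' ≤
      (M \ R).card * (5 * (M \ R).card + 4 * R.card + 28) * (out M).card +
      27 * (M \ R).card * ((M \ R).card + R.card) := by
  obtain ⟨Q, hQ⟩ : ∃ Q, Q = M \ R := ⟨_, rfl⟩
  obtain ⟨k, hk⟩ : ∃ k, k = Q.card := ⟨_, rfl⟩
  obtain ⟨r, hr⟩ : ∃ r, r = R.card := ⟨_, rfl⟩
  obtain ⟨m, hm⟩ : ∃ m, m = (out M).card := ⟨_, rfl⟩
  have hQM : ∀ E ∈ Q, E ∈ M := fun E hE => by
    rw [hQ] at hE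
    exact (Finset.mem_sdiff.1 hE).1
  have hQd : ∀ e ∈ Q, ∀ g ∈ Q, e ≠ g → Disjoint e g := fun e he g hg =>
    h.mm.dj e (hQM e he) g (hQM g hg)
  have h1 := Finset.sum_le_sum fun v hv => one_v h (v := v) hv
  rw [← hQ] at h1
  rw [← hQ, ← hk, ← hr, ← hm]
  refine h1.trans ?_
  rw [Finset.sum_add_distrib, Finset.sum_add_distrib, ← Finset.mul_sum, ← Finset.mul_sum]
  have e1 : ∀ (X Y : Finset V), ∑ v ∈ out M, ∑ w ∈ X, ∑ w' ∈ Y, tr H v w w' =
      ∑ w ∈ X, ∑ w' ∈ Y, dg H M w w' := by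
    intro X Y
    rw [Finset.sum_comm]
    refine Finset.sum_congr rfl fun w _ => ?_
    rw [Finset.sum_comm]
    exact Finset.sum_congr rfl fun w' _ => dg_sum H M w w'
  rw [e1, e1, e1, sum_bi hQd, sum_bi hQd, sum_bi hQd]
  have e2 : ∑ E ∈ Q, ∑ w ∈ E, ∑ b ∈ R.biUnion (fun F => F.erase (ctr F)), dg H M w b ≤
      k * ((2 * r + 1) * m + 6 * r) := by
    refine (Finset.sum_le_card_nsmul _ _ _ fun E hE => E_B h (hQ ▸ hE)).trans (le_of_eq ?_)
    rw [smul_eq_mul, hk, hr, hm]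
  have e3 : ∑ E ∈ Q, ∑ w ∈ E, ∑ u ∈ out M, dg H M w u ≤ k * (12 * m) := by
    refine (Finset.sum_le_card_nsmul _ _ _ fun E hE => E_U h (hQ ▸ hE)).trans (le_of_eq ?_)
    rw [smul_eq_mul, hk, hm]
  have e4 : ∑ E ∈ Q, ∑ w ∈ E, ∑ w' ∈ Q.biUnion id, dg H M w w' ≤
      k * (6 * m) + ((5 * (k * (k - 1)) + k) * m + 27 * (k * (k - 1))) := by
    have g1 : ∀ E ∈ Q, ∑ w ∈ E, ∑ w' ∈ Q.biUnion id, dg H M w w' ≤
        6 * m + ∑ F ∈ Q.erase E, (cP H M E F * m + 27) := by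
      intro E hE
      have g2 : ∑ w ∈ E, ∑ w' ∈ Q.biUnion id, dg H M w w' =
          ∑ F ∈ Q, ∑ w ∈ E, ∑ w' ∈ F, dg H M w w' := by
        rw [Finset.sum_comm (s := Q)]
        exact Finset.sum_congr rfl fun w _ => sum_bi hQd
      rw [g2, ← Finset.add_sum_erase Q _ hE]
      refine Nat.add_le_add ?_ ?_
      · rw [hm]
        exact in_E h.mm (hQM E hE)
      · refine Finset.sum_le_sum fun F hF => ?_
        rw [hm]
        exact E_F h.mm (hQM E hE) (hQM F (Finset.mem_of_mem_erase hF))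
    refine (Finset.sum_le_sum g1).trans ?_
    rw [Finset.sum_add_distrib, Finset.sum_const, smul_eq_mul, ← hk]
    refine Nat.add_le_add_left ?_ _
    have g3 := six Q (cP H M) (cP_symm H M)
      (fun E hE F hF hne => (pair_six h.mm (hQM E hE) (hQM F hF) hne).1)
      (fun E hE F hF G hG n1 n2 n3 p1 p2 =>
        trip h.mm (hQM E hE) (hQM F hF) (hQM G hG) n1 n2 n3 p1 p2)
    rw [← hk] at g3
    have g4 : ∑ E ∈ Q, ∑ F ∈ Q.erase E, (cP H M E F * m + 27) =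
        (∑ E ∈ Q, ∑ F ∈ Q.erase E, cP H M E F) * m + 27 * (k * (k - 1)) := by
      simp only [Finset.sum_add_distrib, Finset.sum_mul, Finset.sum_const, smul_eq_mul]
      congr 1
      rw [Finset.sum_congr rfl fun E hE => by rw [Finset.card_erase_of_mem hE],
        Finset.sum_const, smul_eq_mul, ← hk]
      ring
    rw [g4]
    exact Nat.add_le_add_right (Nat.mul_le_mul_right m g3) _
  have e5 : k * (6 * m) + ((5 * (k * (k - 1)) + k) * m + 27 * (k * (k - 1))) +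
      2 * (k * ((2 * r + 1) * m + 6 * r)) + 2 * (k * (12 * m)) ≤
      k * (5 * k + 4 * r + 28) * m + 27 * k * (k + r) := by
    rcases Nat.eq_zero_or_pos k with hk0 | hk0
    · rw [hk0]
      simp
    · obtain ⟨j, rfl⟩ : ∃ j, k = j + 1 := ⟨k - 1, by omega⟩
      rw [Nat.add_sub_cancel]
      nlinarith [Nat.zero_le (j * r), Nat.zero_le (j * m), Nat.zero_le r]
  omega

/-- A good vertex. -/
theorem good {H M R : Finset (Finset V)} {ctr : Finset V → V} (h : Cfg H M R ctr)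
    (hm : 0 < (out M).card) : ∃ v ∈ out M,
    (∑ w ∈ (R.image ctr)ᶜ, ∑ w' ∈ (R.image ctr)ᶜ, tr H v w w') * (out M).card ≤
      (M \ R).card * (5 * (M \ R).card + 4 * R.card + 28) * (out M).card +
      27 * (M \ R).card * ((M \ R).card + R.card) := by
  by_contra hcon
  push Not at hcon
  have h1 := total h
  have h2 : ∑ _v ∈ out M, ((M \ R).card * (5 * (M \ R).card + 4 * R.card + 28) * (out M).card +
      27 * (M \ R).card * ((M \ R).card + R.card)) < ∑ v ∈ out M,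
      (∑ w ∈ (R.image ctr)ᶜ, ∑ w' ∈ (R.image ctr)ᶜ, tr H v w w') * (out M).card :=
    Finset.sum_lt_sum_of_nonempty (Finset.card_pos.1 hm) hcon
  rw [Finset.sum_const, smul_eq_mul, ← Finset.sum_mul] at h2
  have h3 := Nat.mul_le_mul_right (out M).card h1
  rw [mul_comm (out M).card] at h2
  exact absurd (h2.trans_le h3) (lt_irrefl _)

end Pool.MP_62c2ba
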