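import Pool.Agent.H.MP_62c2ba_co.Cfg

/-! # Popular pairs between two or three edges of the matching -/

set_option autoImplicit false

open Finset

namespace Pool.MP_62c2ba

section
variable {V : Type} [Fintype V] [DecidableEq V]

instance (H M : Finset (Finset V)) (w w' : V) : Decidable (pop H M w w') :=
  inferInstanceAs (Decidable (4 ≤ _))

/-- The number of popular pairs between `E` and `F`. -/
def cP (H M : Finset (Finset V)) (E F : Finset V) : ℕ :=
  ∑ a ∈ E, ∑ b ∈ F, if pop H M a b then 1 else 0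

theorem cP_symm (H M : Finset (Finset V)) (E F : Finset V) : cP H M E F = cP H M F E := by
  unfold cP
  rw [Finset.sum_comm]
  refine Finset.sum_congr rfl fun a _ => Finset.sum_congr rfl fun b _ => ?_
  by_cases h : pop H M b a
  · rw [if_pos h, if_pos (pop_symm h)]
  · rw [if_neg h, if_neg fun h' => h (pop_symm h')]

omit [Fintype V] in
/-- A relation without two disjoint pairs. -/
theorem star {X Y : Finset V} (r : V → V → Prop) [DecidableRel r]
    (h : ∀ a ∈ X, ∀ a' ∈ X, ∀ b ∈ Y, ∀ b' ∈ Y, a ≠ a' → b ≠ b' → r a b → r a' b' → False) :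
    ∑ a ∈ X, ∑ b ∈ Y, (if r a b then 1 else 0) ≤ max X.card Y.card := by
  by_cases h0 : ∃ a ∈ X, ∃ b ∈ Y, r a b
  · obtain ⟨a, ha, b, hb, hab⟩ := h0
    by_cases h1 : ∀ a' ∈ X, ∀ b' ∈ Y, r a' b' → a' = a
    · refine le_trans ?_ (le_max_right _ _)
      rw [← Finset.add_sum_erase X _ ha]
      have h2 : ∑ a' ∈ X.erase a, ∑ b' ∈ Y, (if r a' b' then 1 else 0) = 0 := by
        refine Finset.sum_eq_zero fun a' ha' => Finset.sum_eq_zero fun b' hb' => ?_
        rw [if_neg]
        intro h3
        exact (Finset.mem_erase.1 ha').1 (h1 a' (Finset.mem_erase.1 ha').2 b' hb' h3)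
      rw [h2, add_zero, Finset.card_eq_sum_ones]
      exact Finset.sum_le_sum fun b' _ => by split_ifs <;> omega
    · push Not at h1
      obtain ⟨a', ha', b', hb', h2, h3⟩ := h1
      have h4 : b' = b := by
        by_contra h5
        exact h a ha a' ha' b hb b' hb' (Ne.symm h3) (Ne.symm h5) hab h2
      rw [h4] at h2
      have h5 : ∀ a'' ∈ X, ∀ b'' ∈ Y, r a'' b'' → b'' = b := by
        intro a'' ha'' b'' hb'' h6
        by_contra h7
        have h8 : a'' = a := by
          by_contra h9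
          exact h a ha a'' ha'' b hb b'' hb'' (Ne.symm h9) (Ne.symm h7) hab h6
        rw [h8] at h6
        exact h a' ha' a ha b hb b'' hb'' h3 (Ne.symm h7) h2 h6
      refine le_trans ?_ (le_max_left _ _)
      rw [Finset.card_eq_sum_ones]
      refine Finset.sum_le_sum fun a'' ha'' => ?_
      rw [← Finset.add_sum_erase Y _ hb]
      have h6 : ∑ b'' ∈ Y.erase b, (if r a'' b'' then 1 else 0) = 0 := by
        refine Finset.sum_eq_zero fun b'' hb'' => ?_
        rw [if_neg]
        intro h7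
        exact (Finset.mem_erase.1 hb'').1 (h5 a'' ha'' b'' (Finset.mem_erase.1 hb'').2 h7)
      rw [h6, add_zero]
      split_ifs <;> omega
  · push Not at h0
    have h2 : ∑ a ∈ X, ∑ b ∈ Y, (if r a b then 1 else 0) = 0 := by
      refine Finset.sum_eq_zero fun a ha => Finset.sum_eq_zero fun b hb => ?_
      rw [if_neg (h0 a ha b hb)]
    rw [h2]
    exact Nat.zero_le _

omit [Fintype V] in
theorem sum3 (f : V → ℕ) {x y z : V} (h1 : x ≠ y) (h2 : x ≠ z) (h3 : y ≠ z) :
    ∑ w ∈ ({x, y, z} : Finset V), f w = f x + (f y + f z) := by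
  rw [Finset.sum_insert (by simp [h1, h2]), Finset.sum_insert (by simp [h3]),
    Finset.sum_singleton]

theorem bool9 : ∀ y00 y01 y02 y10 y11 y12 y20 y21 y22 : Bool,
    (y00 && y11 && y22) = false → (y00 && y12 && y21) = false → (y01 && y10 && y22) = false →
    (y01 && y12 && y20) = false → (y02 && y10 && y21) = false → (y02 && y11 && y20) = false →
    y00.toNat + y01.toNat + y02.toNat + y10.toNat + y11.toNat + y12.toNat + y20.toNat + y21.toNat +
      y22.toNat ≤ 6 ∧
    (y00.toNat + y01.toNat + y02.toNat + y10.toNat + y11.toNat + y12.toNat + y20.toNat + y21.toNat +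
      y22.toNat = 6 →
      (y10 && y11 && y12 && y20 && y21 && y22) = true ∨
      (y00 && y01 && y02 && y20 && y21 && y22) = true ∨
      (y00 && y01 && y02 && y10 && y11 && y12) = true ∨
      (y01 && y11 && y21 && y02 && y12 && y22) = true ∨
      (y00 && y10 && y20 && y02 && y12 && y22) = true ∨
      (y00 && y10 && y20 && y01 && y11 && y21) = true) := by
  intro y00 y01 y02 y10
  cases y00 <;> cases y01 <;> cases y02 <;> cases y10 <;> decide

/-- All pairs are popular except those which contain one vertex. -/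
theorem pair_six {H M : Finset (Finset V)} (h : MaxM H M) {E F : Finset V} (hE : E ∈ M)
    (hF : F ∈ M) (hEF : E ≠ F) : cP H M E F ≤ 6 ∧ (cP H M E F = 6 →
      (∃ a0 ∈ E, ∀ a ∈ E, a ≠ a0 → ∀ b ∈ F, pop H M a b) ∨
      (∃ b0 ∈ F, ∀ b ∈ F, b ≠ b0 → ∀ a ∈ E, pop H M a b)) := by
  have hdj : ∀ x ∈ E, ∀ y ∈ F, x ≠ y := fun x hx y hy h1 =>
    Finset.disjoint_left.1 (h.dj E hE F hF hEF) hx (h1 ▸ hy)
  have T3 : ∀ a1 ∈ E, ∀ a2 ∈ E, ∀ a3 ∈ E, ∀ b1 ∈ F, ∀ b2 ∈ F, ∀ b3 ∈ F, a1 ≠ a2 → a1 ≠ a3 →
      a2 ≠ a3 → b1 ≠ b2 → b1 ≠ b3 → b2 ≠ b3 → pop H M a1 b1 → pop H M a2 b2 → pop H M a3 b3 →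
      False := by
    intro a1 ha1 a2 ha2 a3 ha3 b1 hb1 b2 hb2 b3 hb3 n1 n2 n3 m1 m2 m3 p1 p2 p3
    have h1 := popL h [(a1, b1), (a2, b2), (a3, b3)] (by simp)
      (by simp only [List.mem_cons, List.not_mem_nil, or_false, forall_eq_or_imp, forall_eq]
          exact ⟨p1, p2, p3⟩)
      (by simp only [List.flatMap_cons, List.flatMap_nil, List.append_nil, List.cons_append,
            List.nil_append, List.nodup_cons, List.mem_cons, List.not_mem_nil, or_false, not_or,
            not_false_eq_true, List.nodup_nil, and_true]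
          exact ⟨⟨hdj a1 ha1 b1 hb1, n1, hdj a1 ha1 b2 hb2, n2, hdj a1 ha1 b3 hb3⟩,
            ⟨(hdj a2 ha2 b1 hb1).symm, m1, (hdj a3 ha3 b1 hb1).symm, m2⟩,
            ⟨hdj a2 ha2 b2 hb2, n3, hdj a2 ha2 b3 hb3⟩,
            ⟨(hdj a3 ha3 b2 hb2).symm, m3⟩, hdj a3 ha3 b3 hb3⟩)
      {E, F} (by
        intro G hG
        rcases Finset.mem_insert.1 hG with rfl | hG
        · exact hE
        · rw [Finset.mem_singleton.1 hG]; exact hF)
      (by
        intro x hx
        simp only [List.flatMap_cons, List.flatMap_nil, List.append_nil, List.cons_append,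
          List.nil_append, List.mem_cons, List.not_mem_nil, or_false] at hx
        rcases hx with rfl | rfl | rfl | rfl | rfl | rfl
        · exact ⟨E, by simp, ha1⟩
        · exact ⟨F, by simp, hb1⟩
        · exact ⟨E, by simp, ha2⟩
        · exact ⟨F, by simp, hb2⟩
        · exact ⟨E, by simp, ha3⟩
        · exact ⟨F, by simp, hb3⟩)
    have h2 : ({E, F} : Finset (Finset V)).card ≤ 2 := Finset.card_le_two
    simp only [List.length_cons, List.length_nil] at h1
    omega
  obtain ⟨a0, a1, a2, na01, na02, na12, rfl⟩ := Finset.card_eq_three.1 (h.h3 E (h.sub hE))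
  obtain ⟨b0, b1, b2, nb01, nb02, nb12, rfl⟩ := Finset.card_eq_three.1 (h.h3 F (h.sub hF))
  have ma0 : a0 ∈ ({a0, a1, a2} : Finset V) := by simp
  have ma1 : a1 ∈ ({a0, a1, a2} : Finset V) := by simp
  have ma2 : a2 ∈ ({a0, a1, a2} : Finset V) := by simp
  have mb0 : b0 ∈ ({b0, b1, b2} : Finset V) := by simp
  have mb1 : b1 ∈ ({b0, b1, b2} : Finset V) := by simp
  have mb2 : b2 ∈ ({b0, b1, b2} : Finset V) := by simp
  have key := bool9 (decide (pop H M a0 b0)) (decide (pop H M a0 b1)) (decide (pop H M a0 b2))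
    (decide (pop H M a1 b0)) (decide (pop H M a1 b1)) (decide (pop H M a1 b2))
    (decide (pop H M a2 b0)) (decide (pop H M a2 b1)) (decide (pop H M a2 b2))
    (by
      rw [Bool.eq_false_iff]
      simp only [ne_eq, Bool.and_eq_true, decide_eq_true_eq, not_and, and_imp]
      exact fun p1 p2 p3 => T3 a0 ma0 a1 ma1 a2 ma2 b0 mb0 b1 mb1 b2 mb2 na01 na02 na12 nb01 nb02
        nb12 p1 p2 p3)
    (by
      rw [Bool.eq_false_iff]
      simp only [ne_eq, Bool.and_eq_true, decide_eq_true_eq, not_and, and_imp]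
      exact fun p1 p2 p3 => T3 a0 ma0 a1 ma1 a2 ma2 b0 mb0 b2 mb2 b1 mb1 na01 na02 na12 nb02 nb01
        nb12.symm p1 p2 p3)
    (by
      rw [Bool.eq_false_iff]
      simp only [ne_eq, Bool.and_eq_true, decide_eq_true_eq, not_and, and_imp]
      exact fun p1 p2 p3 => T3 a0 ma0 a1 ma1 a2 ma2 b1 mb1 b0 mb0 b2 mb2 na01 na02 na12 nb01.symm
        nb12 nb02 p1 p2 p3)
    (by
      rw [Bool.eq_false_iff]
      simp only [ne_eq, Bool.and_eq_true, decide_eq_true_eq, not_and, and_imp]
      exact fun p1 p2 p3 => T3 a0 ma0 a1 ma1 a2 ma2 b1 mb1 b2 mb2 b0 mb0 na01 na02 na12 nb12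
        nb01.symm nb02.symm p1 p2 p3)
    (by
      rw [Bool.eq_false_iff]
      simp only [ne_eq, Bool.and_eq_true, decide_eq_true_eq, not_and, and_imp]
      exact fun p1 p2 p3 => T3 a0 ma0 a1 ma1 a2 ma2 b2 mb2 b0 mb0 b1 mb1 na01 na02 na12 nb02.symm
        nb12.symm nb01 p1 p2 p3)
    (by
      rw [Bool.eq_false_iff]
      simp only [ne_eq, Bool.and_eq_true, decide_eq_true_eq, not_and, and_imp]
      exact fun p1 p2 p3 => T3 a0 ma0 a1 ma1 a2 ma2 b2 mb2 b1 mb1 b0 mb0 na01 na02 na12 nb12.symm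
        nb02.symm nb01.symm p1 p2 p3)
  have hnat : ∀ (q : Prop) [Decidable q], (decide q).toNat = if q then 1 else 0 := by
    intro q _
    by_cases hq : q <;> simp [hq]
  have hc : cP H M {a0, a1, a2} {b0, b1, b2} =
      (decide (pop H M a0 b0)).toNat + (decide (pop H M a0 b1)).toNat +
      (decide (pop H M a0 b2)).toNat + (decide (pop H M a1 b0)).toNat +
      (decide (pop H M a1 b1)).toNat + (decide (pop H M a1 b2)).toNat +
      (decide (pop H M a2 b0)).toNat + (decide (pop H M a2 b1)).toNat +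
      (decide (pop H M a2 b2)).toNat := by
    unfold cP
    rw [sum3 _ na01 na02 na12]
    simp only [sum3 _ nb01 nb02 nb12, hnat]
    ring
  rw [hc]
  refine ⟨key.1, fun h6 => ?_⟩
  rcases key.2 h6 with h7 | h7 | h7 | h7 | h7 | h7 <;>
    simp only [Bool.and_eq_true, decide_eq_true_eq] at h7 <;>
    obtain ⟨⟨⟨⟨⟨g1, g2⟩, g3⟩, g4⟩, g5⟩, g6⟩ := h7
  · left
    refine ⟨a0, ma0, fun a ha hne b hb => ?_⟩
    simp only [Finset.mem_insert, Finset.mem_singleton] at ha hb
    rcases ha with rfl | rfl | rfl <;> rcases hb with rfl | rfl | rfl <;>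
      first | assumption | exact absurd rfl hne
  · left
    refine ⟨a1, ma1, fun a ha hne b hb => ?_⟩
    simp only [Finset.mem_insert, Finset.mem_singleton] at ha hb
    rcases ha with rfl | rfl | rfl <;> rcases hb with rfl | rfl | rfl <;>
      first | assumption | exact absurd rfl hne
  · left
    refine ⟨a2, ma2, fun a ha hne b hb => ?_⟩
    simp only [Finset.mem_insert, Finset.mem_singleton] at ha hb
    rcases ha with rfl | rfl | rfl <;> rcases hb with rfl | rfl | rfl <;>
      first | assumption | exact absurd rfl hne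
  · right
    refine ⟨b0, mb0, fun b hb hne a ha => ?_⟩
    simp only [Finset.mem_insert, Finset.mem_singleton] at ha hb
    rcases ha with rfl | rfl | rfl <;> rcases hb with rfl | rfl | rfl <;>
      first | assumption | exact absurd rfl hne
  · right
    refine ⟨b1, mb1, fun b hb hne a ha => ?_⟩
    simp only [Finset.mem_insert, Finset.mem_singleton] at ha hb
    rcases ha with rfl | rfl | rfl <;> rcases hb with rfl | rfl | rfl <;>
      first | assumption | exact absurd rfl hne
  · right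
    refine ⟨b2, mb2, fun b hb hne a ha => ?_⟩
    simp only [Finset.mem_insert, Finset.mem_singleton] at ha hb
    rcases ha with rfl | rfl | rfl <;> rcases hb with rfl | rfl | rfl <;>
      first | assumption | exact absurd rfl hne

end

end Pool.MP_62c2ba
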