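import Pool.Agent.H.MP_62c2ba_co.Trip

/-! # Popular pairs between three edges of the matching -/

set_option autoImplicit false

open Finset

namespace Pool.MP_62c2ba

variable {V : Type} [Fintype V] [DecidableEq V]

theorem four {H M : Finset (Finset V)} (h : MaxM H M) {E F G : Finset V} (hE : E ∈ M)
    (hF : F ∈ M) (hG : G ∈ M) (pl : List (V × V)) (hlen : pl.length = 4)
    (hp : ∀ p ∈ pl, pop H M p.1 p.2) (nd : (pl.flatMap fun p => [p.1, p.2]).Nodup)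
    (cov : ∀ x ∈ (pl.flatMap fun p => [p.1, p.2]), x ∈ E ∨ x ∈ F ∨ x ∈ G) : False := by
  have h1 := popL h pl (by omega) hp nd {E, F, G} (by
    intro X hX
    simp only [Finset.mem_insert, Finset.mem_singleton] at hX
    rcases hX with rfl | rfl | rfl <;> assumption) (by
    intro x hx
    rcases cov x hx with h2 | h2 | h2
    · exact ⟨E, by simp, h2⟩
    · exact ⟨F, by simp, h2⟩
    · exact ⟨G, by simp, h2⟩)
  have h2 : ({E, F, G} : Finset (Finset V)).card ≤ 3 := Finset.card_le_three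
  omega

theorem T4a {H M : Finset (Finset V)} (h : MaxM H M) {E F G : Finset V} (hE : E ∈ M)
    (hF : F ∈ M) (hG : G ∈ M) (hEF : E ≠ F) (hEG : E ≠ G) (hFG : F ≠ G) {a a1 a2 b b1 c1 c2 c3 : V}
    (ha : a ∈ E) (ha1 : a1 ∈ E) (ha2 : a2 ∈ E) (hb : b ∈ F) (hb1 : b1 ∈ F) (hc1 : c1 ∈ G)
    (hc2 : c2 ∈ G) (hc3 : c3 ∈ G) (n1 : a ≠ a1) (n2 : a ≠ a2) (n3 : a1 ≠ a2) (n4 : b ≠ b1)
    (n5 : c1 ≠ c2) (n6 : c1 ≠ c3) (n7 : c2 ≠ c3) (p1 : pop H M a b) (p2 : pop H M a1 c1)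
    (p3 : pop H M a2 c2) (p4 : pop H M b1 c3) : False := by
  have dEF : ∀ x ∈ E, ∀ y ∈ F, x ≠ y := fun x hx y hy h1 =>
    Finset.disjoint_left.1 (h.dj E hE F hF hEF) hx (h1 ▸ hy)
  have dEG : ∀ x ∈ E, ∀ y ∈ G, x ≠ y := fun x hx y hy h1 =>
    Finset.disjoint_left.1 (h.dj E hE G hG hEG) hx (h1 ▸ hy)
  have dFG : ∀ x ∈ F, ∀ y ∈ G, x ≠ y := fun x hx y hy h1 =>
    Finset.disjoint_left.1 (h.dj F hF G hG hFG) hx (h1 ▸ hy)
  refine four h hE hF hG [(a, b), (a1, c1), (a2, c2), (b1, c3)] (by simp)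
    (by simp only [List.mem_cons, List.not_mem_nil, or_false, forall_eq_or_imp, forall_eq]
        exact ⟨p1, p2, p3, p4⟩)
    (by simp only [List.flatMap_cons, List.flatMap_nil, List.append_nil, List.cons_append,
          List.nil_append, List.nodup_cons, List.mem_cons, List.not_mem_nil, or_false, not_or,
          not_false_eq_true, List.nodup_nil, and_true]
        exact ⟨⟨dEF a ha b hb, n1, dEG a ha c1 hc1, n2, dEG a ha c2 hc2, dEF a ha b1 hb1,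
            dEG a ha c3 hc3⟩,
          ⟨(dEF a1 ha1 b hb).symm, dFG b hb c1 hc1, (dEF a2 ha2 b hb).symm, dFG b hb c2 hc2, n4,
            dFG b hb c3 hc3⟩,
          ⟨dEG a1 ha1 c1 hc1, n3, dEG a1 ha1 c2 hc2, dEF a1 ha1 b1 hb1, dEG a1 ha1 c3 hc3⟩,
          ⟨(dEG a2 ha2 c1 hc1).symm, n5, (dFG b1 hb1 c1 hc1).symm, n6⟩,
          ⟨dEG a2 ha2 c2 hc2, dEF a2 ha2 b1 hb1, dEG a2 ha2 c3 hc3⟩,
          ⟨(dFG b1 hb1 c2 hc2).symm, n7⟩, dFG b1 hb1 c3 hc3⟩)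
    (by
      intro x hx
      simp only [List.flatMap_cons, List.flatMap_nil, List.append_nil, List.cons_append,
        List.nil_append, List.mem_cons, List.not_mem_nil, or_false] at hx
      rcases hx with rfl | rfl | rfl | rfl | rfl | rfl | rfl | rfl <;> simp [*])

theorem T4b {H M : Finset (Finset V)} (h : MaxM H M) {E F G : Finset V} (hE : E ∈ M)
    (hF : F ∈ M) (hG : G ∈ M) (hEF : E ≠ F) (hEG : E ≠ G) (hFG : F ≠ G) {a a1 a2 b b1 b2 c1 c2 : V}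
    (ha : a ∈ E) (ha1 : a1 ∈ E) (ha2 : a2 ∈ E) (hb : b ∈ F) (hb1 : b1 ∈ F) (hb2 : b2 ∈ F)
    (hc1 : c1 ∈ G) (hc2 : c2 ∈ G) (n1 : a ≠ a1) (n2 : a ≠ a2) (n3 : a1 ≠ a2) (n4 : b ≠ b1)
    (n5 : b ≠ b2) (n6 : b1 ≠ b2) (n7 : c1 ≠ c2) (p1 : pop H M a b) (p2 : pop H M a1 b1)
    (p3 : pop H M a2 c1) (p4 : pop H M b2 c2) : False := by
  have dEF : ∀ x ∈ E, ∀ y ∈ F, x ≠ y := fun x hx y hy h1 =>
    Finset.disjoint_left.1 (h.dj E hE F hF hEF) hx (h1 ▸ hy)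
  have dEG : ∀ x ∈ E, ∀ y ∈ G, x ≠ y := fun x hx y hy h1 =>
    Finset.disjoint_left.1 (h.dj E hE G hG hEG) hx (h1 ▸ hy)
  have dFG : ∀ x ∈ F, ∀ y ∈ G, x ≠ y := fun x hx y hy h1 =>
    Finset.disjoint_left.1 (h.dj F hF G hG hFG) hx (h1 ▸ hy)
  refine four h hE hF hG [(a, b), (a1, b1), (a2, c1), (b2, c2)] (by simp)
    (by simp only [List.mem_cons, List.not_mem_nil, or_false, forall_eq_or_imp, forall_eq]
        exact ⟨p1, p2, p3, p4⟩)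
    (by simp only [List.flatMap_cons, List.flatMap_nil, List.append_nil, List.cons_append,
          List.nil_append, List.nodup_cons, List.mem_cons, List.not_mem_nil, or_false, not_or,
          not_false_eq_true, List.nodup_nil, and_true]
        exact ⟨⟨dEF a ha b hb, n1, dEF a ha b1 hb1, n2, dEG a ha c1 hc1, dEF a ha b2 hb2,
            dEG a ha c2 hc2⟩,
          ⟨(dEF a1 ha1 b hb).symm, n4, (dEF a2 ha2 b hb).symm, dFG b hb c1 hc1, n5,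
            dFG b hb c2 hc2⟩,
          ⟨dEF a1 ha1 b1 hb1, n3, dEG a1 ha1 c1 hc1, dEF a1 ha1 b2 hb2, dEG a1 ha1 c2 hc2⟩,
          ⟨(dEF a2 ha2 b1 hb1).symm, dFG b1 hb1 c1 hc1, n6, dFG b1 hb1 c2 hc2⟩,
          ⟨dEG a2 ha2 c1 hc1, dEF a2 ha2 b2 hb2, dEG a2 ha2 c2 hc2⟩,
          ⟨(dFG b2 hb2 c1 hc1).symm, n7⟩, dFG b2 hb2 c2 hc2⟩)
    (by
      intro x hx
      simp only [List.flatMap_cons, List.flatMap_nil, List.append_nil, List.cons_append,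
        List.nil_append, List.mem_cons, List.not_mem_nil, or_false] at hx
      rcases hx with rfl | rfl | rfl | rfl | rfl | rfl | rfl | rfl <;> simp [*])

omit [Fintype V] in
/-- The two other elements of a set of three. -/
theorem two_left {E : Finset V} (h3 : E.card = 3) {a : V} (ha : a ∈ E) :
    ∃ a1 ∈ E, ∃ a2 ∈ E, a ≠ a1 ∧ a ≠ a2 ∧ a1 ≠ a2 := by
  have h1 : (E.erase a).card = 2 := by rw [Finset.card_erase_of_mem ha, h3]
  obtain ⟨a1, a2, h2, h4⟩ := Finset.card_eq_two.1 h1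
  have m1 : a1 ∈ E.erase a := by rw [h4]; simp
  have m2 : a2 ∈ E.erase a := by rw [h4]; simp
  rw [Finset.mem_erase] at m1 m2
  exact ⟨a1, m1.2, a2, m2.2, m1.1.symm, m2.1.symm, h2⟩

omit [Fintype V] in
/-- A third element. -/
theorem third {E : Finset V} (h3 : E.card = 3) (a b : V) : ∃ c ∈ E, a ≠ c ∧ b ≠ c := by
  have h1 : ({a, b} : Finset V).card < E.card := by
    have := Finset.card_le_two (a := a) (b := b)
    omega
  obtain ⟨c, hc, hc'⟩ := Finset.exists_mem_notMem_of_card_lt_card h1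
  simp only [Finset.mem_insert, Finset.mem_singleton, not_or] at hc'
  exact ⟨c, hc, Ne.symm hc'.1, Ne.symm hc'.2⟩

/-- (I, I) -/
theorem caseI {H M : Finset (Finset V)} (h : MaxM H M) {E F G : Finset V} (hE : E ∈ M)
    (hF : F ∈ M) (hG : G ∈ M) (hEF : E ≠ F) (hEG : E ≠ G) (hFG : F ≠ G) {a0 b0 : V} (ha0 : a0 ∈ E)
    (hA : ∀ a ∈ E, a ≠ a0 → ∀ c ∈ G, pop H M a c) (hB : ∀ b ∈ F, b ≠ b0 → ∀ c ∈ G, pop H M b c) :
    ∀ b ∈ F, ¬ pop H M a0 b := by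
  intro b hb hp
  obtain ⟨a1, ha1, a2, ha2, n1, n2, n3⟩ := two_left (h.h3 E (h.sub hE)) ha0
  obtain ⟨b1, hb1, m1, m2⟩ := third (h.h3 F (h.sub hF)) b b0
  obtain ⟨c1, hc1, -, -⟩ := third (h.h3 G (h.sub hG)) a0 a0
  obtain ⟨c2, hc2, c3, hc3, k1, k2, k3⟩ := two_left (h.h3 G (h.sub hG)) hc1
  exact T4a h hE hF hG hEF hEG hFG ha0 ha1 ha2 hb hb1 hc1 hc2 hc3 n1 n2 n3 m1 k1 k2 k3 hp
    (hA a1 ha1 n1.symm c1 hc1) (hA a2 ha2 n2.symm c2 hc2) (hB b1 hb1 m2.symm c3 hc3)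

/-- (II, I) -/
theorem caseII {H M : Finset (Finset V)} (h : MaxM H M) {E F G : Finset V} (hE : E ∈ M)
    (hF : F ∈ M) (hG : G ∈ M) (hEF : E ≠ F) (hEG : E ≠ G) (hFG : F ≠ G) {c0 b0 : V} (hc0 : c0 ∈ G)
    (hA : ∀ c ∈ G, c ≠ c0 → ∀ a ∈ E, pop H M a c) (hB : ∀ b ∈ F, b ≠ b0 → ∀ c ∈ G, pop H M b c) :
    ∀ a ∈ E, ∀ b ∈ F, ¬ pop H M a b := by
  intro a ha b hb hp
  obtain ⟨a1, ha1, a2, ha2, n1, n2, n3⟩ := two_left (h.h3 E (h.sub hE)) ha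
  obtain ⟨b1, hb1, m1, m2⟩ := third (h.h3 F (h.sub hF)) b b0
  obtain ⟨c1, hc1, c2, hc2, k1, k2, k3⟩ := two_left (h.h3 G (h.sub hG)) hc0
  exact T4a h hE hF hG hEF hEG hFG ha ha1 ha2 hb hb1 hc1 hc2 hc0 n1 n2 n3 m1 k3 k1.symm k2.symm hp
    (hA c1 hc1 k1.symm a1 ha1) (hA c2 hc2 k2.symm a2 ha2) (hB b1 hb1 m2.symm c0 hc0)

/-- (II, II), different bad vertices -/
theorem caseIIne {H M : Finset (Finset V)} (h : MaxM H M) {E F G : Finset V} (hE : E ∈ M)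
    (hF : F ∈ M) (hG : G ∈ M) (hEF : E ≠ F) (hEG : E ≠ G) (hFG : F ≠ G) {c0 d0 : V} (hc0 : c0 ∈ G)
    (hd0 : d0 ∈ G) (hcd : c0 ≠ d0) (hA : ∀ c ∈ G, c ≠ c0 → ∀ a ∈ E, pop H M a c)
    (hB : ∀ c ∈ G, c ≠ d0 → ∀ b ∈ F, pop H M b c) : ∀ a ∈ E, ∀ b ∈ F, ¬ pop H M a b := by
  intro a ha b hb hp
  obtain ⟨a1, ha1, a2, ha2, n1, n2, n3⟩ := two_left (h.h3 E (h.sub hE)) ha
  obtain ⟨b1, hb1, m1, -⟩ := third (h.h3 F (h.sub hF)) b b
  obtain ⟨e0, he0, k1, k2⟩ := third (h.h3 G (h.sub hG)) c0 d0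
  exact T4a h hE hF hG hEF hEG hFG ha ha1 ha2 hb hb1 hd0 he0 hc0 n1 n2 n3 m1 k2 hcd.symm k1.symm hp
    (hA d0 hd0 hcd.symm a1 ha1) (hA e0 he0 k1.symm a2 ha2) (hB c0 hc0 hcd b1 hb1)

/-- (II, II), the same bad vertex -/
theorem caseIIeq {H M : Finset (Finset V)} (h : MaxM H M) {E F G : Finset V} (hE : E ∈ M)
    (hF : F ∈ M) (hG : G ∈ M) (hEF : E ≠ F) (hEG : E ≠ G) (hFG : F ≠ G) {c0 : V} (hc0 : c0 ∈ G)
    (hA : ∀ c ∈ G, c ≠ c0 → ∀ a ∈ E, pop H M a c) (hB : ∀ c ∈ G, c ≠ c0 → ∀ b ∈ F, pop H M b c) :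
    cP H M E F ≤ 3 := by
  have h1 := star (X := E) (Y := F) (fun a b => pop H M a b) (by
    intro a ha a1 ha1 b hb b1 hb1 haa hbb hp hp'
    obtain ⟨a2, ha2, n1, n2⟩ := third (h.h3 E (h.sub hE)) a a1
    obtain ⟨b2, hb2, m1, m2⟩ := third (h.h3 F (h.sub hF)) b b1
    obtain ⟨c1, hc1, c2, hc2, k1, k2, k3⟩ := two_left (h.h3 G (h.sub hG)) hc0
    exact T4b h hE hF hG hEF hEG hFG ha ha1 ha2 hb hb1 hb2 hc1 hc2 haa n1 n2 hbb m1 m2 k3 hp hp'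
      (hA c1 hc1 k1.symm a2 ha2) (hB c2 hc2 k2.symm b2 hb2))
  rw [h.h3 E (h.sub hE), h.h3 F (h.sub hF), max_self] at h1
  exact h1

theorem cP_zero {H M : Finset (Finset V)} {E F : Finset V}
    (h : ∀ a ∈ E, ∀ b ∈ F, ¬ pop H M a b) : cP H M E F = 0 := by
  unfold cP
  exact Finset.sum_eq_zero fun a ha => Finset.sum_eq_zero fun b hb => if_neg (h a ha b hb)

/-- The claim. -/
theorem trip {H M : Finset (Finset V)} (h : MaxM H M) {E F G : Finset V} (hE : E ∈ M)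
    (hF : F ∈ M) (hG : G ∈ M) (hEF : E ≠ F) (hEG : E ≠ G) (hFG : F ≠ G)
    (h1 : cP H M E G = 6) (h2 : cP H M F G = 6) : cP H M E F ≤ 4 := by
  rcases (pair_six h hE hG hEG).2 h1 with ⟨a0, ha0, hA⟩ | ⟨c0, hc0, hA⟩ <;>
    rcases (pair_six h hF hG hFG).2 h2 with ⟨b0, hb0, hB⟩ | ⟨d0, hd0, hB⟩
  · have g1 := caseI h hE hF hG hEF hEG hFG ha0 hA hB
    have g2 := caseI h hF hE hG hEF.symm hFG hEG hb0 hB hA
    unfold cP
    rw [← Finset.add_sum_erase E _ ha0]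
    have g3 : ∑ b ∈ F, (if pop H M a0 b then 1 else 0) = 0 :=
      Finset.sum_eq_zero fun b hb => if_neg (g1 b hb)
    rw [g3, zero_add]
    have g4 : ∀ a ∈ E.erase a0, ∑ b ∈ F, (if pop H M a b then 1 else 0) ≤ 2 := by
      intro a ha
      rw [← Finset.add_sum_erase F _ hb0, if_neg (fun g5 =>
        g2 a (Finset.mem_erase.1 ha).2 (pop_symm g5)), zero_add]
      have g6 : (F.erase b0).card = 2 := by
        rw [Finset.card_erase_of_mem hb0, h.h3 F (h.sub hF)]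
      rw [← g6, Finset.card_eq_sum_ones]
      exact Finset.sum_le_sum fun b _ => by split_ifs <;> omega
    have g5 := Finset.sum_le_sum g4
    rw [Finset.sum_const, Finset.card_erase_of_mem ha0, h.h3 E (h.sub hE)] at g5
    simpa using g5
  · rw [cP_symm, cP_zero (caseII h hF hE hG hEF.symm hFG hEG hd0 hB hA)]
    omega
  · rw [cP_zero (caseII h hE hF hG hEF hEG hFG hc0 hA hB)]
    omega
  · by_cases hcd : c0 = d0
    · rw [← hcd] at hB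
      exact (caseIIeq h hE hF hG hEF hEG hFG hc0 hA hB).trans (by norm_num)
    · rw [cP_zero (caseIIne h hE hF hG hEF hEG hFG hc0 hd0 hcd hA hB)]
      omega

end Pool.MP_62c2ba
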