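import Pool.Agent.H.MP_62c2ba_co.PopQ
import Pool.Agent.H.MP_62c2ba_co.SpecZ
import Pool.Agent.H.MP_62c2ba_co.Tot

/-! # The exceptional pairs, and a good vertex -/

set_option autoImplicit false

open Finset

namespace Pool.MP_62c2ba

variable {V : Type} [Fintype V] [DecidableEq V]

omit [Fintype V] in
theorem tr_symm (H : Finset (Finset V)) (v w w' : V) : tr H v w w' = tr H v w' w := by
  unfold tr
  rw [Finset.pair_comm]

theorem compl_ctr {q : ℕ} {H M R : Finset (Finset V)} {ctr : Finset V → V}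
    (_h : CfgQ q H M R ctr) {w : V} (hw : w ∉ R.image ctr) :
    w ∈ PV M R ∨ w ∈ BV R ctr ∨ w ∈ out M := by
  by_cases hwo : w ∈ out M
  · exact Or.inr (Or.inr hwo)
  · rw [mem_out] at hwo
    push Not at hwo
    obtain ⟨F, hF, hwF⟩ := hwo
    by_cases hFR : F ∈ R
    · refine Or.inr (Or.inl (mem_BV.2 ⟨F, hFR, hwF, fun h1 => hw ?_⟩))
      rw [h1]
      exact Finset.mem_image_of_mem ctr hFR
    · exact Or.inl (mem_PV.2 ⟨F, Finset.mem_sdiff.2 ⟨hF, hFR⟩, hwF⟩)

/-- The pairs which are not popular. -/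
def up (t : ℕ) (H M R : Finset (Finset V)) (ctr : Finset V → V) (w w' : V) : ℕ :=
  if (w ∈ PV M R ∨ w' ∈ PV M R) ∧ (w ∈ PV M R ∪ BV R ctr ∧ w' ∈ PV M R ∪ BV R ctr) ∧
    dg H M w w' ≤ t then 1 else 0

theorem one_pair {q t : ℕ} (hq : 4 ≤ q) {H M R : Finset (Finset V)} {ctr : Finset V → V}
    (h : CfgQ q H M R ctr) (Z : Finset V) {v w w' : V} (hv : v ∈ out M)
    (hw : w ∉ R.image ctr) (hw' : w' ∉ R.image ctr) :
    tr H v w w' * ex Z (PV M R ∪ BV R ctr) w w' ≤
      (if w ∉ Z ∧ w' ∉ Z ∧ (PG t H M R ctr).Adj w w' then 1 else 0) +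
      (if w ∈ PV M R ∧ w' ∈ out M then tr H v w w' else 0) +
      (if w' ∈ PV M R ∧ w ∈ out M then tr H v w' w else 0) +
      up t H M R ctr w w' * tr H v w w' := by
  by_cases hH : ({v, w, w'} : Finset V) ∈ H
  swap
  · have : tr H v w w' = 0 := by
      unfold tr
      rw [if_neg hH]
    rw [this, zero_mul]
    exact Nat.zero_le _
  have h1 : tr H v w w' = 1 := by
    unfold tr
    rw [if_pos hH]
  rw [← tr_symm H v w w', h1, one_mul, mul_one]
  obtain ⟨n1, n2, n3⟩ := ne3 h.mm.h3 hH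
  by_cases hex : (w ∈ Z ∧ w' ∈ PV M R ∪ BV R ctr) ∨ (w' ∈ Z ∧ w ∈ PV M R ∪ BV R ctr)
  · unfold ex
    rw [if_pos hex]
    exact Nat.zero_le _
  have hexv : ex Z (PV M R ∪ BV R ctr) w w' = 1 := by
    unfold ex
    rw [if_neg hex]
  rw [hexv]
  rw [not_or, not_and, not_and] at hex
  -- the main case
  have main : (w ∈ PV M R ∨ w' ∈ PV M R) → w ∈ PV M R ∪ BV R ctr → w' ∈ PV M R ∪ BV R ctr →
      1 ≤ (if w ∉ Z ∧ w' ∉ Z ∧ (PG t H M R ctr).Adj w w' then 1 else 0) +
        up t H M R ctr w w' := by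
    intro hP g1 g2
    by_cases g3 : dg H M w w' ≤ t
    · have : up t H M R ctr w w' = 1 := by
        unfold up
        rw [if_pos ⟨hP, ⟨g1, g2⟩, g3⟩]
      rw [this]
      exact Nat.le_add_left _ _
    · have g4 : w ∉ Z := fun h4 => hex.1 h4 g2
      have g5 : w' ∉ Z := fun h4 => hex.2 h4 g1
      have g6 : (PG t H M R ctr).Adj w w' := ⟨n3, hP, ⟨g1, g2⟩, not_le.1 g3⟩
      rw [if_pos ⟨g4, g5, g6⟩]
      exact Nat.le_add_right _ _
  have cw := compl_ctr h hw
  have cw' := compl_ctr h hw'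
  by_cases hP : w ∈ PV M R
  · by_cases hO : w' ∈ out M
    · rw [if_pos (⟨hP, hO⟩ : w ∈ PV M R ∧ w' ∈ out M)]
      omega
    · have g2 : w' ∈ PV M R ∪ BV R ctr := by
        rcases cw' with h4 | h4 | h4
        · exact Finset.mem_union_left _ h4
        · exact Finset.mem_union_right _ h4
        · exact absurd h4 hO
      have := main (Or.inl hP) (Finset.mem_union_left _ hP) g2
      omega
  · by_cases hP' : w' ∈ PV M R
    · by_cases hO : w ∈ out M
      · rw [if_pos (⟨hP', hO⟩ : w' ∈ PV M R ∧ w ∈ out M)]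
        omega
      · have g2 : w ∈ PV M R ∪ BV R ctr := by
          rcases cw with h4 | h4 | h4
          · exact Finset.mem_union_left _ h4
          · exact Finset.mem_union_right _ h4
          · exact absurd h4 hO
        have := main (Or.inr hP') g2 (Finset.mem_union_left _ hP')
        omega
    · exfalso
      refine none_outQ hq h hv ?_ ?_ hH
      · rcases cw with h4 | h4 | h4
        · exact absurd h4 hP
        · exact Or.inr (mem_BV.1 h4)
        · exact Or.inl h4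
      · rcases cw' with h4 | h4 | h4
        · exact absurd h4 hP'
        · exact Or.inr (mem_BV.1 h4)
        · exact Or.inl h4

theorem card_PV {q : ℕ} {H M R : Finset (Finset V)} {ctr : Finset V → V}
    (h : CfgQ q H M R ctr) : (PV M R).card ≤ 3 * (M \ R).card := by
  unfold PV
  refine Finset.card_biUnion_le.trans ?_
  refine (Finset.sum_le_card_nsmul _ _ 3 fun E hE => ?_).trans (le_of_eq ?_)
  · exact (h.mm.h3 E (h.mm.sub (Finset.mem_sdiff.1 hE).1)).le
  · rw [smul_eq_mul, mul_comm]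

theorem card_BV {q : ℕ} {H M R : Finset (Finset V)} {ctr : Finset V → V}
    (h : CfgQ q H M R ctr) : (BV R ctr).card ≤ 2 * R.card := by
  unfold BV
  refine Finset.card_biUnion_le.trans ?_
  refine (Finset.sum_le_card_nsmul _ _ 2 fun F hF => ?_).trans (le_of_eq ?_)
  · rw [Finset.card_erase_of_mem (h.rc F hF).1, h.mm.h3 F (h.mm.sub (h.rs hF))]
  · rw [smul_eq_mul, mul_comm]

theorem totQ {q t : ℕ} (hq : 4 ≤ q) {H M R : Finset (Finset V)} {ctr : Finset V → V}
    (h : CfgQ q H M R ctr) (Z : Finset V) :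
    ∑ v ∈ out M, ∑ w ∈ (R.image ctr)ᶜ, ∑ w' ∈ (R.image ctr)ᶜ,
      tr H v w w' * ex Z (PV M R ∪ BV R ctr) w w' ≤
    (∑ w ∈ Zᶜ, ∑ w' ∈ Zᶜ, (if (PG t H M R ctr).Adj w w' then 1 else 0)) * (out M).card +
      12 * (M \ R).card * q * (out M).card + 18 * (M \ R).card * ((M \ R).card + R.card) * t := by
  obtain ⟨P, hP⟩ : ∃ P, P = PV M R := ⟨_, rfl⟩
  obtain ⟨Q, hQ⟩ : ∃ Q, Q = PV M R ∪ BV R ctr := ⟨_, rfl⟩
  obtain ⟨k, hk⟩ : ∃ k, k = (M \ R).card := ⟨_, rfl⟩
  obtain ⟨r, hr⟩ : ∃ r, r = R.card := ⟨_, rfl⟩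
  obtain ⟨m, hm⟩ : ∃ m, m = (out M).card := ⟨_, rfl⟩
  obtain ⟨e2, he2⟩ : ∃ e2, e2 = ∑ w ∈ Zᶜ, ∑ w' ∈ Zᶜ,
    (if (PG t H M R ctr).Adj w w' then 1 else 0) := ⟨_, rfl⟩
  have cP : P.card ≤ 3 * k := by rw [hP, hk]; exact card_PV h
  have cB : (BV R ctr).card ≤ 2 * r := by rw [hr]; exact card_BV h
  have cQ : Q.card ≤ 3 * k + 2 * r := by
    rw [hQ]
    refine (Finset.card_union_le _ _).trans ?_
    rw [← hP]
    omega
  -- one vertex
  have hone : ∀ v ∈ out M, ∑ w ∈ (R.image ctr)ᶜ, ∑ w' ∈ (R.image ctr)ᶜ,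
      tr H v w w' * ex Z Q w w' ≤ e2 + 2 * (∑ w ∈ P, ∑ u ∈ out M, tr H v w u) +
        ∑ w, ∑ w', up t H M R ctr w w' * tr H v w w' := by
    intro v hv
    have h1 : ∑ w ∈ (R.image ctr)ᶜ, ∑ w' ∈ (R.image ctr)ᶜ, tr H v w w' * ex Z Q w w' ≤
        ∑ w ∈ (R.image ctr)ᶜ, ∑ w' ∈ (R.image ctr)ᶜ,
        ((if w ∉ Z ∧ w' ∉ Z ∧ (PG t H M R ctr).Adj w w' then 1 else 0) +
        (if w ∈ P ∧ w' ∈ out M then tr H v w w' else 0) +
        (if w' ∈ P ∧ w ∈ out M then tr H v w' w else 0) +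
        up t H M R ctr w w' * tr H v w w') := by
      refine Finset.sum_le_sum fun w hw => Finset.sum_le_sum fun w' hw' => ?_
      rw [hQ, hP]
      exact one_pair hq h Z hv (Finset.mem_compl.1 hw) (Finset.mem_compl.1 hw')
    refine h1.trans ?_
    have h2 : ∀ F : V → V → ℕ, ∑ w ∈ (R.image ctr)ᶜ, ∑ w' ∈ (R.image ctr)ᶜ, F w w' ≤
        ∑ w, ∑ w', F w w' := by
      intro F
      refine (Finset.sum_le_sum fun w _ => Finset.sum_le_sum_of_subset
        (Finset.subset_univ _)).trans ?_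
      exact Finset.sum_le_sum_of_subset (Finset.subset_univ _)
    refine (h2 _).trans ?_
    simp only [Finset.sum_add_distrib]
    have g1 : ∑ w, ∑ w', (if w ∉ Z ∧ w' ∉ Z ∧ (PG t H M R ctr).Adj w w' then 1 else 0) = e2 := by
      rw [he2, ← Finset.sum_filter_add_sum_filter_not (univ : Finset V) (fun w => w ∈ Zᶜ)]
      have g2 : ∑ w ∈ univ.filter (fun w => ¬ w ∈ Zᶜ),
          ∑ w', (if w ∉ Z ∧ w' ∉ Z ∧ (PG t H M R ctr).Adj w w' then 1 else 0) = 0 := by
        refine Finset.sum_eq_zero fun w hw => Finset.sum_eq_zero fun w' _ => ?_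
        rw [if_neg]
        rintro ⟨h4, -⟩
        exact (Finset.mem_filter.1 hw).2 (Finset.mem_compl.2 h4)
      rw [g2, add_zero, Finset.filter_mem_eq_inter, Finset.univ_inter]
      refine Finset.sum_congr rfl fun w hw => ?_
      rw [← Finset.sum_filter_add_sum_filter_not (univ : Finset V) (fun w => w ∈ Zᶜ)]
      have g3 : ∑ w' ∈ univ.filter (fun w => ¬ w ∈ Zᶜ),
          (if w ∉ Z ∧ w' ∉ Z ∧ (PG t H M R ctr).Adj w w' then 1 else 0) = 0 := by
        refine Finset.sum_eq_zero fun w' hw' => ?_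
        rw [if_neg]
        rintro ⟨-, h4, -⟩
        exact (Finset.mem_filter.1 hw').2 (Finset.mem_compl.2 h4)
      rw [g3, add_zero, Finset.filter_mem_eq_inter, Finset.univ_inter]
      refine Finset.sum_congr rfl fun w' hw' => ?_
      have c1 := Finset.mem_compl.1 hw
      have c2 := Finset.mem_compl.1 hw'
      simp only [c1, c2, not_false_eq_true, true_and]
    have g4 : ∑ w, ∑ w', (if w ∈ P ∧ w' ∈ out M then tr H v w w' else 0) =
        ∑ w ∈ P, ∑ u ∈ out M, tr H v w u := by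
      have g5 : ∀ w : V, ∑ w', (if w ∈ P ∧ w' ∈ out M then tr H v w w' else 0) =
          if w ∈ P then ∑ u ∈ out M, tr H v w u else 0 := by
        intro w
        by_cases h4 : w ∈ P
        · simp only [h4, true_and, if_true]
          rw [← Finset.sum_filter, Finset.filter_mem_eq_inter, Finset.univ_inter]
        · simp [h4]
      rw [Finset.sum_congr rfl fun w _ => g5 w, ← Finset.sum_filter,
        Finset.filter_mem_eq_inter, Finset.univ_inter]
    have g6 : ∑ w, ∑ w', (if w' ∈ P ∧ w ∈ out M then tr H v w' w else 0) =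
        ∑ w ∈ P, ∑ u ∈ out M, tr H v w u := by
      rw [Finset.sum_comm, ← g4]
    rw [g1, g4, g6]
    omega
  have h3 := Finset.sum_le_sum hone
  rw [← hQ, ← hk, ← hr, ← hm, ← he2]
  refine h3.trans ?_
  rw [Finset.sum_add_distrib, Finset.sum_add_distrib, ← Finset.mul_sum, Finset.sum_const,
    smul_eq_mul, ← hm]
  have e1 : ∑ v ∈ out M, ∑ w ∈ P, ∑ u ∈ out M, tr H v w u = ∑ w ∈ P, ∑ u ∈ out M, dg H M w u := by
    rw [Finset.sum_comm]
    refine Finset.sum_congr rfl fun w _ => ?_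
    rw [Finset.sum_comm]
    exact Finset.sum_congr rfl fun w' _ => dg_sum H M w w'
  have e2' : ∑ w ∈ P, ∑ u ∈ out M, dg H M w u ≤ 3 * k * (2 * q * m) := by
    refine (Finset.sum_le_card_nsmul _ _ (2 * q * m) fun w hw => ?_).trans ?_
    · rw [hP] at hw
      obtain ⟨E, hE, hwE⟩ := mem_PV.1 hw
      obtain ⟨T, hT, hTc⟩ := h.pr E hE w hwE
      rw [hm]
      refine cov_sum hT fun v hv u hu hvu => ?_
      obtain ⟨-, n2, -⟩ := ne3 h.mm.h3 hvu
      rw [Finset.insert_comm] at hvu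
      exact hTc v hv u hu n2 hvu
    · rw [smul_eq_mul]
      exact Nat.mul_le_mul_right _ cP
  have e3 : ∑ v ∈ out M, ∑ w, ∑ w', up t H M R ctr w w' * tr H v w w' =
      ∑ w, ∑ w', up t H M R ctr w w' * dg H M w w' := by
    rw [Finset.sum_comm]
    refine Finset.sum_congr rfl fun w _ => ?_
    rw [Finset.sum_comm]
    refine Finset.sum_congr rfl fun w' _ => ?_
    rw [← Finset.mul_sum, dg_sum]
  have e4 : ∑ w, ∑ w', up t H M R ctr w w' * dg H M w w' ≤ 18 * k * (k + r) * t := by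
    have g1 : ∀ w w', up t H M R ctr w w' * dg H M w w' ≤
        ((if w ∈ P then (if w' ∈ Q then t else 0) else 0) +
        (if w ∈ Q then (if w' ∈ P then t else 0) else 0)) := by
      intro w w'
      unfold up
      rw [← hQ, ← hP]
      by_cases hc : (w ∈ P ∨ w' ∈ P) ∧ (w ∈ Q ∧ w' ∈ Q) ∧ dg H M w w' ≤ t
      · rw [if_pos hc, one_mul]
        obtain ⟨h4, ⟨h5, h6⟩, h7⟩ := hc
        rw [if_pos h6, if_pos h5]
        rcases h4 with h4 | h4
        · rw [if_pos h4]
          omega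
        · rw [if_pos h4]
          omega
      · rw [if_neg hc, zero_mul]
        exact Nat.zero_le _
    refine (Finset.sum_le_sum fun w _ => Finset.sum_le_sum fun w' _ => g1 w w').trans ?_
    simp only [Finset.sum_add_distrib]
    have g2 : ∀ X Y : Finset V, ∑ w, ∑ w', (if w ∈ X then (if w' ∈ Y then t else 0) else 0) =
        X.card * (Y.card * t) := by
      intro X Y
      have g5 : ∀ w : V, ∑ w', (if w ∈ X then (if w' ∈ Y then t else 0) else 0) =
          if w ∈ X then Y.card * t else 0 := by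
        intro w
        by_cases h4 : w ∈ X
        · simp only [h4, if_true]
          rw [← Finset.sum_filter, Finset.filter_mem_eq_inter, Finset.univ_inter,
            Finset.sum_const, smul_eq_mul]
        · simp [h4]
      rw [Finset.sum_congr rfl fun w _ => g5 w, ← Finset.sum_filter,
        Finset.filter_mem_eq_inter, Finset.univ_inter, Finset.sum_const, smul_eq_mul]
    rw [g2, g2]
    have g3 : P.card * Q.card ≤ (3 * k) * (3 * k + 2 * r) := Nat.mul_le_mul cP cQ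
    have g4 : (3 * k) * (3 * k + 2 * r) ≤ 9 * k * (k + r) := by nlinarith [Nat.zero_le (k * r)]
    have g5 : P.card * (Q.card * t) + Q.card * (P.card * t) = 2 * (P.card * Q.card) * t := by ring
    rw [g5]
    refine Nat.mul_le_mul_right t ?_
    nlinarith
  rw [e1, e3]
  nlinarith

/-- A good vertex. -/
theorem goodQ {q t : ℕ} (hq : 4 ≤ q) {H M R : Finset (Finset V)} {ctr : Finset V → V}
    (h : CfgQ q H M R ctr) (Z : Finset V) (hm : 0 < (out M).card) : ∃ v ∈ out M,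
    (∑ w ∈ (R.image ctr)ᶜ, ∑ w' ∈ (R.image ctr)ᶜ,
      tr H v w w' * ex Z (PV M R ∪ BV R ctr) w w') * (out M).card ≤
    (∑ w ∈ Zᶜ, ∑ w' ∈ Zᶜ, (if (PG t H M R ctr).Adj w w' then 1 else 0)) * (out M).card +
      12 * (M \ R).card * q * (out M).card + 18 * (M \ R).card * ((M \ R).card + R.card) * t := by
  by_contra hcon
  push Not at hcon
  have h1 := totQ (t := t) hq h Z
  obtain ⟨B, hB⟩ : ∃ B, B = (∑ w ∈ Zᶜ, ∑ w' ∈ Zᶜ,
      (if (PG t H M R ctr).Adj w w' then 1 else 0)) * (out M).card +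
      12 * (M \ R).card * q * (out M).card +
      18 * (M \ R).card * ((M \ R).card + R.card) * t := ⟨_, rfl⟩
  rw [← hB] at h1 hcon
  have h2 : ∑ _v ∈ out M, B < ∑ v ∈ out M,
      (∑ w ∈ (R.image ctr)ᶜ, ∑ w' ∈ (R.image ctr)ᶜ,
      tr H v w w' * ex Z (PV M R ∪ BV R ctr) w w') * (out M).card :=
    Finset.sum_lt_sum_of_nonempty (Finset.card_pos.1 hm) hcon
  rw [Finset.sum_const, smul_eq_mul, ← Finset.sum_mul] at h2
  have h3 := Nat.mul_le_mul_right (out M).card h1
  rw [mul_comm (out M).card] at h2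
  exact absurd (h2.trans_le h3) (lt_irrefl _)

end Pool.MP_62c2ba
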